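import Pool.Agent.Lib.MP_b3fcb1_lc.Noise2

/-!
Blocks of items, and the lists of the offline algorithm that are ordered block by block.
-/

namespace Pool.Agent.Lib.MP_b3fcb1_lc

section blocks

/-- sum of the first `j` weights -/
def pre (w : ℕ → ℕ) (j : ℕ) : ℕ := ∑ i ∈ Finset.range j, w i

lemma pre_mono (w : ℕ → ℕ) : Monotone (pre w) := by
  intro a b hab
  exact Finset.sum_le_sum_of_subset (Finset.range_mono hab)

lemma pre_succ (w : ℕ → ℕ) (j : ℕ) : pre w (j + 1) = pre w j + w j := Finset.sum_range_succ _ _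

/-- the block of the item of rank `r`: block `j < k` consists of `w j * m` consecutive ranks, and
all the remaining ranks get the number `k`. -/
def blk (w : ℕ → ℕ) (k m : ℕ) (r : ℕ) : ℕ := Nat.findGreatest (fun j => m * pre w j ≤ r) k

variable {w : ℕ → ℕ} {k m : ℕ}

lemma blk_le (r : ℕ) : blk w k m r ≤ k := Nat.findGreatest_le k

lemma blk_mono {r r' : ℕ} (h : r ≤ r') : blk w k m r ≤ blk w k m r' := by
  unfold blk
  exact Nat.findGreatest_mono_left (fun j hj => hj.trans h) k

lemma blk_eq_iff {r j : ℕ} (hj : j < k) :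
    blk w k m r = j ↔ m * pre w j ≤ r ∧ r < m * pre w (j + 1) := by
  unfold blk
  rw [Nat.findGreatest_eq_iff]
  constructor
  · rintro ⟨_, h2, h3⟩
    refine ⟨?_, ?_⟩
    · rcases Nat.eq_zero_or_pos j with h | h
      · subst h; simp [pre]
      · exact h2 (by omega)
    · have := h3 (Nat.lt_succ_self j) (by omega)
      exact not_le.mp this
  · rintro ⟨h1, h2⟩
    refine ⟨hj.le, fun _ => h1, ?_⟩
    intro i hi _ hcon
    have := pre_mono w (show j + 1 ≤ i from hi)
    have := Nat.mul_le_mul_left m this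
    omega

lemma blk_lt_iff {r : ℕ} : blk w k m r < k ↔ r < m * pre w k := by
  constructor
  · intro h
    have h1 := ((blk_eq_iff (w := w) (m := m) (r := r) h).mp rfl).2
    have := Nat.mul_le_mul_left m (pre_mono w (show blk w k m r + 1 ≤ k from h))
    omega
  · intro h
    by_contra hcon
    have h1 : blk w k m r = k := le_antisymm (blk_le r) (not_lt.mp hcon)
    unfold blk at h1
    rw [Nat.findGreatest_eq_iff] at h1
    rcases Nat.eq_zero_or_pos k with h0 | h0
    · subst h0; simp [pre] at h
    · have := h1.2.1 (by omega); omega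

variable {n : ℕ}

/-- the items of a block -/
def block (w : ℕ → ℕ) (k m n j : ℕ) : Finset (Fin n) :=
  Finset.univ.filter (fun r => blk w k m r = j)

lemma mem_block {j : ℕ} {r : Fin n} : r ∈ block w k m n j ↔ blk w k m r = j := by
  simp [block]

lemma card_block {j : ℕ} (hj : j < k) (hm : m * pre w k ≤ n) :
    (block w k m n j).card = m * w j := by
  have h1 : (block w k m n j).map Fin.valEmbedding =
      Finset.Ico (m * pre w j) (m * pre w (j + 1)) := by
    ext r
    simp only [Finset.mem_map, mem_block, Fin.valEmbedding_apply, Finset.mem_Ico]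
    constructor
    · rintro ⟨a, ha, rfl⟩
      exact (blk_eq_iff hj).mp ha
    · intro h
      have : r < n := by
        have := Nat.mul_le_mul_left m (pre_mono w (show j + 1 ≤ k from hj))
        omega
      exact ⟨⟨r, this⟩, (blk_eq_iff hj).mpr h, rfl⟩
  rw [← Finset.card_map Fin.valEmbedding, h1, Nat.card_Ico, pre_succ, Nat.mul_add]
  omega

end blocks

section keys

variable {n : ℕ}

/-- list in which the blocks `bl` are in the order `p`, and the items of a block in the order `g` -/
def bkey (p : ℕ → ℕ) (bl g : Fin n → ℕ) : Fin n → ℤ := fun y => ((p (bl y) * n + g y : ℕ) : ℤ)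

lemma bkey_nonneg (p : ℕ → ℕ) (bl g : Fin n → ℕ) (y : Fin n) : 0 ≤ bkey p bl g y := by
  unfold bkey; exact Int.natCast_nonneg _

lemma bkey_lt_ne {p : ℕ → ℕ} (hp : Function.Injective p) {bl g : Fin n → ℕ} {x y : Fin n}
    (hx : g x < n) (hy : g y < n) (hne : bl x ≠ bl y) :
    bkey p bl g x < bkey p bl g y ↔ ((p (bl x) : ℕ) : ℤ) < ((p (bl y) : ℕ) : ℤ) := by
  unfold bkey
  have h1 : p (bl x) ≠ p (bl y) := fun e => hne (hp e)
  rw [Nat.cast_lt, Nat.cast_lt]
  constructor
  · intro h
    by_contra hc
    have h2 : p (bl y) + 1 ≤ p (bl x) := by omega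
    have h3 := Nat.mul_le_mul_right n h2
    rw [Nat.add_mul] at h3
    omega
  · intro h
    have h2 : p (bl x) + 1 ≤ p (bl y) := by omega
    have h3 := Nat.mul_le_mul_right n h2
    rw [Nat.add_mul] at h3
    omega

lemma bkey_lt_eq {p : ℕ → ℕ} {bl g : Fin n → ℕ} {x y : Fin n} (he : bl x = bl y) :
    bkey p bl g x < bkey p bl g y ↔ g x < g y := by
  unfold bkey
  rw [Nat.cast_lt, he]
  omega

lemma bkey_inj {p : ℕ → ℕ} (hp : Function.Injective p) {bl g : Fin n → ℕ}
    (hg : ∀ y, g y < n) (hi : ∀ x y, bl x = bl y → g x = g y → x = y) :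
    Function.Injective (bkey p bl g) := by
  intro x y hxy
  by_cases he : bl x = bl y
  · apply hi x y he
    have h1 := (bkey_lt_eq (p := p) (g := g) he).not
    have h2 := (bkey_lt_eq (p := p) (g := g) he.symm).not
    rw [hxy] at h1 h2
    have h3 := h1.mp (lt_irrefl _)
    have h4 := h2.mp (lt_irrefl _)
    omega
  · exfalso
    have h1 := (bkey_lt_ne hp (hg x) (hg y) he).not
    have h2 := (bkey_lt_ne hp (hg y) (hg x) (Ne.symm he)).not
    rw [hxy] at h1 h2
    have h3 := h1.mp (lt_irrefl _)
    have h4 := h2.mp (lt_irrefl _)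
    exact he (hp (by omega))

/-- order inside the blocks: the blocks in `rv` are reversed -/
def gint (n : ℕ) (rv : ℕ → Bool) (bl : Fin n → ℕ) : Fin n → ℕ :=
  fun y => if rv (bl y) = true then n - 1 - (y : ℕ) else (y : ℕ)

/-- order inside the blocks in the middle of a pass over the block `b`, up to the item `r`, by
which this block is reversed. -/
def gpass (n : ℕ) (rv : ℕ → Bool) (bl : Fin n → ℕ) (b : ℕ) (r : Fin n) : Fin n → ℕ :=
  fun y => if bl y = b then (if (y : ℕ) ≤ r then (r : ℕ) - y else (y : ℕ)) else gint n rv bl y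

lemma gint_lt (rv : ℕ → Bool) (bl : Fin n → ℕ) (y : Fin n) : gint n rv bl y < n := by
  have := y.isLt
  unfold gint; split_ifs <;> omega

lemma gpass_lt (rv : ℕ → Bool) (bl : Fin n → ℕ) (b : ℕ) (r y : Fin n) :
    gpass n rv bl b r y < n := by
  have := y.isLt
  have := r.isLt
  have := gint_lt rv bl y
  unfold gpass; split_ifs <;> omega

lemma gint_inj (rv : ℕ → Bool) (bl : Fin n → ℕ) (x y : Fin n) (he : bl x = bl y)
    (h : gint n rv bl x = gint n rv bl y) : x = y := by
  unfold gint at h
  rw [he] at h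
  have := x.isLt
  have := y.isLt
  apply Fin.ext
  split_ifs at h <;> omega

lemma gpass_inj (rv : ℕ → Bool) (bl : Fin n → ℕ) (b : ℕ) (r x y : Fin n) (he : bl x = bl y)
    (h : gpass n rv bl b r x = gpass n rv bl b r y) : x = y := by
  unfold gpass at h
  rw [he] at h
  by_cases hb : bl y = b
  · rw [if_pos hb, if_pos hb] at h
    have := r.isLt
    apply Fin.ext
    split_ifs at h <;> omega
  · rw [if_neg hb, if_neg hb] at h
    exact gint_inj rv bl x y he h

/-- the items of block `b`, in increasing order -/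
def pass (bl : Fin n → ℕ) (b : ℕ) : List (Fin n) := (List.finRange n).filter (fun r => bl r = b)

lemma mem_pass {bl : Fin n → ℕ} {b : ℕ} {r : Fin n} : r ∈ pass bl b ↔ bl r = b := by
  simp [pass]

lemma pass_pairwise (bl : Fin n → ℕ) (b : ℕ) :
    (pass bl b).Pairwise (fun x y : Fin n => (((x : ℕ) : ℤ)) < (((y : ℕ) : ℤ))) := by
  unfold pass
  refine List.Pairwise.filter _ ((List.pairwise_lt_finRange n).imp ?_)
  intro a b hab
  exact_mod_cast hab

lemma pass_nodup (bl : Fin n → ℕ) (b : ℕ) : (pass bl b).Nodup :=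
  (List.nodup_finRange n).filter _

lemma pass_count (bl : Fin n → ℕ) (b : ℕ) (z : Fin n) :
    (pass bl b).count z = if bl z = b then 1 else 0 := by
  split_ifs with h
  · exact List.count_eq_one_of_mem (pass_nodup bl b) (mem_pass.mpr h)
  · exact List.count_eq_zero_of_not_mem (fun hc => h (mem_pass.mp hc))

lemma pass_length (bl : Fin n → ℕ) (b : ℕ) : (pass bl b).length ≤ n := by
  unfold pass
  exact (List.length_filter_le _ _).trans (by simp)

end keys

end Pool.Agent.Lib.MP_b3fcb1_lc
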