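import Pool.Agent.Lib.MP_b3fcb1_lc.Local

/-!
The certificate of a gadget from a family of functions satisfying local inequalities.
-/

namespace Pool.Agent.Lib.MP_b3fcb1_lc

variable {k : ℕ}

lemma form_add (F F' : Fin k → Fin k → ℤ) (z : ItemList k) :
    form (fun a b => F a b + F' a b) z = form F z + form F' z := by
  unfold form
  rw [← Finset.sum_add_distrib]
  apply Finset.sum_congr rfl; intro a _
  rw [← Finset.sum_add_distrib]
  apply Finset.sum_congr rfl; intro b _
  split_ifs <;> simp

lemma form_mul (m : ℤ) (F : Fin k → Fin k → ℤ) (z : ItemList k) :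
    form (fun a b => m * F a b) z = m * form F z := by
  unfold form
  rw [Finset.mul_sum]
  apply Finset.sum_congr rfl; intro a _
  rw [Finset.mul_sum]
  apply Finset.sum_congr rfl; intro b _
  split_ifs <;> simp

lemma dsum_mul (m : ℤ) (F : Fin k → Fin k → ℤ) (z z' : ItemList k) :
    dsum (fun a b => m * F a b) z z' = m * dsum F z z' := by
  unfold dsum
  rw [Finset.mul_sum]
  apply Finset.sum_congr rfl; intro a _
  rw [Finset.mul_sum]
  apply Finset.sum_congr rfl; intro b _
  split_ifs <;> simp

lemma form_sum {ι : Type*} (s : Finset ι) (F : ι → Fin k → Fin k → ℤ) (z : ItemList k) :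
    form (fun a b => ∑ c ∈ s, F c a b) z = ∑ c ∈ s, form (F c) z := by
  unfold form
  conv_rhs => rw [Finset.sum_comm]
  apply Finset.sum_congr rfl; intro a _
  conv_rhs => rw [Finset.sum_comm]
  apply Finset.sum_congr rfl; intro b _
  split_ifs <;> simp

lemma permOf_lt' {f : Fin k → ℤ} (hf : Function.Injective f) (x y : Fin k) :
    permOf f x < permOf f y ↔ f x < f y := by
  rw [← key_lt]; exact permOf_lt hf x y

lemma pass_sum (W : Fin k → Fin k → ℤ) (hW : ∀ a b, W a b = W b a) (r : Fin k)
    {f g : Fin k → ℤ} (hf : Function.Injective f) (hg : Function.Injective g) :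
    ∑ i, ∑ j, (if i < j then W i j * (pc r f g i j : ℤ) else 0) =
      form (fun a b => if b = r then W a b else 0) (permOf f) +
      dsum (fun a b => if b = r then 0 else W a b) (permOf f) (permOf g) := by
  rw [sum_lt_symm (X := fun i j => W i j * (pc r f g i j : ℤ)) (by
    intro i j; rw [hW, pc_symm r hf hg]) hf]
  unfold form dsum
  rw [← Finset.sum_add_distrib]
  apply Finset.sum_congr rfl; intro a _
  rw [← Finset.sum_add_distrib]
  apply Finset.sum_congr rfl; intro b _
  simp only [permOf_lt' hf, permOf_lt' hg]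
  by_cases h : f a < f b
  · simp only [h, if_true, true_and, pc_of_lt r hg h]
    by_cases h1 : b = r
    · simp [h1]
    · by_cases h2 : g b < g a <;> simp [h1, h2]
  · simp [h]

lemma term_sum (W : Fin k → Fin k → ℤ) (hW : ∀ a b, W a b = W b a)
    {f R : Fin k → ℤ} (hf : Function.Injective f) (hR : Function.Injective R) :
    ∑ i, ∑ j, (if i < j then W i j * (fl f R i j : ℤ) else 0) =
      form (fun a b => if R b < R a then W a b else 0) (permOf f) := by
  rw [sum_lt_symm (X := fun i j => W i j * (fl f R i j : ℤ)) (by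
    intro i j; rw [hW, fl_symm hf hR]) hf]
  unfold form
  apply Finset.sum_congr rfl; intro a _
  apply Finset.sum_congr rfl; intro b _
  simp only [permOf_lt' hf]
  by_cases h : f a < f b
  · have hab : a ≠ b := by rintro rfl; exact lt_irrefl _ h
    simp only [h, if_true]
    unfold fl
    by_cases h2 : R b < R a
    · have : ¬ (f a < f b ↔ R a < R b) := fun e => absurd (e.mp h) (not_lt.mpr h2.le)
      simp [this, h2]
    · have : (f a < f b ↔ R a < R b) :=
        iff_of_true h (lt_of_le_of_ne (not_lt.mp h2) (fun e => hab (hR e)))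
      simp [this, h2]
  · simp [h]

namespace Gadget

variable (G : Gadget k)

/-- product of the weights -/
def ww (a b : Fin k) : ℤ := (G.w a : ℤ) * G.w b

/-- weight of the outcomes with more than `t` passes -/
def Qs (t : ℕ) : ℤ := ∑ c ∈ Finset.range G.N, if t < G.h c then (G.wt c : ℤ) else 0

/-- weight of the outcomes with `t` passes and `b` before `a` in the noise phase -/
def Rs (t : ℕ) (a b : Fin k) : ℤ :=
  ∑ c ∈ Finset.range G.N, if G.h c = t ∧ G.R c b < G.R c a then (G.wt c : ℤ) else 0

/-- cost of having `a` ahead of `b` at time `t` -/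
def FL (t : ℕ) (a b : Fin k) : ℤ :=
  2 * (G.ww a b * G.Rs t a b) + 2 * G.Qs t * (if b = G.path t then G.ww a b else 0)

/-- cost of exchanging `a` and `b` at time `t` -/
def dc (t : ℕ) (a b : Fin k) : ℤ := 2 * G.Qs t * (if b = G.path t then 0 else G.ww a b)

/-- offline cost -/
def K0 : ℤ := ∑ i : Fin k, ∑ j : Fin k, if i < j then G.ww i j *
  (∑ c ∈ Finset.range G.N, (G.wt c : ℤ) *
    (2 * (fl (G.Rz c) (G.qz c (G.h c)) i j : ℤ) + 3 * (G.WP c i j : ℤ))) else 0

lemma ww_comm (a b : Fin k) : G.ww a b = G.ww b a := mul_comm _ _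

/-- macro cost of the noise phases after `t` passes -/
def TT (g : ℕ → Fin k → ℤ) (t : ℕ) : ℤ := ∑ i : Fin k, ∑ j : Fin k, if i < j then G.ww i j *
  (2 * ∑ c ∈ Finset.range G.N, if G.h c = t then (G.wt c : ℤ) *
    (fl (g t) (fun i : Fin k => G.Rz c i) i j : ℤ) else 0) else 0

/-- macro cost of the pass `t` -/
def PP (g : ℕ → Fin k → ℤ) (t : ℕ) : ℤ := ∑ i : Fin k, ∑ j : Fin k, if i < j then G.ww i j *
  (2 * G.Qs t * (pc (G.path t) (g t) (g (t + 1)) i j : ℤ)) else 0

variable {G}

lemma Rz_inj (hG : G.Ok) (c : ℕ) : Function.Injective (fun i : Fin k => G.Rz c i) := by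
  intro i j h
  unfold Rz at h
  simp only [Nat.cast_inj] at h
  exact Fin.ext (hG.R_inj c h)

lemma TT_eq (hG : G.Ok) {g : ℕ → Fin k → ℤ} (hg : ∀ t, Function.Injective (g t)) (t : ℕ) :
    G.TT g t = form (fun a b => 2 * (G.ww a b * G.Rs t a b)) (permOf (g t)) := by
  have h1 : (fun a b : Fin k => 2 * (G.ww a b * G.Rs t a b)) =
      fun a b : Fin k => ∑ c ∈ Finset.range G.N, 2 * (if G.h c = t then (G.wt c : ℤ) else 0) *
        (if G.Rz c b < G.Rz c a then G.ww a b else 0) := by
    funext a b
    unfold Rs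
    rw [Finset.mul_sum, Finset.mul_sum]
    apply Finset.sum_congr rfl; intro c _
    unfold Rz
    simp only [Nat.cast_lt]
    by_cases h1 : G.h c = t
    · by_cases h2 : G.R c b < G.R c a
      · simp [h1, h2]; ring
      · simp [h1, h2]
    · simp [h1]
  rw [h1, form_sum]
  unfold TT
  calc _ = ∑ i : Fin k, ∑ j : Fin k, ∑ c ∈ Finset.range G.N,
        2 * (if G.h c = t then (G.wt c : ℤ) else 0) * (if i < j then G.ww i j *
          (fl (g t) (fun i : Fin k => G.Rz c i) i j : ℤ) else 0) := by
        apply Finset.sum_congr rfl; intro i _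
        apply Finset.sum_congr rfl; intro j _
        split_ifs with h
        · rw [Finset.mul_sum, Finset.mul_sum]
          apply Finset.sum_congr rfl; intro c _
          split_ifs <;> ring
        · simp
    _ = ∑ c ∈ Finset.range G.N, ∑ i : Fin k, ∑ j : Fin k,
        2 * (if G.h c = t then (G.wt c : ℤ) else 0) * (if i < j then G.ww i j *
          (fl (g t) (fun i : Fin k => G.Rz c i) i j : ℤ) else 0) := by
        calc _ = ∑ i : Fin k, ∑ c ∈ Finset.range G.N, ∑ j : Fin k,
            2 * (if G.h c = t then (G.wt c : ℤ) else 0) * (if i < j then G.ww i j *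
            (fl (g t) (fun i : Fin k => G.Rz c i) i j : ℤ) else 0) := by
              apply Finset.sum_congr rfl; intro i _
              exact Finset.sum_comm
          _ = _ := Finset.sum_comm
    _ = _ := by
        apply Finset.sum_congr rfl; intro c _
        rw [form_mul, ← term_sum G.ww G.ww_comm (hg t) (Rz_inj hG c), Finset.mul_sum]
        apply Finset.sum_congr rfl; intro i _
        rw [Finset.mul_sum]

lemma PP_eq {g : ℕ → Fin k → ℤ} (hg : ∀ t, Function.Injective (g t)) (t : ℕ) :
    G.PP g t = form (fun a b => 2 * G.Qs t * (if b = G.path t then G.ww a b else 0))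
      (permOf (g t)) + dsum (G.dc t) (permOf (g t)) (permOf (g (t + 1))) := by
  unfold PP dc
  rw [form_mul, dsum_mul, ← mul_add, ← pass_sum G.ww G.ww_comm _ (hg t) (hg (t + 1)),
    Finset.mul_sum]
  apply Finset.sum_congr rfl; intro i _
  rw [Finset.mul_sum]
  apply Finset.sum_congr rfl; intro j _
  split_ifs
  · ring
  · simp

/-- the macro sum, reorganised by levels -/
lemma macro_sum (hG : G.Ok) (g : ℕ → Fin k → ℤ) :
    ∑ i : Fin k, ∑ j : Fin k, (if i < j then ((G.w i : ℤ) * G.w j) * G.Mac g i j else 0) =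
      ∑ t ∈ Finset.range G.L, (G.PP g t + G.TT g t) + G.TT g G.L +
      2 * G.Wt * (∑ i : Fin k, ∑ j : Fin k, if i < j then G.ww i j *
        (fl (g 0) (fun i : Fin k => ((i : ℕ) : ℤ)) i j : ℤ) else 0) - G.K0 := by
  have h1 : ∀ i j : Fin k, G.Mac g i j =
      ∑ t ∈ Finset.range G.L, (2 * G.Qs t * (pc (G.path t) (g t) (g (t + 1)) i j : ℤ) +
        2 * ∑ c ∈ Finset.range G.N, if G.h c = t then (G.wt c : ℤ) *
          (fl (g t) (fun i : Fin k => G.Rz c i) i j : ℤ) else 0) +
      (2 * ∑ c ∈ Finset.range G.N, if G.h c = G.L then (G.wt c : ℤ) *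
          (fl (g G.L) (fun i : Fin k => G.Rz c i) i j : ℤ) else 0) +
      2 * G.Wt * (fl (g 0) (fun i : Fin k => ((i : ℕ) : ℤ)) i j : ℤ) -
      (∑ c ∈ Finset.range G.N, (G.wt c : ℤ) *
        (2 * (fl (G.Rz c) (G.qz c (G.h c)) i j : ℤ) + 3 * (G.WP c i j : ℤ))) := by
    intro i j
    have e1 : ∀ c, (∑ s ∈ Finset.range (G.h c), (pc (G.path s) (g s) (g (s + 1)) i j : ℤ)) =
        ∑ s ∈ Finset.range G.L, if s < G.h c then
          (pc (G.path s) (g s) (g (s + 1)) i j : ℤ) else 0 := by
      intro c
      rw [← Finset.sum_filter]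
      apply Finset.sum_congr _ (fun _ _ => rfl)
      ext s
      simp only [Finset.mem_range, Finset.mem_filter]
      have := hG.h_le c
      constructor
      · intro h; exact ⟨by omega, h⟩
      · intro h; exact h.2
    have e2 : ∀ c, (fl (g (G.h c)) (fun i : Fin k => G.Rz c i) i j : ℤ) =
        ∑ s ∈ Finset.range (G.L + 1), if G.h c = s then
          (fl (g s) (fun i : Fin k => G.Rz c i) i j : ℤ) else 0 := by
      intro c
      rw [Finset.sum_ite_eq]
      have := hG.h_le c
      rw [if_pos (Finset.mem_range.mpr (by omega))]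
    unfold Mac mac
    simp only [e1, e2]
    have e3 : ∑ t ∈ Finset.range G.L, (2 * G.Qs t * (pc (G.path t) (g t) (g (t + 1)) i j : ℤ)) =
        ∑ c ∈ Finset.range G.N, (G.wt c : ℤ) * (2 * ∑ s ∈ Finset.range G.L,
          if s < G.h c then (pc (G.path s) (g s) (g (s + 1)) i j : ℤ) else 0) := by
      unfold Qs
      calc _ = ∑ t ∈ Finset.range G.L, ∑ c ∈ Finset.range G.N,
            (G.wt c : ℤ) * (2 * (if t < G.h c then
              (pc (G.path t) (g t) (g (t + 1)) i j : ℤ) else 0)) := by
            apply Finset.sum_congr rfl; intro t _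
            rw [Finset.mul_sum, Finset.sum_mul]
            apply Finset.sum_congr rfl; intro c _
            split_ifs <;> ring
        _ = _ := by
            rw [Finset.sum_comm]
            apply Finset.sum_congr rfl; intro c _
            rw [Finset.mul_sum, Finset.mul_sum]
    have e4 : (∑ t ∈ Finset.range G.L, (2 * ∑ c ∈ Finset.range G.N, if G.h c = t then
          (G.wt c : ℤ) * (fl (g t) (fun i : Fin k => G.Rz c i) i j : ℤ) else 0)) +
        (2 * ∑ c ∈ Finset.range G.N, if G.h c = G.L then (G.wt c : ℤ) *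
          (fl (g G.L) (fun i : Fin k => G.Rz c i) i j : ℤ) else 0) =
        ∑ c ∈ Finset.range G.N, (G.wt c : ℤ) * (2 * ∑ s ∈ Finset.range (G.L + 1),
          if G.h c = s then (fl (g s) (fun i : Fin k => G.Rz c i) i j : ℤ) else 0) := by
      rw [← Finset.sum_range_succ (fun t => 2 * ∑ c ∈ Finset.range G.N, if G.h c = t then
          (G.wt c : ℤ) * (fl (g t) (fun i : Fin k => G.Rz c i) i j : ℤ) else 0)]
      calc _ = ∑ t ∈ Finset.range (G.L + 1), ∑ c ∈ Finset.range G.N,
            (G.wt c : ℤ) * (2 * (if G.h c = t then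
              (fl (g t) (fun i : Fin k => G.Rz c i) i j : ℤ) else 0)) := by
            apply Finset.sum_congr rfl; intro t _
            rw [Finset.mul_sum]
            apply Finset.sum_congr rfl; intro c _
            split_ifs <;> ring
        _ = _ := by
            rw [Finset.sum_comm]
            apply Finset.sum_congr rfl; intro c _
            rw [Finset.mul_sum, Finset.mul_sum]
    rw [Finset.sum_add_distrib, add_assoc (∑ t ∈ Finset.range G.L, _), e4, e3]
    unfold Wt
    rw [Finset.mul_sum, Finset.sum_mul, ← Finset.sum_add_distrib, ← Finset.sum_add_distrib,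
      ← Finset.sum_sub_distrib]
    apply Finset.sum_congr rfl; intro c _
    ring
  unfold PP TT K0
  simp only [h1]
  have h2 : ∀ (a b : Fin k → Fin k → ℤ), (∑ i : Fin k, ∑ j : Fin k, a i j) +
      (∑ i : Fin k, ∑ j : Fin k, b i j) = ∑ i : Fin k, ∑ j : Fin k, (a i j + b i j) := by
    intro a b
    simp only [Finset.sum_add_distrib]
  have h3 : ∀ (a b : Fin k → Fin k → ℤ), (∑ i : Fin k, ∑ j : Fin k, a i j) -
      (∑ i : Fin k, ∑ j : Fin k, b i j) = ∑ i : Fin k, ∑ j : Fin k, (a i j - b i j) := by
    intro a b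
    simp only [Finset.sum_sub_distrib]
  have h4 : ∀ (s : Finset ℕ) (a : ℕ → Fin k → Fin k → ℤ),
      (∑ t ∈ s, ∑ i : Fin k, ∑ j : Fin k, a t i j) =
      ∑ i : Fin k, ∑ j : Fin k, ∑ t ∈ s, a t i j := by
    intro s a
    rw [Finset.sum_comm]
    apply Finset.sum_congr rfl; intro i _
    rw [Finset.sum_comm]
  have h5 : ∀ (m : ℤ) (a : Fin k → Fin k → ℤ), m * (∑ i : Fin k, ∑ j : Fin k, a i j) =
      ∑ i : Fin k, ∑ j : Fin k, m * a i j := by
    intro m a
    rw [Finset.mul_sum]
    apply Finset.sum_congr rfl; intro i _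
    rw [Finset.mul_sum]
  simp only [h2, h4, h5, h3]
  apply Finset.sum_congr rfl; intro i _
  apply Finset.sum_congr rfl; intro j _
  by_cases hij : i < j
  · simp only [hij, if_true]
    unfold ww
    rw [mul_sub, mul_add, mul_add, Finset.mul_sum]
    congr 1
    congr 1
    · congr 1
      apply Finset.sum_congr rfl; intro t _
      ring
    · ring
  · simp [hij]

/-- The certificate from local inequalities. -/
theorem cert_of (hG : G.Ok) (U : ℕ → ItemList k → ℤ) {G2 : ℤ}
    (hB : ∀ t < G.L, ∀ (z : ItemList k) (a b : Fin k), (z b : ℕ) = z a + 1 →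
      U t z ≤ U t (exchange (z a : ℕ) z) + G.dc t a b)
    (hA : ∀ t < G.L, ∀ z, U t z ≤ form (G.FL (t + 1)) z + U (t + 1) z)
    (hL : ∀ z, U G.L z ≤ 0)
    (hC : ∀ z, G2 + G.K0 ≤
      form (fun a b => G.FL 0 a b + 2 * G.Wt * (if b < a then G.ww a b else 0)) z + U 0 z) :
    G.Cert G2 := by
  intro g hg
  rw [macro_sum hG g]
  have h1 : ∀ t < G.L, form (G.FL t) (permOf (g t)) + U t (permOf (g t)) ≤
      G.PP g t + G.TT g t + (form (G.FL (t + 1)) (permOf (g (t + 1))) +
        U (t + 1) (permOf (g (t + 1)))) := by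
    intro t ht
    have e1 := lip (hB t ht) (permOf (g t)) (permOf (g (t + 1)))
    have e2 := hA t ht (permOf (g (t + 1)))
    have e3 : form (G.FL t) (permOf (g t)) = G.TT g t +
        form (fun a b => 2 * G.Qs t * (if b = G.path t then G.ww a b else 0)) (permOf (g t)) := by
      rw [TT_eq hG hg, ← form_add]
      rfl
    rw [PP_eq hg, e3]
    linarith
  have h2 : ∀ m ≤ G.L, form (G.FL 0) (permOf (g 0)) + U 0 (permOf (g 0)) ≤
      ∑ t ∈ Finset.range m, (G.PP g t + G.TT g t) +
        (form (G.FL m) (permOf (g m)) + U m (permOf (g m))) := by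
    intro m
    induction m with
    | zero => intro _; simp
    | succ m ih =>
      intro hm
      have e1 := ih (by omega)
      have e2 := h1 m (by omega)
      rw [Finset.sum_range_succ]
      linarith
  have h3 := h2 G.L le_rfl
  have h4 := hL (permOf (g G.L))
  have h5 : form (G.FL G.L) (permOf (g G.L)) = G.TT g G.L := by
    rw [TT_eq hG hg]
    have hQ : G.Qs G.L = 0 := by
      unfold Qs
      apply Finset.sum_eq_zero; intro c _
      rw [if_neg (not_lt.mpr (hG.h_le c))]
    congr 1
    funext a b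
    unfold FL
    rw [hQ]
    ring
  have h6 := hC (permOf (g 0))
  rw [form_add, form_mul] at h6
  have hid : Function.Injective (fun i : Fin k => ((i : ℕ) : ℤ)) := by
    intro i j h
    simp only [Nat.cast_inj] at h
    exact Fin.ext h
  have h7 := term_sum G.ww G.ww_comm (hg 0) hid
  have h8 : (fun a b : Fin k => if ((b : ℕ) : ℤ) < ((a : ℕ) : ℤ) then G.ww a b else 0) =
      fun a b => if b < a then G.ww a b else 0 := by
    funext a b
    simp only [Nat.cast_lt, Fin.lt_def]
  rw [h8] at h7
  have h9 : form (fun a b => G.FL 0 a b) (permOf (g 0)) = form (G.FL 0) (permOf (g 0)) := rfl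
  rw [h7]
  linarith

end Gadget

end Pool.Agent.Lib.MP_b3fcb1_lc
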