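import Pool.Agent.Lib.MP_b3fcb1_lc.CertOf

/-!
A checker for local certificates that the kernel can run: tables of natural numbers are lists of
rows, and the 252 entries of a row are packed in one natural number, with fields of 48 bits.
-/

namespace Pool.Agent.Lib.MP_b3fcb1_lc

/-- entry `i` of the row `T` -/
def lk (T i : ℕ) : ℕ := Nat.land (Nat.shiftRight T (Nat.mul 48 i)) 281474976710655

/-- row `i` of a list of rows -/
def nth : List ℕ → ℕ → ℕ
  | [], _ => 0
  | a :: _, 0 => a
  | _ :: l, n + 1 => nth l n

/-- entry `i` of the table `T` -/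
def look (T : List ℕ) (i : ℕ) : ℕ := lk (nth T (Nat.div i 252)) (Nat.mod i 252)

/-- entry of the packed table `T` for the pair `a`, `b` -/
def look2 (T a b : ℕ) : ℕ := lk T (Nat.add (Nat.mul 8 a) b)

/-- sum of the entries for `a` and the elements of the list -/
def rowSum (T a : ℕ) : List ℕ → ℕ
  | [] => 0
  | b :: l => Nat.add (look2 T a b) (rowSum T a l)

/-- sum of the entries for all the pairs, the first one ahead of the second one -/
def lsum (T : ℕ) : List ℕ → ℕ
  | [] => 0
  | a :: l => Nat.add (rowSum T a l) (lsum T l)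

/-- compare with all the lists obtained by one exchange; the list is reversed -/
def adjOk (T : List ℕ) (E C u e : ℕ) : List ℕ → Bool
  | [] => true
  | [_] => true
  | b :: a :: l => and (Nat.ble u (Nat.add (look T (Nat.sub (Nat.add e (look2 E b a))
      (look2 E a b))) (look2 C a b))) (adjOk T E C u e (a :: l))

/-- the inequalities at a list -/
def leafOk (T T' : List ℕ) (E C : ℕ) (pre : List ℕ) (e s : ℕ) : Bool :=
  and (Nat.ble (look T e) (Nat.add s (look T' e))) (adjOk T E C (look T e) e pre)

/-- the initial inequality at a list -/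
def leafOk0 (T : List ℕ) (K : ℕ) (_pre : List ℕ) (e s : ℕ) : Bool :=
  Nat.ble K (Nat.add s (look T e))

/-- for every element of the list and the rest of the list -/
def each (f : ℕ → List ℕ → Bool) : List ℕ → List ℕ → Bool
  | _, [] => true
  | L, a :: R => and (f a (L.reverseAux R)) (each f (a :: L) R)

/-- run through all the orders of the elements of a list -/
def walk (leaf : List ℕ → ℕ → ℕ → Bool) (E F : ℕ) : ℕ → List ℕ → List ℕ → ℕ → ℕ → Bool
  | 0, pre, _, e, s => leaf pre e s
  | n + 1, pre, rem, e, s => each (fun a r =>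
      walk leaf E F n (a :: pre) r (Nat.add e (rowSum E a r)) (Nat.add s (rowSum F a r))) [] rem

lemma each_spec (f : ℕ → List ℕ → Bool) (R : List ℕ) : ∀ L, each f L R = true →
    ∀ a ∈ R, ∃ r, (a :: r).Perm (L.reverseAux R) ∧ f a r = true := by
  induction R with
  | nil => intro L _ a ha; simp at ha
  | cons b R ih =>
    intro L h a ha
    unfold each at h
    rw [Bool.and_eq_true] at h
    rcases List.mem_cons.mp ha with h1 | h1
    · subst h1
      refine ⟨L.reverseAux R, ?_, h.1⟩
      rw [List.reverseAux_eq, List.reverseAux_eq]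
      exact List.perm_middle.symm
    · obtain ⟨r, h2, h3⟩ := ih (b :: L) h.2 a h1
      exact ⟨r, h2, h3⟩

lemma rowSum_perm (T a : ℕ) {l l' : List ℕ} (h : l.Perm l') : rowSum T a l = rowSum T a l' := by
  have h1 : ∀ l : List ℕ, rowSum T a l = (l.map (look2 T a)).sum := by
    intro l
    induction l with
    | nil => rfl
    | cons b l ih => simp only [rowSum, List.map_cons, List.sum_cons, ih]; rfl
  rw [h1, h1]
  exact (h.map _).sum_eq

lemma walk_spec (leaf : List ℕ → ℕ → ℕ → Bool) (E F : ℕ) (n : ℕ) : ∀ (pre rem : List ℕ) (e s : ℕ),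
    walk leaf E F n pre rem e s = true → ∀ l : List ℕ, l.Perm rem → l.length = n →
      leaf (l.reverse ++ pre) (e + lsum E l) (s + lsum F l) = true := by
  induction n with
  | zero =>
    intro pre rem e s h l _ hl
    have : l = [] := List.eq_nil_of_length_eq_zero hl
    subst this
    simpa [lsum, walk] using h
  | succ n ih =>
    intro pre rem e s h l hp hl
    cases l with
    | nil => simp at hl
    | cons a l =>
      unfold walk at h
      have ha : a ∈ rem := hp.subset (List.mem_cons_self)
      obtain ⟨r, h1, h2⟩ := each_spec _ _ _ h a ha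
      have h3 : l.Perm r := List.Perm.cons_inv (hp.trans h1.symm)
      have h4 := ih _ _ _ _ h2 l h3 (by simpa using hl)
      rw [List.reverse_cons, List.append_assoc, List.singleton_append]
      have e1 : Nat.add e (rowSum E a r) + lsum E l = e + lsum E (a :: l) := by
        show e + rowSum E a r + lsum E l = e + (rowSum E a l + lsum E l)
        rw [rowSum_perm E a h3]; ring
      have e2 : Nat.add s (rowSum F a r) + lsum F l = s + lsum F (a :: l) := by
        show s + rowSum F a r + lsum F l = s + (rowSum F a l + lsum F l)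
        rw [rowSum_perm F a h3]; ring
      rw [e1, e2] at h4
      exact h4

lemma adjOk_spec (T : List ℕ) (E C u e : ℕ) (a b : ℕ) (Y X : List ℕ) :
    adjOk T E C u e (X ++ b :: a :: Y) = true →
      u ≤ look T (e + look2 E b a - look2 E a b) + look2 C a b := by
  induction X with
  | nil =>
    intro h
    simp only [List.nil_append, adjOk, Bool.and_eq_true] at h
    exact Nat.le_of_ble_eq_true h.1
  | cons x X ih =>
    intro h
    apply ih
    cases X with
    | nil => simp only [List.cons_append, List.nil_append, adjOk, Bool.and_eq_true] at h ⊢; exact h.2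
    | cons y X => simp only [List.cons_append, adjOk, Bool.and_eq_true] at h ⊢; exact h.2

variable {k : ℕ}

/-- the items of a list, from the front to the back -/
def ord (z : ItemList k) : List ℕ := List.ofFn (fun i => ((z.symm i : Fin k) : ℕ))

lemma ord_length (z : ItemList k) : (ord z).length = k := by simp [ord]

lemma ord_nodup (z : ItemList k) : (ord z).Nodup := by
  unfold ord
  rw [List.nodup_ofFn]
  intro i j h
  exact z.symm.injective (Fin.ext h)

lemma mem_ord (z : ItemList k) (x : ℕ) : x ∈ ord z ↔ x < k := by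
  unfold ord
  rw [List.mem_ofFn]
  constructor
  · rintro ⟨i, rfl⟩
    exact (z.symm i).isLt
  · intro h
    exact ⟨z ⟨x, h⟩, by simp⟩

lemma ord_perm (z : ItemList k) : (ord z).Perm (List.range k) := by
  rw [List.perm_ext_iff_of_nodup (ord_nodup z) List.nodup_range]
  intro x
  rw [mem_ord, List.mem_range]

lemma rowSum_ofFn (T a : ℕ) : ∀ (n : ℕ) (f : Fin n → ℕ),
    rowSum T a (List.ofFn f) = ∑ j, look2 T a (f j) := by
  intro n
  induction n with
  | zero => intro f; simp [rowSum]
  | succ n ih =>
    intro f
    rw [List.ofFn_succ, Fin.sum_univ_succ, ← ih (fun j => f j.succ)]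
    rfl

lemma lsum_ofFn (T : ℕ) : ∀ (n : ℕ) (f : Fin n → ℕ),
    lsum T (List.ofFn f) = ∑ i, ∑ j, if i < j then look2 T (f i) (f j) else 0 := by
  intro n
  induction n with
  | zero => intro f; simp [lsum]
  | succ n ih =>
    intro f
    rw [List.ofFn_succ]
    show rowSum T (f 0) (List.ofFn fun j => f j.succ) + lsum T (List.ofFn fun j => f j.succ) = _
    rw [rowSum_ofFn, ih (fun j => f j.succ), Fin.sum_univ_succ]
    congr 1
    · rw [Fin.sum_univ_succ]
      simp [Fin.succ_pos]
    · apply Finset.sum_congr rfl; intro i _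
      rw [Fin.sum_univ_succ]
      simp [Fin.succ_lt_succ_iff]

lemma lsum_ord (T : ℕ) (z : ItemList k) :
    (lsum T (ord z) : ℤ) = form (fun a b => (look2 T a b : ℤ)) z := by
  unfold ord form
  rw [lsum_ofFn, Nat.cast_sum, ← Equiv.sum_comp z]
  apply Finset.sum_congr rfl; intro a _
  rw [Nat.cast_sum, ← Equiv.sum_comp z]
  apply Finset.sum_congr rfl; intro b _
  simp only [Equiv.symm_apply_apply, Nat.cast_ite, Nat.cast_zero]

lemma ord_split (z : ItemList k) {a b : Fin k} (h : (z b : ℕ) = z a + 1) :
    ∃ X Y : List ℕ, ord z = X ++ (a : ℕ) :: (b : ℕ) :: Y := by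
  have hb := (z b).isLt
  have h1 : (z a : ℕ) < (ord z).length := by rw [ord_length]; omega
  have h2 : (z a : ℕ) + 1 < (ord z).length := by rw [ord_length]; omega
  refine ⟨(ord z).take (z a), (ord z).drop (z a + 1 + 1), ?_⟩
  have e1 : (ord z)[(z a : ℕ)] = a := by
    simp [ord]
  have e2 : (ord z)[(z a : ℕ) + 1] = b := by
    have : (⟨(z a : ℕ) + 1, by omega⟩ : Fin k) = z b := Fin.ext h.symm
    simp [ord, this]
  conv_lhs => rw [← List.take_append_drop (z a : ℕ) (ord z)]
  congr 1
  rw [List.drop_eq_getElem_cons h1, e1, List.drop_eq_getElem_cons h2, e2]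

/-- the entry of the table `T` for a list -/
def tabU (E : ℕ) (T : List ℕ) (z : ItemList k) : ℤ := (look T (lsum E (ord z)) : ℤ)

lemma enc_exchange (E : ℕ) (z : ItemList k) {a b : Fin k} (h : (z b : ℕ) = z a + 1) :
    lsum E (ord (exchange (z a : ℕ) z)) = lsum E (ord z) + look2 E b a - look2 E a b := by
  have h1 := form_exchange (fun a b : Fin k => (look2 E a b : ℤ)) z h
  rw [← lsum_ord, ← lsum_ord] at h1
  have h2 : lsum E (ord (exchange (z a : ℕ) z)) + look2 E a b =
      lsum E (ord z) + look2 E b a := by exact_mod_cast h1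
  omega

/-- the inequalities of one level, from the check -/
theorem level_spec {T T' : List ℕ} {E C F : ℕ}
    (h : walk (leafOk T T' E C) E F k [] (List.range k) 0 0 = true) (z : ItemList k) :
    tabU E T z ≤ form (fun a b => (look2 F a b : ℤ)) z + tabU E T' z ∧
    ∀ a b : Fin k, (z b : ℕ) = z a + 1 →
      tabU E T z ≤ tabU E T (exchange (z a : ℕ) z) + (look2 C a b : ℤ) := by
  have h1 := walk_spec _ _ _ _ _ _ _ _ h (ord z) (ord_perm z) (ord_length z)
  rw [zero_add, zero_add, List.append_nil] at h1
  unfold leafOk at h1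
  rw [Bool.and_eq_true] at h1
  obtain ⟨h2, h3⟩ := h1
  constructor
  · have h4 : look T (lsum E (ord z)) ≤ lsum F (ord z) + look T' (lsum E (ord z)) :=
      Nat.le_of_ble_eq_true h2
    unfold tabU
    rw [← lsum_ord]
    exact_mod_cast h4
  · intro a b hab
    obtain ⟨X, Y, hXY⟩ := ord_split z hab
    have h4 : (ord z).reverse = Y.reverse ++ (b : ℕ) :: (a : ℕ) :: X.reverse := by
      rw [hXY]; simp
    rw [h4] at h3
    have h5 := adjOk_spec _ _ _ _ _ _ _ _ _ h3
    unfold tabU
    rw [enc_exchange E z hab]
    exact_mod_cast h5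

/-- the initial inequality, from the check -/
theorem level0_spec {T : List ℕ} {K E F : ℕ}
    (h : walk (leafOk0 T K) E F k [] (List.range k) 0 0 = true) (z : ItemList k) :
    (K : ℤ) ≤ form (fun a b => (look2 F a b : ℤ)) z + tabU E T z := by
  have h1 := walk_spec _ _ _ _ _ _ _ _ h (ord z) (ord_perm z) (ord_length z)
  rw [zero_add, zero_add, List.append_nil] at h1
  unfold leafOk0 at h1
  have h4 : K ≤ lsum F (ord z) + look T (lsum E (ord z)) := Nat.le_of_ble_eq_true h1
  unfold tabU
  rw [← lsum_ord]
  exact_mod_cast h4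

lemma form_congr {F F' : Fin k → Fin k → ℤ} (h : ∀ a b, a ≠ b → F a b = F' a b) (z : ItemList k) :
    form F z = form F' z := by
  unfold form
  apply Finset.sum_congr rfl; intro a _
  apply Finset.sum_congr rfl; intro b _
  by_cases hab : a = b
  · subst hab; simp
  · rw [h a b hab]

end Pool.Agent.Lib.MP_b3fcb1_lc
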