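import Pool.Agent.Lib.MP_b3fcb1_lc.Play

/-!
The potential argument over many cycles.
-/

namespace Pool.Agent.Lib.MP_b3fcb1_lc

variable {n : ℕ}

/-- twice the lower bound for the online cost of the requests `s` -/
def A2 (S : List (Fin n) → Fin n → ℤ) (h s : List (Fin n)) : ℤ :=
  2 * (s.length : ℤ) + ∑ x, ∑ y, (pa S x y h s : ℤ)

/-- twice the cost of an offline strategy -/
def O2 (f : Fin n → ℤ) (L : List (Fin n × (Fin n → ℤ))) : ℤ :=
  2 * (L.length : ℤ) + ∑ x, ∑ y, (pol x y f L : ℤ)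

lemma A2_append (S : List (Fin n) → Fin n → ℤ) (h s s' : List (Fin n)) :
    A2 S h (s ++ s') = A2 S h s + A2 S (s.reverse ++ h) s' := by
  unfold A2
  simp only [pa_append, List.length_append]
  push_cast
  simp only [Finset.sum_add_distrib]
  ring

lemma O2_append (f g : Fin n → ℤ) (L L' : List (Fin n × (Fin n → ℤ))) :
    O2 f (L ++ L') ≤ (2 * (L.length : ℤ) + ∑ x, ∑ y, (po x y f L g : ℤ)) + O2 g L' := by
  unfold O2
  have h1 : ∑ x, ∑ y, (pol x y f (L ++ L') : ℤ) ≤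
      ∑ x, ∑ y, ((po x y f L g : ℤ) + (pol x y g L' : ℤ)) := by
    apply Finset.sum_le_sum; intro x _
    apply Finset.sum_le_sum; intro y _
    exact_mod_cast pol_append x y g L L' f
  simp only [Finset.sum_add_distrib] at h1
  rw [List.length_append]
  push_cast
  linarith

lemma swap_sums (N : ℕ) (w : ℕ → ℤ) (F : Fin n → Fin n → ℕ → Bool → (Fin n → Bool) → ℤ) :
    ∑ x : Fin n, ∑ y : Fin n, ∑ c ∈ Finset.range N, w c * ∑ o : Bool, ∑ β : Fin n → Bool,
      F x y c o β =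
    ∑ c ∈ Finset.range N, w c * ∑ o : Bool, ∑ β : Fin n → Bool,
      ∑ x : Fin n, ∑ y : Fin n, F x y c o β := by
  calc _ = ∑ x : Fin n, ∑ c ∈ Finset.range N, ∑ y : Fin n, w c * ∑ o : Bool,
        ∑ β : Fin n → Bool, F x y c o β := by
          apply Finset.sum_congr rfl; intro x _; exact Finset.sum_comm
      _ = ∑ c ∈ Finset.range N, ∑ x : Fin n, ∑ y : Fin n, w c * ∑ o : Bool,
        ∑ β : Fin n → Bool, F x y c o β := Finset.sum_comm
      _ = _ := by
          apply Finset.sum_congr rfl; intro c _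
          simp only [← Finset.mul_sum]
          congr 1
          calc _ = ∑ x : Fin n, ∑ o : Bool, ∑ y : Fin n,
              ∑ β : Fin n → Bool, F x y c o β := by
                apply Finset.sum_congr rfl; intro x _; exact Finset.sum_comm
            _ = ∑ o : Bool, ∑ x : Fin n, ∑ y : Fin n,
              ∑ β : Fin n → Bool, F x y c o β := Finset.sum_comm
            _ = _ := by
                apply Finset.sum_congr rfl; intro o _
                calc _ = ∑ x : Fin n, ∑ β : Fin n → Bool, ∑ y : Fin n, F x y c o β := by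
                      apply Finset.sum_congr rfl; intro x _; exact Finset.sum_comm
                  _ = ∑ β : Fin n → Bool, ∑ x : Fin n, ∑ y : Fin n, F x y c o β :=
                      Finset.sum_comm
                  _ = _ := rfl

namespace Gadget

variable {k : ℕ} (G : Gadget k)

/-- coefficient of the square of the unit block size in the potential -/
noncomputable def kap (G2 : ℤ) (δ : ℝ) : ℝ :=
  ((2 * G2 - G.Pen : ℤ) : ℝ) / (2 * G.Wt) - δ * G.K2 / G.Wt

/-- gain of one cycle -/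
noncomputable def eps (G2 : ℤ) (δ : ℝ) (n : ℕ) : ℝ :=
  G.kap G2 δ * ((n : ℝ) ^ 2 / (4 * (pre G.w k : ℝ) ^ 2) - n / pre G.w k) - δ * (n : ℝ) ^ 2 -
    (1 + 2 * δ) * ((G.L : ℝ) + 3) * n

variable {G}

lemma mOf_mul_le (t : ℕ) : G.mOf t * pre G.w k ≤ t := Nat.div_mul_le_self _ _

/-- the second moment of the unit block size -/
lemma sum_sq_mOf (hs : 0 < pre G.w k) :
    2 ^ n * ((n : ℝ) ^ 2 / (4 * (pre G.w k : ℝ) ^ 2) - n / pre G.w k) ≤
      ∑ β : Fin n → Bool, (G.mOf (cardB β) : ℝ) ^ 2 := by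
  set s : ℝ := (pre G.w k : ℝ) with hsdef
  have hs' : 0 < s := by rw [hsdef]; exact_mod_cast hs
  have h1 : ∀ β : Fin n → Bool, (n : ℝ) / s * (((cardB β : ℝ) - s) / s) - ((n : ℝ) / (2 * s)) ^ 2 ≤
      (G.mOf (cardB β) : ℝ) ^ 2 := by
    intro β
    have h2 : ((cardB β : ℝ) - s) / s ≤ G.mOf (cardB β) := by
      rw [div_le_iff₀ hs']
      have h3 : cardB β < pre G.w k * (G.mOf (cardB β) + 1) := Nat.lt_mul_div_succ _ hs
      have h4 : (cardB β : ℝ) < s * (G.mOf (cardB β) + 1) := by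
        rw [hsdef]; exact_mod_cast h3
      nlinarith
    have h3 : (0 : ℝ) ≤ (n : ℝ) / s := by positivity
    have h4 := mul_le_mul_of_nonneg_left h2 h3
    have h5 : (n : ℝ) / s * G.mOf (cardB β) - ((n : ℝ) / (2 * s)) ^ 2 ≤
        (G.mOf (cardB β) : ℝ) ^ 2 := by
      have h6 : (n : ℝ) / s = 2 * ((n : ℝ) / (2 * s)) := by field_simp
      rw [h6]
      nlinarith [sq_nonneg ((G.mOf (cardB β) : ℝ) - (n : ℝ) / (2 * s))]
    linarith
  have h2 := Finset.sum_le_sum fun β (_ : β ∈ Finset.univ) => h1 β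
  refine le_trans (le_of_eq ?_) h2
  rw [Finset.sum_sub_distrib, ← Finset.mul_sum, ← Finset.sum_div, Finset.sum_sub_distrib]
  have h3 : ∑ β : Fin n → Bool, (cardB β : ℝ) = (n : ℝ) * 2 ^ n / 2 := by
    have := sum_cardB (n := n)
    have h4 : (2 : ℝ) * ∑ β : Fin n → Bool, (cardB β : ℝ) = (n : ℝ) * 2 ^ n := by
      exact_mod_cast this
    linarith
  rw [h3]
  simp only [Finset.sum_const, Finset.card_univ, nsmul_eq_mul, Fintype.card_fun,
    Fintype.card_bool, Fintype.card_fin]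
  push_cast
  field_simp
  ring

/-- the main inequality for one cycle -/
theorem one_cycle (hG : G.Ok) (hw : ∀ i : Fin k, 0 < G.w i) (hW : 0 < G.Wt)
    (hs : 0 < pre G.w k) {G2 : ℤ} (hC : G.Cert G2) {δ : ℝ} (hδ : 0 ≤ δ) (hκ : 0 ≤ G.kap G2 δ)
    {S : List (Fin n) → Fin n → ℤ} (hS : ∀ h, Function.Injective (S h))
    (ℓ : ItemList n) (t : ℕ) (ht : t ≤ n) (h : List (Fin n)) :
    G.Dn n * ((Phi (G.mOf t * pre G.w k) (S h) ℓ : ℝ) + G.kap G2 δ * (G.mOf t : ℝ) ^ 2 +
      G.eps G2 δ n) ≤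
    ∑ c ∈ Finset.range G.N, (G.wt c : ℝ) * ∑ o : Bool, ∑ β : Fin n → Bool,
      (((A2 S h ((lift ℓ (G.cycO (G.mOf t) c o β)).map Prod.fst) : ℝ) -
        (3 / 2 + δ) * ((2 * ((lift ℓ (G.cycO (G.mOf t) c o β)).length : ℤ) +
          ∑ x, ∑ y, (po x y (key ℓ) (lift ℓ (G.cycO (G.mOf t) c o β))
            (key (G.nxt ℓ (G.mOf t) c o β)) : ℤ) : ℤ) : ℝ)) +
      ((Phi (G.mOf (cardB β) * pre G.w k)
        (S (((lift ℓ (G.cycO (G.mOf t) c o β)).map Prod.fst).reverse ++ h))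
        (G.nxt ℓ (G.mOf t) c o β) : ℝ) + G.kap G2 δ * (G.mOf (cardB β) : ℝ) ^ 2)) := by
  set m := G.mOf t with hm
  set κ := G.kap G2 δ with hκdef
  have hmn : m * pre G.w k ≤ n := (mOf_mul_le t).trans ht
  set S' := relab S ℓ h with hS'
  have hS'inj : ∀ g, Function.Injective (S' g) := relab_inj hS ℓ h
  -- rank-level quantities
  set PA : ℕ → Bool → (Fin n → Bool) → ℤ := fun c o β =>
    ∑ x, ∑ y, (pa S' x y [] (G.cycR m c o β) : ℤ) with hPA
  set PO : ℕ → Bool → (Fin n → Bool) → ℤ := fun c o β =>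
    ∑ x, ∑ y, (po x y (idk n) (G.cycO m c o β) (G.cycE m c o β) : ℤ) with hPO
  set PE : ℕ → Bool → (Fin n → Bool) → ℤ := fun c o β =>
    ∑ x, ∑ y, phi (β x && β y) (S' (G.cycR m c o β).reverse) (G.cycE m c o β) x y with hPE
  have hPS : Phi (m * pre G.w k) (S h) ℓ =
      ∑ x : Fin n, ∑ y : Fin n, phi (G.sg m x y) (S' []) (idk n) x y := by
    rw [Phi_relab]
    apply Finset.sum_congr rfl; intro x _
    apply Finset.sum_congr rfl; intro y _
    have e1 : G.sg m x y = (decide ((x : ℕ) < m * pre G.w k) &&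
        decide ((y : ℕ) < m * pre G.w k)) := by
      unfold sg bl
      simp only [blk_lt_iff]
    rw [e1]
    rfl
  -- each term
  have hterm : ∀ c o β, -(1 + 2 * δ) * ((G.L : ℝ) + 3) * n + ((PA c o β : ℝ) - 3 / 2 * PO c o β -
      δ * PO c o β + PE c o β) + κ * (G.mOf (cardB β) : ℝ) ^ 2 ≤
      (((A2 S h ((lift ℓ (G.cycO m c o β)).map Prod.fst) : ℝ) -
        (3 / 2 + δ) * ((2 * ((lift ℓ (G.cycO m c o β)).length : ℤ) +
          ∑ x, ∑ y, (po x y (key ℓ) (lift ℓ (G.cycO m c o β))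
            (key (G.nxt ℓ m c o β)) : ℤ) : ℤ) : ℝ)) +
      ((Phi (G.mOf (cardB β) * pre G.w k)
        (S (((lift ℓ (G.cycO m c o β)).map Prod.fst).reverse ++ h))
        (G.nxt ℓ m c o β) : ℝ) + κ * (G.mOf (cardB β) : ℝ) ^ 2)) := by
    intro c o β
    have e1 : (lift ℓ (G.cycO m c o β)).map Prod.fst = (G.cycR m c o β).map ℓ.symm := by
      rw [lift_fst, cycO_fst]
    have e2 : A2 S h ((G.cycR m c o β).map ℓ.symm) =
        2 * ((G.cycR m c o β).length : ℤ) + PA c o β := by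
      unfold A2
      rw [List.length_map]
      congr 1
      have := sum_pa_relab S ℓ h (G.cycR m c o β)
      simp only [hPA]
      exact_mod_cast this
    have e3 : (lift ℓ (G.cycO m c o β)).length = (G.cycR m c o β).length := by
      rw [lift_length, ← cycO_fst, List.length_map]
    have e4 : ∑ x, ∑ y, (po x y (key ℓ) (lift ℓ (G.cycO m c o β)) (key (G.nxt ℓ m c o β)) : ℤ) =
        PO c o β := by
      have h1 := sum_po_lift ℓ (permOf (G.cycE m c o β)) (G.cycO m c o β)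
      simp only [hPO]
      have h2 : ∀ x y, po x y (idk n) (G.cycO m c o β) (key (permOf (G.cycE m c o β))) =
          po x y (idk n) (G.cycO m c o β) (G.cycE m c o β) := fun x y =>
        po_congr_end x y (permOf_lt (cycE_inj m hG c o β) x y) _ _
      simp only [h2] at h1
      unfold nxt
      exact_mod_cast h1
    have e5 : (S ((((G.cycR m c o β).map ℓ.symm)).reverse ++ h)) ∘ ℓ.symm =
        S' (G.cycR m c o β).reverse := by
      rw [hS']; unfold relab
      funext r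
      rw [Function.comp_apply, List.map_reverse]
    have e6 : PE c o β ≤ Phi (G.mOf (cardB β) * pre G.w k)
        (S ((((G.cycR m c o β).map ℓ.symm)).reverse ++ h)) (G.nxt ℓ m c o β) := by
      unfold nxt
      rw [Phi_trans, e5]
      unfold Phi
      simp only [hPE]
      apply Finset.sum_le_sum; intro x _
      apply Finset.sum_le_sum; intro y _
      have h1 : ∀ z : Fin n, ((permOf (G.cycE m c o β) z : ℕ) <
          G.mOf (cardB β) * pre G.w k) → β z = true := by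
        intro z hz
        have h2 := mOf_mul_le (G := G) (cardB β)
        exact top_tripled (kR_inj m hG c o) (kS_inj m hG c o) (kR_nonneg m c o)
          (kS_nonneg m c o) β z (by
            have h3 : G.cycE m c o β = noiseEnd (G.kR m n c o) (G.kS m n c o) β := rfl
            rw [h3] at hz
            omega)
      have h2 : phi (β x && β y) (S' (G.cycR m c o β).reverse) (G.cycE m c o β) x y =
          phi (β x && β y) (S' (G.cycR m c o β).reverse)
            (key (permOf (G.cycE m c o β))) x y := by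
        unfold phi
        rw [fl_congr_right (permOf_lt (cycE_inj m hG c o β) x y)]
      rw [h2]
      apply phi_mono
      intro h3
      simp only [Bool.and_eq_true, decide_eq_true_eq] at h3 ⊢
      exact ⟨h1 x h3.1, h1 y h3.2⟩
    have e7 := cycR_length m hG c o β
    have e7' : ((G.cycR m c o β).length : ℝ) ≤ ((G.L : ℝ) + 3) * n := by exact_mod_cast e7
    have e6' : (PE c o β : ℝ) ≤ (Phi (G.mOf (cardB β) * pre G.w k)
        (S ((((G.cycR m c o β).map ℓ.symm)).reverse ++ h)) (G.nxt ℓ m c o β) : ℝ) := by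
      exact_mod_cast e6
    rw [e1, e2, e3, e4]
    push_cast
    have h1 : (1 + 2 * δ) * ((G.cycR m c o β).length : ℝ) ≤
        (1 + 2 * δ) * (((G.L : ℝ) + 3) * n) := mul_le_mul_of_nonneg_left e7' (by linarith)
    linarith
  -- sum over the outcomes
  have hsum : ∑ c ∈ Finset.range G.N, (G.wt c : ℝ) * ∑ o : Bool, ∑ β : Fin n → Bool,
      (-(1 + 2 * δ) * ((G.L : ℝ) + 3) * n + ((PA c o β : ℝ) - 3 / 2 * PO c o β -
      δ * PO c o β + PE c o β) + κ * (G.mOf (cardB β) : ℝ) ^ 2) ≤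
      ∑ c ∈ Finset.range G.N, (G.wt c : ℝ) * ∑ o : Bool, ∑ β : Fin n → Bool,
      (((A2 S h ((lift ℓ (G.cycO m c o β)).map Prod.fst) : ℝ) -
        (3 / 2 + δ) * ((2 * ((lift ℓ (G.cycO m c o β)).length : ℤ) +
          ∑ x, ∑ y, (po x y (key ℓ) (lift ℓ (G.cycO m c o β))
            (key (G.nxt ℓ m c o β)) : ℤ) : ℤ) : ℝ)) +
      ((Phi (G.mOf (cardB β) * pre G.w k)
        (S (((lift ℓ (G.cycO m c o β)).map Prod.fst).reverse ++ h))
        (G.nxt ℓ m c o β) : ℝ) + κ * (G.mOf (cardB β) : ℝ) ^ 2)) := by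
    apply Finset.sum_le_sum; intro c _
    apply mul_le_mul_of_nonneg_left _ (by positivity)
    apply Finset.sum_le_sum; intro o _
    apply Finset.sum_le_sum; intro β _
    exact hterm c o β
  refine le_trans ?_ hsum
  -- the excess
  have hEX := EX_total m hG hS'inj hmn hw hC
  have hOP := OP_total (n := n) m hG hmn
  have hEX' : ∑ x, ∑ y, G.EX m S' x y = ∑ c ∈ Finset.range G.N, (G.wt c : ℤ) * ∑ o : Bool,
      ∑ β : Fin n → Bool, (4 * (PA c o β + PE c o β - Phi (m * pre G.w k) (S h) ℓ) -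
        6 * PO c o β) := by
    unfold EX
    rw [swap_sums G.N (fun c => (G.wt c : ℤ)) (fun x y c o β => G.ex m S' x y c o β)]
    apply Finset.sum_congr rfl; intro c _
    congr 1
    apply Finset.sum_congr rfl; intro o _
    apply Finset.sum_congr rfl; intro β _
    rw [hPS]
    simp only [hPA, hPE, hPO, ex]
    simp only [Finset.sum_sub_distrib, ← Finset.mul_sum, Finset.sum_add_distrib]
  have hOP' : ∑ x, ∑ y, G.OP m (n := n) x y = ∑ c ∈ Finset.range G.N, (G.wt c : ℤ) * ∑ o : Bool,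
      ∑ β : Fin n → Bool, 2 * PO c o β := by
    unfold OP
    rw [swap_sums G.N (fun c => (G.wt c : ℤ)) (fun x y c o β =>
      2 * (po x y (idk n) (G.cycO m c o β) (G.cycE m c o β) : ℤ))]
    apply Finset.sum_congr rfl; intro c _
    congr 1
    apply Finset.sum_congr rfl; intro o _
    apply Finset.sum_congr rfl; intro β _
    simp only [hPO, ← Finset.mul_sum]
  rw [hEX'] at hEX
  rw [hOP'] at hOP
  set F := Phi (m * pre G.w k) (S h) ℓ with hF
  have hEXr : (2 : ℝ) ^ n * (m : ℝ) ^ 2 * (8 * G2 - 4 * G.Pen) ≤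
      ∑ c ∈ Finset.range G.N, (G.wt c : ℝ) * ∑ o : Bool, ∑ β : Fin n → Bool,
        (4 * ((PA c o β : ℝ) + PE c o β - F) - 6 * PO c o β) := by exact_mod_cast hEX
  have hOPr : ∑ c ∈ Finset.range G.N, (G.wt c : ℝ) * ∑ o : Bool, ∑ β : Fin n → Bool,
      (2 * (PO c o β : ℝ)) ≤
      (2 : ℝ) ^ n * 4 * (G.Wt * (n : ℝ) ^ 2 + G.K2 * (m : ℝ) ^ 2) := by exact_mod_cast hOP
  have hsq := sum_sq_mOf (G := G) (n := n) hs
  have hWr : (0 : ℝ) < G.Wt := by exact_mod_cast hW
  -- split the sum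
  have hsplit : ∑ c ∈ Finset.range G.N, (G.wt c : ℝ) * ∑ o : Bool, ∑ β : Fin n → Bool,
      (-(1 + 2 * δ) * ((G.L : ℝ) + 3) * n + ((PA c o β : ℝ) - 3 / 2 * PO c o β -
      δ * PO c o β + PE c o β) + κ * (G.mOf (cardB β) : ℝ) ^ 2) =
      (-(1 + 2 * δ) * ((G.L : ℝ) + 3) * n + F) * G.Dn n +
      1 / 4 * (∑ c ∈ Finset.range G.N, (G.wt c : ℝ) * ∑ o : Bool, ∑ β : Fin n → Bool,
        (4 * ((PA c o β : ℝ) + PE c o β - F) - 6 * PO c o β)) -
      δ / 2 * (∑ c ∈ Finset.range G.N, (G.wt c : ℝ) * ∑ o : Bool, ∑ β : Fin n → Bool,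
      (2 * (PO c o β : ℝ))) +
      κ * ((G.Wt : ℝ) * 2 * ∑ β : Fin n → Bool, (G.mOf (cardB β) : ℝ) ^ 2) := by
    have hWt : (G.Wt : ℝ) = ∑ c ∈ Finset.range G.N, (G.wt c : ℝ) := by
      unfold Wt; push_cast; rfl
    rw [← sum_norm, hWt, Finset.sum_mul, Finset.sum_mul]
    rw [Finset.mul_sum, Finset.mul_sum, Finset.mul_sum, Finset.mul_sum]
    rw [← Finset.sum_add_distrib, ← Finset.sum_sub_distrib, ← Finset.sum_add_distrib]
    apply Finset.sum_congr rfl
    intro c _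
    have e1 : ∀ o : Bool, ∑ β : Fin n → Bool,
      (-(1 + 2 * δ) * ((G.L : ℝ) + 3) * n + ((PA c o β : ℝ) - 3 / 2 * PO c o β -
      δ * PO c o β + PE c o β) + κ * (G.mOf (cardB β) : ℝ) ^ 2) =
      (-(1 + 2 * δ) * ((G.L : ℝ) + 3) * n + F) * (∑ _β : Fin n → Bool, (1 : ℝ)) +
      1 / 4 * (∑ β : Fin n → Bool, (4 * ((PA c o β : ℝ) + PE c o β - F) - 6 * PO c o β)) -
      δ / 2 * (∑ β : Fin n → Bool, (2 * (PO c o β : ℝ))) +
      κ * (∑ β : Fin n → Bool, (G.mOf (cardB β) : ℝ) ^ 2) := by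
      intro o
      rw [Finset.mul_sum, Finset.mul_sum, Finset.mul_sum, Finset.mul_sum]
      rw [← Finset.sum_add_distrib, ← Finset.sum_sub_distrib, ← Finset.sum_add_distrib]
      apply Finset.sum_congr rfl
      intro β _
      ring
    simp only [Fintype.sum_bool, e1]
    ring
  rw [hsplit]
  have hκ' : κ = ((2 * (G2 : ℝ) - G.Pen)) / (2 * G.Wt) - δ * G.K2 / G.Wt := by
    rw [hκdef]; unfold kap; push_cast; rfl
  have hDn : G.Dn n = (G.Wt : ℝ) * 2 * 2 ^ n := rfl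
  have heps : G.eps G2 δ n = κ * ((n : ℝ) ^ 2 / (4 * (pre G.w k : ℝ) ^ 2) - n / pre G.w k) -
    δ * (n : ℝ) ^ 2 - (1 + 2 * δ) * ((G.L : ℝ) + 3) * n := rfl
  have t1 : κ * ((G.Wt : ℝ) * 2 * (2 ^ n * ((n : ℝ) ^ 2 / (4 * (pre G.w k : ℝ) ^ 2) -
      n / pre G.w k))) ≤
      κ * ((G.Wt : ℝ) * 2 * ∑ β : Fin n → Bool, (G.mOf (cardB β) : ℝ) ^ 2) := by
    apply mul_le_mul_of_nonneg_left _ hκ
    apply mul_le_mul_of_nonneg_left hsq (by positivity)
  have t2 : δ / 2 * (∑ c ∈ Finset.range G.N, (G.wt c : ℝ) * ∑ o : Bool, ∑ β : Fin n → Bool,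
      (2 * (PO c o β : ℝ))) ≤ δ / 2 *
      ((2 : ℝ) ^ n * 4 * (G.Wt * (n : ℝ) ^ 2 + G.K2 * (m : ℝ) ^ 2)) :=
    mul_le_mul_of_nonneg_left hOPr (by positivity)
  have t3 : G.Dn n * (κ * (m : ℝ) ^ 2) = 1 / 4 * ((2 : ℝ) ^ n * (m : ℝ) ^ 2 *
      (8 * G2 - 4 * G.Pen)) - δ / 2 * ((2 : ℝ) ^ n * 4 * (G.K2 * (m : ℝ) ^ 2)) := by
    rw [hκ', hDn]
    field_simp
    ring
  rw [heps]
  rw [hDn] at t3 ⊢
  nlinarith [t1, t2, t3, hEXr]

end Gadget

end Pool.Agent.Lib.MP_b3fcb1_lc
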