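import Pool.Agent.Lib.MP_b3fcb1_lc.Gadget

/-!
The excess of the online cost over 3/2 times the offline cost, pair by pair.
-/

namespace Pool.Agent.Lib.MP_b3fcb1_lc

/-- the list of a cycle start, in rank labels -/
def idk (n : ℕ) : Fin n → ℤ := fun r => ((r : ℕ) : ℤ)

lemma fl_congr2 {ι κ : Type*} {f g : ι → ℤ} {f' g' : κ → ℤ} {x y : ι} {x' y' : κ}
    (h1 : f x < f y ↔ f' x' < f' y') (h2 : g x < g y ↔ g' x' < g' y') :
    fl f g x y = fl f' g' x' y' := by
  unfold fl; simp only [h1, h2]

lemma idk_inj (n : ℕ) : Function.Injective (idk n) := by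
  intro x y h
  unfold idk at h
  exact Fin.ext (by exact_mod_cast h)

namespace Gadget

variable {k : ℕ} {G : Gadget k} {n : ℕ} (m : ℕ)

variable (G) in
/-- sign of the potential of a pair at the start of the cycle -/
def sg (x y : Fin n) : Bool := decide (G.bl m x < k) && decide (G.bl m y < k)

variable (G) in
/-- four times the excess of the pair, for one outcome -/
def ex (S : List (Fin n) → Fin n → ℤ) (x y : Fin n) (c : ℕ) (o : Bool) (β : Fin n → Bool) : ℤ :=
  4 * ((pa S x y [] (G.cycR m c o β) : ℤ) +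
    phi (β x && β y) (S (G.cycR m c o β).reverse) (G.cycE m c o β) x y -
    phi (G.sg m x y) (S []) (idk n) x y) -
  6 * (po x y (idk n) (G.cycO m c o β) (G.cycE m c o β) : ℤ)

lemma bl_mono {x y : Fin n} (h : x ≤ y) : G.bl m x ≤ G.bl m y := blk_mono h

lemma bl_le (x : Fin n) : G.bl m x ≤ k := blk_le _

lemma rv_zero (o : Bool) (b : ℕ) : G.rv o 0 b = false := by simp [rv, cnt]

lemma cnt_k (t : ℕ) : G.cnt t k = 0 := by
  unfold cnt
  apply Finset.sum_eq_zero
  intro s _
  rw [if_neg]
  exact (G.path s).isLt.ne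

lemma rv_k (o : Bool) (t : ℕ) : G.rv o t k = false := by
  unfold rv; rw [cnt_k]; simp

variable (hG : G.Ok)

include hG

lemma stI_zero (c : ℕ) (o : Bool) (x y : Fin n) :
    G.stI m n c o 0 x < G.stI m n c o 0 y ↔ idk n x < idk n y := by
  unfold stI idk
  by_cases he : G.bl m x = G.bl m y
  · rw [bkey_lt_eq he]
    unfold gint
    rw [rv_zero, rv_zero]
    simp
  · rw [bkey_lt_ne (hG.q_inj c 0) (gint_lt _ _ _) (gint_lt _ _ _) he, hG.q_zero, hG.q_zero]
    rw [Nat.cast_lt, Nat.cast_lt]
    constructor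
    · intro h
      by_contra hc
      have : G.bl m y ≤ G.bl m x := bl_mono m (not_lt.mp hc)
      omega
    · intro h
      have : G.bl m x ≤ G.bl m y := bl_mono m h.le
      omega

/-- the cost of a cycle for a pair, in terms of the passes only -/
lemma co_bound {S : List (Fin n) → Fin n → ℤ} (hS : ∀ h, Function.Injective (S h))
    (c : ℕ) (o : Bool) {x y : Fin n} (hxy : x ≠ y) :
    2 ^ n * (4 * (pa S x y [] (G.phR m n (G.h c)) : ℤ) +
      4 * (fl (S (G.phR m n (G.h c)).reverse) (G.kR m n c o) x y : ℤ) -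
      4 * (fl (G.kR m n c o) (G.kS m n c o) x y : ℤ) -
      4 * phi (G.sg m x y) (S []) (idk n) x y -
      6 * (po x y (G.stI m n c o 0) (G.phO m n c o (G.h c)) (G.kS m n c o) : ℤ)) ≤
    ∑ β : Fin n → Bool, G.ex m S x y c o β := by
  have h1 := noise_pa hS (kR_inj m hG c o) (kS_inj m hG c o) (kR_nonneg m c o)
    (kS_nonneg m c o) hxy (G.phR m n (G.h c)).reverse
  have h2 := noise_po (kR_inj m hG c o) (kS_inj m hG c o) (kR_nonneg m c o)
    (kS_nonneg m c o) hxy
  set P := pa S x y [] (G.phR m n (G.h c)) with hP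
  set Q := po x y (G.stI m n c o 0) (G.phO m n c o (G.h c)) (G.kS m n c o) with hQ
  set F := phi (G.sg m x y) (S []) (idk n) x y with hF
  have h3 : ∀ β : Fin n → Bool,
      4 * ((pa S x y (G.phR m n (G.h c)).reverse (noiseReq (G.kR m n c o) β) : ℤ) +
        phi (β x && β y) (S ((noiseReq (G.kR m n c o) β).reverse ++
          (G.phR m n (G.h c)).reverse)) (noiseEnd (G.kR m n c o) (G.kS m n c o) β) x y) -
      3 * (2 * (po x y (G.kS m n c o) (noiseO (G.kR m n c o) (G.kS m n c o) β)
          (noiseEnd (G.kR m n c o) (G.kS m n c o) β) : ℤ)) + (4 * P - 6 * Q - 4 * F) ≤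
      G.ex m S x y c o β := by
    intro β
    unfold ex
    have e1 : pa S x y [] (G.cycR m c o β) = P +
        pa S x y (G.phR m n (G.h c)).reverse (noiseReq (G.kR m n c o) β) := by
      unfold cycR
      rw [pa_append, List.append_nil]
    have e2 : (G.cycR m c o β).reverse = (noiseReq (G.kR m n c o) β).reverse ++
          (G.phR m n (G.h c)).reverse := by
      unfold cycR; rw [List.reverse_append]
    have e3 : po x y (idk n) (G.cycO m c o β) (G.cycE m c o β) ≤ Q +
        po x y (G.kS m n c o) (noiseO (G.kR m n c o) (G.kS m n c o) β)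
          (noiseEnd (G.kR m n c o) (G.kS m n c o) β) := by
      have a1 := po_start x y (idk n) (G.stI m n c o 0) (G.cycO m c o β) (G.cycE m c o β)
      have a2 : fl (idk n) (G.stI m n c o 0) x y = 0 := by
        unfold fl; rw [if_pos (stI_zero m hG c o x y).symm]
      have a3 := po_append x y (G.kS m n c o) (G.cycE m c o β) (G.phO m n c o (G.h c))
        (noiseO (G.kR m n c o) (G.kS m n c o) β) (G.stI m n c o 0)
      unfold cycO cycE at *
      omega
    rw [e1, e2]
    unfold cycE at *
    push_cast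
    have e3' : (po x y (idk n) (G.cycO m c o β) (noiseEnd (G.kR m n c o) (G.kS m n c o) β) : ℤ) ≤
      Q + po x y (G.kS m n c o) (noiseO (G.kR m n c o) (G.kS m n c o) β)
          (noiseEnd (G.kR m n c o) (G.kS m n c o) β) := by exact_mod_cast e3
    linarith
  have h4 := Finset.sum_le_sum fun β (_ : β ∈ Finset.univ) => h3 β
  rw [Finset.sum_add_distrib, Finset.sum_sub_distrib, ← Finset.mul_sum, ← Finset.mul_sum,
    Finset.sum_const, Finset.card_univ, nsmul_eq_mul, card_bits] at h4
  refine le_trans ?_ h4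
  nlinarith [h1, h2]

omit hG in
lemma fl_le_phR {S : List (Fin n) → Fin n → ℤ} (hS : ∀ h, Function.Injective (S h)) (t : ℕ)
    (x y : Fin n) : fl (S []) (S (G.phR m n t).reverse) x y ≤ pa S x y [] (G.phR m n t) := by
  have := fl_le_pa hS x y (G.phR m n t) []
  rwa [List.append_nil] at this

/-- pairs that are not inside the blocks keep their order -/
lemma rest_lt (c : ℕ) (o : Bool) {x y : Fin n} (hxy : x < y) (hy : G.bl m y = k) :
    G.kR m n c o x < G.kR m n c o y ∧ G.kS m n c o x < G.kS m n c o y := by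
  have hkx : ∀ p : ℕ → ℕ, Function.Injective p → (∀ i, i < k → p i < k) → p k = k →
      ∀ t, bkey p (G.bl m) (gint n (G.rv o t) (G.bl m)) x <
        bkey p (G.bl m) (gint n (G.rv o t) (G.bl m)) y := by
    intro p hp h1 h2 t
    by_cases he : G.bl m x = G.bl m y
    · rw [bkey_lt_eq he]
      unfold gint
      rw [he, hy, rv_k]
      simpa using hxy
    · rw [bkey_lt_ne hp (gint_lt _ _ _) (gint_lt _ _ _) he, hy, h2]
      have := bl_le (G := G) m x
      have := h1 (G.bl m x) (by omega)
      exact_mod_cast this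
  exact ⟨hkx _ (hG.R_inj c) (hG.R_lt c) (hG.R_k c) _, hkx _ (hG.q_inj c _) (hG.q_lt c _)
    (hG.q_k c _) _⟩

/-- pairs that are not inside the blocks cost nothing in the passes -/
lemma rest_po (c : ℕ) (o : Bool) {x y : Fin n} (hxy : x < y) (hy : G.bl m y = k) :
    po x y (G.stI m n c o 0) (G.phO m n c o (G.h c)) (G.kS m n c o) = 0 := by
  apply Nat.eq_zero_of_le_zero
  by_cases he : G.bl m x = G.bl m y
  · have := phO_eq m hG c o (G.h c) he hxy
    rw [he, hy, cnt_k] at this
    exact this
  · have := phO_ne m hG c o (G.h c) he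
    refine this.trans (le_of_eq ?_)
    apply Finset.sum_eq_zero
    intro s _
    have hx : G.bl m x < k := by have := bl_le (G := G) m x; omega
    rw [hy]
    have q1 : ∀ t, G.qz c t (G.bl m x) < G.qz c t k := by
      intro t
      unfold qz
      rw [hG.q_k]
      exact_mod_cast hG.q_lt c t _ hx
    unfold WPs
    have a1 : fl (G.qz c s) (G.qz c (s + 1)) (G.bl m x) k = 0 := by
      unfold fl; simp [q1]
    have a2 : acc (G.path s : ℕ) (G.qz c (s + 1)) (G.bl m x) k = 0 := by
      unfold acc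
      rw [if_neg (G.path s).isLt.ne]
      have : ah (G.qz c (s + 1)) k (G.bl m x) = 0 := by
        unfold ah; rw [if_neg (not_lt.mpr (q1 _).le)]
      rw [this]; simp
    rw [a1, a2, add_zero]

/-- pairs that are not inside the blocks -/
lemma ex_rest {S : List (Fin n) → Fin n → ℤ} (hS : ∀ h, Function.Injective (S h))
    (c : ℕ) (o : Bool) {x y : Fin n} (hxy : x < y) (hy : G.bl m y = k) :
    0 ≤ ∑ β : Fin n → Bool, G.ex m S x y c o β := by
  refine le_trans ?_ (co_bound m hG hS c o hxy.ne)
  apply mul_nonneg (by positivity)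
  obtain ⟨k1, k2⟩ := rest_lt m hG c o hxy hy
  have k3 : idk n x < idk n y := by unfold idk; exact_mod_cast hxy
  have e1 : fl (G.kR m n c o) (G.kS m n c o) x y = 0 := by unfold fl; simp [k1, k2]
  have e2 : phi (G.sg m x y) (S []) (idk n) x y = fl (S []) (idk n) x y := by
    unfold phi sg; rw [hy]; simp
  have e3 : fl (S (G.phR m n (G.h c)).reverse) (G.kR m n c o) x y =
      fl (S (G.phR m n (G.h c)).reverse) (idk n) x y := by
    unfold fl; simp [k1, k3]
  rw [e1, e2, e3, rest_po m hG c o hxy hy]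
  have t1 := fl_le_phR (G := G) m hS (G.h c) x y
  have t2 := fl_tri (S []) (S (G.phR m n (G.h c)).reverse) (idk n) x y
  push_cast
  omega

omit hG in
/-- online cost of the passes for two items of the same block -/
lemma cnt_le_phR {S : List (Fin n) → Fin n → ℤ} (hS : ∀ h, Function.Injective (S h)) (t : ℕ)
    {x y : Fin n} (hxy : x ≠ y) (he : G.bl m x = G.bl m y) :
    G.cnt t (G.bl m x) ≤ pa S x y [] (G.phR m n t) := by
  induction t with
  | zero => simp [cnt]
  | succ t ih =>
    simp only [phR]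
    rw [pa_append, cnt_succ]
    split_ifs with hp
    · have := one_le_pa hS hxy (pass (G.bl m) (G.path t : ℕ)) (mem_pass.mpr hp.symm)
        (mem_pass.mpr (he.symm.trans hp.symm)) ((G.phR m n t).reverse ++ [])
      omega
    · omega

/-- pairs inside one block -/
lemma ex_block {S : List (Fin n) → Fin n → ℤ} (hS : ∀ h, Function.Injective (S h))
    (c : ℕ) {x y : Fin n} (hxy : x < y) (he : G.bl m x = G.bl m y) (hy : G.bl m y < k) :
    -(2 ^ n * (4 * ((G.cnt (G.h c) (G.bl m x) - 1 : ℕ) : ℤ))) ≤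
      ∑ o : Bool, ∑ β : Fin n → Bool, G.ex m S x y c o β := by
  rw [Fintype.sum_bool]
  have b1 := co_bound m hG hS c true hxy.ne
  have b2 := co_bound m hG hS c false hxy.ne
  refine le_trans ?_ (add_le_add b1 b2)
  rw [← mul_add, ← mul_neg]
  apply mul_le_mul_of_nonneg_left _ (by positivity)
  have hord : ∀ (p p' : ℕ → ℕ) (o : Bool), (bkey p (G.bl m)
      (gint n (G.rv o (G.h c)) (G.bl m)) x < bkey p (G.bl m)
      (gint n (G.rv o (G.h c)) (G.bl m)) y ↔ bkey p' (G.bl m)
      (gint n (G.rv o (G.h c)) (G.bl m)) x < bkey p' (G.bl m)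
      (gint n (G.rv o (G.h c)) (G.bl m)) y) := by
    intro p p' o
    rw [bkey_lt_eq he, bkey_lt_eq he]
  have e1 : ∀ o, fl (G.kR m n c o) (G.kS m n c o) x y = 0 := by
    intro o
    have := hord (G.R c) (G.q c (G.h c)) o
    unfold fl kR kS stI
    rw [if_pos this]
  have e2 : phi (G.sg m x y) (S []) (idk n) x y ≤ 0 := by
    unfold phi sg; rw [he]; simp [hy]
  have e3 : ∀ o, po x y (G.stI m n c o 0) (G.phO m n c o (G.h c)) (G.kS m n c o) ≤
      G.cnt (G.h c) (G.bl m x) := fun o => phO_eq m hG c o (G.h c) he hxy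
  have e4 := cnt_le_phR (G := G) m hS (G.h c) hxy.ne he
  have e5 : G.cnt (G.h c) (G.bl m x) ≠ 0 →
      fl (S (G.phR m n (G.h c)).reverse) (G.kR m n c true) x y +
      fl (S (G.phR m n (G.h c)).reverse) (G.kR m n c false) x y = 1 := by
    intro hc
    have k1 : G.kR m n c false x < G.kR m n c false y := by
      unfold kR; rw [bkey_lt_eq he]; unfold gint rv; simpa using hxy
    have k2 : ¬ (G.kR m n c true x < G.kR m n c true y) := by
      unfold kR; rw [bkey_lt_eq he]; unfold gint rv
      rw [← he]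
      have hxy' : (x : ℕ) < y := hxy
      have := y.isLt
      simp only [hc, Bool.true_and, ne_eq, not_false_eq_true, decide_true, if_true]
      omega
    unfold fl
    by_cases hh : S (G.phR m n (G.h c)).reverse x < S (G.phR m n (G.h c)).reverse y <;>
      simp [hh, k1, k2]
  have e3a := e3 true
  have e3b := e3 false
  rw [e1, e1]
  by_cases hc : G.cnt (G.h c) (G.bl m x) = 0
  · push_cast
    omega
  · have := e5 hc
    push_cast
    omega

omit hG in
/-- online cost of the passes for two items of different blocks -/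
lemma pc_le_phR {S : List (Fin n) → Fin n → ℤ} (hS : ∀ h, Function.Injective (S h))
    {x y : Fin n} {i j : Fin k} (hi : G.bl m x = i) (hj : G.bl m y = j) (_hij : i ≠ j)
    (g : ℕ → Fin k → ℤ) (hgi : ∀ s, g s i = S (G.phR m n s).reverse x)
    (hgj : ∀ s, g s j = S (G.phR m n s).reverse y) (t : ℕ) :
    ∑ s ∈ Finset.range t, pc (G.path s) (g s) (g (s + 1)) i j ≤ pa S x y [] (G.phR m n t) := by
  induction t with
  | zero => simp
  | succ t ih =>
    have hstep : pc (G.path t) (g t) (g (t + 1)) i j ≤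
        pa S x y (G.phR m n t).reverse (pass (G.bl m) (G.path t : ℕ)) := by
      have hH : (G.phR m n (t + 1)).reverse =
          (pass (G.bl m) (G.path t : ℕ)).reverse ++ (G.phR m n t).reverse := by
        simp [phR]
      have ahg : ∀ s, ah (g s) j i = ah (S (G.phR m n s).reverse) y x ∧
          ah (g s) i j = ah (S (G.phR m n s).reverse) x y := by
        intro s; unfold ah; rw [hgi, hgj]; exact ⟨rfl, rfl⟩
      unfold pc
      by_cases h1 : G.path t = i
      · rw [if_pos h1, (ahg t).1, (ahg (t + 1)).1, hH]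
        have hx : x ∈ pass (G.bl m) (G.path t : ℕ) := mem_pass.mpr (by rw [h1, hi])
        have := ah_le_pa hS x y _ hx (G.phR m n t).reverse
        omega
      · by_cases h2 : G.path t = j
        · rw [if_neg h1, if_pos h2, (ahg t).2, (ahg (t + 1)).2, hH]
          have hy : y ∈ pass (G.bl m) (G.path t : ℕ) := mem_pass.mpr (by rw [h2, hj])
          have := ah_le_pa' hS x y _ hy (G.phR m n t).reverse
          omega
        · rw [if_neg h1, if_neg h2]
          have e : fl (g t) (g (t + 1)) i j =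
              fl (S (G.phR m n t).reverse) (S (G.phR m n (t + 1)).reverse) x y := by
            unfold fl; rw [hgi, hgj, hgi, hgj]
          rw [e, hH]
          exact fl_le_pa hS x y _ _
    rw [Finset.sum_range_succ]
    simp only [phR]
    rw [pa_append, List.append_nil]
    omega

variable (G) in
omit hG in
/-- the excess of a pair of blocks, for one outcome -/
def mac (g : ℕ → Fin k → ℤ) (i j : Fin k) (c : ℕ) : ℤ :=
  2 * ∑ s ∈ Finset.range (G.h c), (pc (G.path s) (g s) (g (s + 1)) i j : ℤ) +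
  2 * (fl (g (G.h c)) (fun i : Fin k => G.Rz c i) i j : ℤ) -
  2 * (fl (G.Rz c) (G.qz c (G.h c)) i j : ℤ) - 3 * (G.WP c i j : ℤ) +
  2 * (fl (g 0) (fun i : Fin k => ((i : ℕ) : ℤ)) i j : ℤ)

/-- pairs of items in different blocks -/
lemma ex_cross {S : List (Fin n) → Fin n → ℤ} (hS : ∀ h, Function.Injective (S h))
    (c : ℕ) {x y : Fin n} {i j : Fin k} (hi : G.bl m x = i) (hj : G.bl m y = j) (hij : i < j)
    (g : ℕ → Fin k → ℤ) (hgi : ∀ s, g s i = S (G.phR m n s).reverse x)
    (hgj : ∀ s, g s j = S (G.phR m n s).reverse y) :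
    2 ^ n * (4 * G.mac g i j c) ≤ ∑ o : Bool, ∑ β : Fin n → Bool, G.ex m S x y c o β := by
  have hne : G.bl m x ≠ G.bl m y := by
    rw [hi, hj]; exact fun e => hij.ne (Fin.ext e)
  have hxy : x ≠ y := by rintro rfl; exact hne rfl
  have hlt : x < y := by
    by_contra hc
    have := bl_mono (G := G) m (not_lt.mp hc)
    rw [hi, hj] at this
    have : i < j := hij
    omega
  rw [Fintype.sum_bool]
  have b1 := co_bound m hG hS c true hxy
  have b2 := co_bound m hG hS c false hxy
  refine le_trans ?_ (add_le_add b1 b2)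
  rw [← mul_add]
  apply mul_le_mul_of_nonneg_left _ (by positivity)
  have r1 : ∀ o, (G.kR m n c o x < G.kR m n c o y ↔ G.Rz c i < G.Rz c j) := by
    intro o
    unfold kR
    rw [bkey_lt_ne (hG.R_inj c) (gint_lt _ _ _) (gint_lt _ _ _) hne, hi, hj]
    rfl
  have r2 : ∀ o, (G.kS m n c o x < G.kS m n c o y ↔
      G.qz c (G.h c) i < G.qz c (G.h c) j) := by
    intro o
    unfold kS stI
    rw [bkey_lt_ne (hG.q_inj c _) (gint_lt _ _ _) (gint_lt _ _ _) hne, hi, hj]
    rfl
  have e1 : ∀ o, fl (G.kR m n c o) (G.kS m n c o) x y = fl (G.Rz c) (G.qz c (G.h c)) i j := by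
    intro o; unfold fl; simp only [r1, r2]
  have e2 : phi (G.sg m x y) (S []) (idk n) x y =
      -(fl (g 0) (fun i : Fin k => ((i : ℕ) : ℤ)) i j : ℤ) := by
    unfold phi sg
    rw [hi, hj]
    simp only [Fin.is_lt, decide_true, Bool.and_self, if_true, neg_inj, Nat.cast_inj]
    have g0i := hgi 0
    have g0j := hgj 0
    simp only [phR, List.reverse_nil] at g0i g0j
    unfold fl idk
    rw [g0i, g0j]
    have : (((x : ℕ) : ℤ) < ((y : ℕ) : ℤ) ↔ (((i : ℕ) : ℤ)) < ((j : ℕ) : ℤ)) := by
      constructor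
      · intro _; exact_mod_cast hij
      · intro _; exact_mod_cast hlt
    simp only [this]
  have e3 : ∀ o, fl (S (G.phR m n (G.h c)).reverse) (G.kR m n c o) x y =
      fl (g (G.h c)) (fun i : Fin k => G.Rz c i) i j := by
    intro o
    unfold fl
    rw [hgi, hgj]
    simp only [r1]
  have e4 : ∀ o, po x y (G.stI m n c o 0) (G.phO m n c o (G.h c)) (G.kS m n c o) ≤
      G.WP c i j := by
    intro o
    have := phO_ne m hG c o (G.h c) hne
    rw [hi, hj] at this
    exact this
  have e5 := pc_le_phR (G := G) m hS hi hj hij.ne g hgi hgj (G.h c)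
  have e5' : (∑ s ∈ Finset.range (G.h c), (pc (G.path s) (g s) (g (s + 1)) i j : ℤ)) ≤
      pa S x y [] (G.phR m n (G.h c)) := by exact_mod_cast e5
  have e4a := e4 true
  have e4b := e4 false
  rw [e1, e1, e2, e3, e3]
  unfold mac
  have e4a' : (po x y (G.stI m n c true 0) (G.phO m n c true (G.h c)) (G.kS m n c true) : ℤ) ≤
      G.WP c i j := by exact_mod_cast e4a
  have e4b' : (po x y (G.stI m n c false 0) (G.phO m n c false (G.h c)) (G.kS m n c false) : ℤ) ≤
      G.WP c i j := by exact_mod_cast e4b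
  linarith

/-- offline cost of the cycle for a pair, in terms of the passes -/
lemma opt_bound (c : ℕ) (o : Bool) {x y : Fin n} (hxy : x ≠ y) :
    ∑ β : Fin n → Bool, 2 * (po x y (idk n) (G.cycO m c o β) (G.cycE m c o β) : ℤ) ≤
    2 ^ n * (2 * (po x y (G.stI m n c o 0) (G.phO m n c o (G.h c)) (G.kS m n c o) : ℤ) +
      2 + (fl (G.kR m n c o) (G.kS m n c o) x y : ℤ)) := by
  have h2 := noise_po (kR_inj m hG c o) (kS_inj m hG c o) (kR_nonneg m c o)
    (kS_nonneg m c o) hxy
  set Q := po x y (G.stI m n c o 0) (G.phO m n c o (G.h c)) (G.kS m n c o) with hQ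
  have h3 : ∀ β : Fin n → Bool,
      2 * (po x y (idk n) (G.cycO m c o β) (G.cycE m c o β) : ℤ) ≤
      (2 * (po x y (G.kS m n c o) (noiseO (G.kR m n c o) (G.kS m n c o) β)
          (noiseEnd (G.kR m n c o) (G.kS m n c o) β) : ℤ)) + 2 * Q := by
    intro β
    have a1 := po_start x y (idk n) (G.stI m n c o 0) (G.cycO m c o β) (G.cycE m c o β)
    have a2 : fl (idk n) (G.stI m n c o 0) x y = 0 := by
      unfold fl; rw [if_pos (stI_zero m hG c o x y).symm]
    have a3 := po_append x y (G.kS m n c o) (G.cycE m c o β) (G.phO m n c o (G.h c))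
      (noiseO (G.kR m n c o) (G.kS m n c o) β) (G.stI m n c o 0)
    unfold cycO cycE at *
    omega
  have h4 := Finset.sum_le_sum fun β (_ : β ∈ Finset.univ) => h3 β
  rw [Finset.sum_add_distrib, Finset.sum_const, Finset.card_univ, nsmul_eq_mul, card_bits] at h4
  refine h4.trans ?_
  linarith

/-- offline cost, pairs that are not inside the blocks -/
lemma op_rest (c : ℕ) (o : Bool) {x y : Fin n} (hxy : x < y) (hy : G.bl m y = k) :
    ∑ β : Fin n → Bool, 2 * (po x y (idk n) (G.cycO m c o β) (G.cycE m c o β) : ℤ) ≤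
    2 ^ n * 2 := by
  refine (opt_bound m hG c o hxy.ne).trans ?_
  obtain ⟨k1, k2⟩ := rest_lt m hG c o hxy hy
  have e1 : fl (G.kR m n c o) (G.kS m n c o) x y = 0 := by unfold fl; simp [k1, k2]
  rw [e1, rest_po m hG c o hxy hy]
  simp

/-- offline cost, pairs inside one block -/
lemma op_block (c : ℕ) (o : Bool) {x y : Fin n} (hxy : x < y) (he : G.bl m x = G.bl m y) :
    ∑ β : Fin n → Bool, 2 * (po x y (idk n) (G.cycO m c o β) (G.cycE m c o β) : ℤ) ≤
    2 ^ n * (2 + 2 * (G.cnt (G.h c) (G.bl m x) : ℤ)) := by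
  refine (opt_bound m hG c o hxy.ne).trans ?_
  apply mul_le_mul_of_nonneg_left _ (by positivity)
  have e1 : fl (G.kR m n c o) (G.kS m n c o) x y = 0 := by
    have : G.kR m n c o x < G.kR m n c o y ↔ G.kS m n c o x < G.kS m n c o y := by
      unfold kR kS stI
      rw [bkey_lt_eq he, bkey_lt_eq he]
    unfold fl
    rw [if_pos this]
  have e3 : po x y (G.stI m n c o 0) (G.phO m n c o (G.h c)) (G.kS m n c o) ≤
      G.cnt (G.h c) (G.bl m x) := phO_eq m hG c o (G.h c) he hxy
  rw [e1]
  push_cast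
  omega

/-- offline cost, pairs of items in different blocks -/
lemma op_cross (c : ℕ) (o : Bool) {x y : Fin n} {i j : Fin k} (hi : G.bl m x = i)
    (hj : G.bl m y = j) (hij : i < j) :
    ∑ β : Fin n → Bool, 2 * (po x y (idk n) (G.cycO m c o β) (G.cycE m c o β) : ℤ) ≤
    2 ^ n * (2 + (2 * (G.WP c i j : ℤ) + (fl (G.Rz c) (G.qz c (G.h c)) i j : ℤ))) := by
  have hne : G.bl m x ≠ G.bl m y := by
    rw [hi, hj]; exact fun e => hij.ne (Fin.ext e)
  have hxy : x ≠ y := by rintro rfl; exact hne rfl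
  refine (opt_bound m hG c o hxy).trans ?_
  apply mul_le_mul_of_nonneg_left _ (by positivity)
  have e1 : fl (G.kR m n c o) (G.kS m n c o) x y = fl (G.Rz c) (G.qz c (G.h c)) i j := by
    apply fl_congr2
    · unfold kR
      rw [bkey_lt_ne (hG.R_inj c) (gint_lt _ _ _) (gint_lt _ _ _) hne, hi, hj]
      rfl
    · unfold kS stI
      rw [bkey_lt_ne (hG.q_inj c _) (gint_lt _ _ _) (gint_lt _ _ _) hne, hi, hj]
      rfl
  have e4 : po x y (G.stI m n c o 0) (G.phO m n c o (G.h c)) (G.kS m n c o) ≤ G.WP c i j := by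
    have := phO_ne m hG c o (G.h c) hne
    rw [hi, hj] at this
    exact this
  rw [e1]

  omega

end Gadget

end Pool.Agent.Lib.MP_b3fcb1_lc
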