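import Pool.Agent.Lib.MP_b3fcb1_lc.Blocks

/-!
The random request sequence of one cycle, and its cost for a pair of items.
-/

namespace Pool.Agent.Lib.MP_b3fcb1_lc

/-- Combinatorial data of one cycle of the adversary: `k` blocks of weights `w`, the path of block
passes, and the outcomes `c < N` of weight `wt c`, each with its number `h c` of passes, the order
`R c` of the blocks in the noise phase, and the order `q c t` of the blocks in the list of the
offline algorithm during the `t`-th pass. -/
structure Gadget (k : ℕ) where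
  L : ℕ
  N : ℕ
  w : ℕ → ℕ
  path : ℕ → Fin k
  wt : ℕ → ℕ
  h : ℕ → ℕ
  R : ℕ → ℕ → ℕ
  q : ℕ → ℕ → ℕ → ℕ

namespace Gadget

variable {k : ℕ} (G : Gadget k)

structure Ok : Prop where
  R_inj : ∀ c, Function.Injective (G.R c)
  R_lt : ∀ c i, i < k → G.R c i < k
  R_k : ∀ c, G.R c k = k
  q_inj : ∀ c t, Function.Injective (G.q c t)
  q_lt : ∀ c t i, i < k → G.q c t i < k
  q_k : ∀ c t, G.q c t k = k
  q_zero : ∀ c i, G.q c 0 i = i
  h_le : ∀ c, G.h c ≤ G.L

/-- block order in the noise phase, as an integer key -/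
def Rz (c : ℕ) : ℕ → ℤ := fun i => ((G.R c i : ℕ) : ℤ)

/-- block order of the offline algorithm, as an integer key -/
def qz (c t : ℕ) : ℕ → ℤ := fun i => ((G.q c t i : ℕ) : ℤ)

/-- offline cost of pass `s` for a pair of blocks -/
def WPs (c s i j : ℕ) : ℕ :=
  fl (G.qz c s) (G.qz c (s + 1)) i j + acc (G.path s : ℕ) (G.qz c (s + 1)) i j

/-- offline cost of all the passes of outcome `c` for a pair of blocks -/
def WP (c i j : ℕ) : ℕ := ∑ s ∈ Finset.range (G.h c), G.WPs c s i j

/-- how often the block `b` has been passed in the first `t` passes -/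
def cnt (t b : ℕ) : ℕ := ∑ s ∈ Finset.range t, if (G.path s : ℕ) = b then 1 else 0

/-- has the block `b` been passed in the first `t` passes? -/
def rv (o : Bool) (t b : ℕ) : Bool := o && decide (G.cnt t b ≠ 0)

variable {n : ℕ} (m : ℕ)

/-- the block of an item -/
def bl : Fin n → ℕ := fun r => blk G.w k m r

/-- list of the offline algorithm after `t` passes -/
def stI (n c : ℕ) (o : Bool) (t : ℕ) : Fin n → ℤ :=
  bkey (G.q c t) (G.bl m) (gint n (G.rv o t) (G.bl m))

/-- list of the offline algorithm when `r` is requested in pass `t` -/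
def stP (c : ℕ) (o : Bool) (t : ℕ) (r : Fin n) : Fin n → ℤ :=
  bkey (G.q c (t + 1)) (G.bl m)
    (if o = true ∧ G.cnt t (G.path t) = 0 then gpass n (G.rv o t) (G.bl m) (G.path t) r
      else gint n (G.rv o t) (G.bl m))

/-- the offline strategy for pass `t` -/
def passO (n c : ℕ) (o : Bool) (t : ℕ) : List (Fin n × (Fin n → ℤ)) :=
  (pass (G.bl m) (G.path t : ℕ)).map (fun r => (r, G.stP m c o t r))

/-- the offline strategy for the first passes -/
def phO (n c : ℕ) (o : Bool) : ℕ → List (Fin n × (Fin n → ℤ))
  | 0 => []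
  | t + 1 => phO n c o t ++ G.passO m n c o t

/-- the requests of the first passes -/
def phR (n : ℕ) : ℕ → List (Fin n)
  | 0 => []
  | t + 1 => phR n t ++ pass (G.bl m) (G.path t : ℕ)

lemma phO_fst (c : ℕ) (o : Bool) (t : ℕ) : (G.phO m n c o t).map Prod.fst = G.phR m n t := by
  induction t with
  | zero => rfl
  | succ t ih =>
    simp only [phO, phR, List.map_append, ih]
    congr 1
    simp [passO, Function.comp_def]

lemma phR_length (t : ℕ) : (G.phR m n t).length ≤ t * n := by
  induction t with
  | zero => simp [phR]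
  | succ t ih =>
    simp only [phR, List.length_append]
    have := pass_length (G.bl m (n := n)) (G.path t : ℕ)
    rw [Nat.add_mul]; omega

/-- order of the items in the noise phase -/
def kR (n c : ℕ) (o : Bool) : Fin n → ℤ :=
  bkey (G.R c) (G.bl m) (gint n (G.rv o (G.h c)) (G.bl m))

/-- list of the offline algorithm at the start of the noise phase -/
def kS (n c : ℕ) (o : Bool) : Fin n → ℤ := G.stI m n c o (G.h c)

/-- the requests of the cycle -/
def cycR (c : ℕ) (o : Bool) (β : Fin n → Bool) : List (Fin n) :=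
  G.phR m n (G.h c) ++ noiseReq (G.kR m n c o) β

/-- the offline strategy for the cycle -/
def cycO (c : ℕ) (o : Bool) (β : Fin n → Bool) : List (Fin n × (Fin n → ℤ)) :=
  G.phO m n c o (G.h c) ++ noiseO (G.kR m n c o) (G.kS m n c o) β

/-- the list of the offline algorithm after the cycle -/
def cycE (c : ℕ) (o : Bool) (β : Fin n → Bool) : Fin n → ℤ :=
  noiseEnd (G.kR m n c o) (G.kS m n c o) β

lemma cycO_fst (c : ℕ) (o : Bool) (β : Fin n → Bool) :
    (G.cycO m c o β).map Prod.fst = G.cycR m c o β := by
  unfold cycO cycR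
  rw [List.map_append, phO_fst, noiseO_fst]

variable {G} (hG : G.Ok)

include hG

lemma cycR_length (c : ℕ) (o : Bool) (β : Fin n → Bool) :
    (G.cycR m c o β).length ≤ (G.L + 3) * n := by
  unfold cycR
  rw [List.length_append]
  have h1 := G.phR_length m (n := n) (G.h c)
  have h2 := noiseReq_length (G.kR m n c o) β
  have h3 := Nat.mul_le_mul_right n (hG.h_le c)
  rw [Nat.add_mul]; omega

lemma stI_inj (c : ℕ) (o : Bool) (t : ℕ) : Function.Injective (G.stI m n c o t) :=
  bkey_inj (hG.q_inj c t) (gint_lt _ _) (gint_inj _ _)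

lemma kR_inj (c : ℕ) (o : Bool) : Function.Injective (G.kR m n c o) :=
  bkey_inj (hG.R_inj c) (gint_lt _ _) (gint_inj _ _)

lemma kS_inj (c : ℕ) (o : Bool) : Function.Injective (G.kS m n c o) := stI_inj m hG c o _

lemma stP_inj (c : ℕ) (o : Bool) (t : ℕ) (r : Fin n) : Function.Injective (G.stP m c o t r) := by
  unfold stP
  split_ifs
  · exact bkey_inj (hG.q_inj c _) (gpass_lt _ _ _ _) (gpass_inj _ _ _ _)
  · exact bkey_inj (hG.q_inj c _) (gint_lt _ _) (gint_inj _ _)

lemma phO_inj (c : ℕ) (o : Bool) (t : ℕ) : ∀ p ∈ G.phO m n c o t, Function.Injective p.2 := by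
  induction t with
  | zero => intro p hp; simp [phO] at hp
  | succ t ih =>
    intro p hp
    simp only [phO] at hp
    rcases List.mem_append.mp hp with hp | hp
    · exact ih p hp
    · unfold passO at hp
      rw [List.mem_map] at hp
      obtain ⟨r, _, rfl⟩ := hp
      exact stP_inj m hG c o t r

omit hG in
lemma kR_nonneg (c : ℕ) (o : Bool) (y : Fin n) : 0 ≤ G.kR m n c o y := bkey_nonneg _ _ _ _

omit hG in
lemma kS_nonneg (c : ℕ) (o : Bool) (y : Fin n) : 0 ≤ G.kS m n c o y := bkey_nonneg _ _ _ _

lemma cycO_inj (c : ℕ) (o : Bool) (β : Fin n → Bool) :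
    ∀ p ∈ G.cycO m c o β, Function.Injective p.2 := by
  intro p hp
  unfold cycO at hp
  rcases List.mem_append.mp hp with hp | hp
  · exact phO_inj m hG c o _ p hp
  · exact noiseO_inj (kR_inj m hG c o) (kS_inj m hG c o) (kR_nonneg m c o) (kS_nonneg m c o) β p hp

lemma cycE_inj (c : ℕ) (o : Bool) (β : Fin n → Bool) : Function.Injective (G.cycE m c o β) :=
  noiseEnd_inj (kR_inj m hG c o) (kS_inj m hG c o) (kR_nonneg m c o) (kS_nonneg m c o) β

/-- pass `t`: offline cost for two items of different blocks -/
lemma passO_ne (c : ℕ) (o : Bool) (t : ℕ) {x y : Fin n} (hne : G.bl m x ≠ G.bl m y) :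
    po x y (G.stI m n c o t) (G.passO m n c o t) (G.stI m n c o (t + 1)) ≤
      G.WPs c t (G.bl m x) (G.bl m y) := by
  have h1 := po_const x y (G.stI m n c o (t + 1)) (G.stI m n c o (t + 1))
    (G.passO m n c o t) (by
      intro p hp
      unfold passO at hp
      rw [List.mem_map] at hp
      obtain ⟨r, _, rfl⟩ := hp
      have hin := hG.q_inj c (t + 1)
      unfold stP stI
      split_ifs
      · rw [bkey_lt_ne hin (gpass_lt _ _ _ _ _) (gpass_lt _ _ _ _ _) hne,
          bkey_lt_ne hin (gint_lt _ _ _) (gint_lt _ _ _) hne,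
          bkey_lt_ne hin (gpass_lt _ _ _ _ _) (gpass_lt _ _ _ _ _) hne.symm,
          bkey_lt_ne hin (gint_lt _ _ _) (gint_lt _ _ _) hne.symm]
        exact ⟨Iff.rfl, Iff.rfl⟩
      · rw [bkey_lt_ne hin (gint_lt _ _ _) (gint_lt _ _ _) hne,
          bkey_lt_ne hin (gint_lt _ _ _) (gint_lt _ _ _) hne,
          bkey_lt_ne hin (gint_lt _ _ _) (gint_lt _ _ _) hne.symm,
          bkey_lt_ne hin (gint_lt _ _ _) (gint_lt _ _ _) hne.symm]
        exact ⟨Iff.rfl, Iff.rfl⟩) (G.stI m n c o t)
  have h2 : (G.passO m n c o t).map Prod.fst = pass (G.bl m) (G.path t : ℕ) := by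
    simp [passO, Function.comp_def]
  rw [h2, pass_count, pass_count, fl_same] at h1
  have h3 : fl (G.stI m n c o t) (G.stI m n c o (t + 1)) x y =
      fl (G.qz c t) (G.qz c (t + 1)) (G.bl m x) (G.bl m y) := by
    unfold fl
    have e1 : G.stI m n c o t x < G.stI m n c o t y ↔ G.qz c t (G.bl m x) < G.qz c t (G.bl m y) :=
      bkey_lt_ne (hG.q_inj c t) (gint_lt _ _ _) (gint_lt _ _ _) hne
    have e2 : G.stI m n c o (t + 1) x < G.stI m n c o (t + 1) y ↔
      G.qz c (t + 1) (G.bl m x) < G.qz c (t + 1) (G.bl m y) :=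
      bkey_lt_ne (hG.q_inj c _) (gint_lt _ _ _) (gint_lt _ _ _) hne
    simp only [e1, e2]
  have h4 : ∀ a b : Fin n, G.bl m a ≠ G.bl m b → ah (G.stI m n c o (t + 1)) a b =
      ah (G.qz c (t + 1)) (G.bl m a) (G.bl m b) := by
    intro a b hab
    unfold ah
    have e2 : G.stI m n c o (t + 1) a < G.stI m n c o (t + 1) b ↔
      G.qz c (t + 1) (G.bl m a) < G.qz c (t + 1) (G.bl m b) :=
      bkey_lt_ne (hG.q_inj c _) (gint_lt _ _ _) (gint_lt _ _ _) hab
    simp only [e2]
  rw [h3, h4 _ _ hne, h4 _ _ hne.symm] at h1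
  unfold WPs acc
  refine h1.trans (le_of_eq ?_)
  simp only [eq_comm (a := G.bl m x), eq_comm (a := G.bl m y)]
  split_ifs <;> ring

omit hG in
lemma cnt_succ (t b : ℕ) : G.cnt (t + 1) b = G.cnt t b + if (G.path t : ℕ) = b then 1 else 0 :=
  Finset.sum_range_succ _ _

/-- pass `t`: offline cost for two items of the same block -/
lemma passO_eq (c : ℕ) (o : Bool) (t : ℕ) {x y : Fin n} (he : G.bl m x = G.bl m y) (hxy : x < y) :
    po x y (G.stI m n c o t) (G.passO m n c o t) (G.stI m n c o (t + 1)) ≤
      if (G.path t : ℕ) = G.bl m x then 1 else 0 := by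
  have hne : x ≠ y := hxy.ne
  have hxy' : (x : ℕ) < y := hxy
  have hfst : (G.passO m n c o t).map Prod.fst = pass (G.bl m) (G.path t : ℕ) := by
    simp [passO, Function.comp_def]
  by_cases hc : o = true ∧ G.cnt t (G.path t) = 0 ∧ (G.path t : ℕ) = G.bl m x
  · obtain ⟨ho, hcnt, hp⟩ := hc
    rw [if_pos hp]
    -- the block is reversed
    have rv0 : G.rv o t (G.bl m x) = false := by
      unfold rv; rw [← hp, hcnt]; simp
    have rv1 : G.rv o (t + 1) (G.bl m x) = true := by
      unfold rv; rw [cnt_succ, if_pos hp]; simp [ho]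
    have ax : G.stI m n c o t x < G.stI m n c o t y := by
      unfold stI; rw [bkey_lt_eq he]; unfold gint; rw [← he, rv0]; simpa using hxy
    have ay : G.stI m n c o (t + 1) y < G.stI m n c o (t + 1) x := by
      unfold stI; rw [bkey_lt_eq he.symm]; unfold gint; rw [← he, rv1]
      have := y.isLt
      simp; omega
    have hmx : x ∈ pass (G.bl m) (G.path t : ℕ) := mem_pass.mpr hp.symm
    have hmy : y ∈ pass (G.bl m) (G.path t : ℕ) := mem_pass.mpr (he.symm.trans hp.symm)
    obtain ⟨A, B, C, hl, hA, hB, hC⟩ := split_pair (pass_pairwise (G.bl m) (G.path t : ℕ))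
      hmx hmy (by exact_mod_cast hxy)
    have hst : ∀ r : Fin n, G.stP m c o t r = bkey (G.q c (t + 1)) (G.bl m)
        (gpass n (G.rv o t) (G.bl m) (G.path t) r) := by
      intro r; unfold stP; rw [if_pos ⟨ho, hcnt⟩]
    have hlt : ∀ r a b : Fin n, G.bl m a = G.bl m x → G.bl m b = G.bl m x →
        (G.stP m c o t r a < G.stP m c o t r b ↔
          (if (a : ℕ) ≤ r then (r : ℕ) - a else (a : ℕ)) <
          (if (b : ℕ) ≤ r then (r : ℕ) - b else (b : ℕ))) := by
      intro r a b ha hb
      rw [hst, bkey_lt_eq (ha.trans hb.symm)]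
      unfold gpass
      rw [if_pos (ha.trans hp.symm), if_pos (hb.trans hp.symm)]
    have hO : G.passO m n c o t = (A ++ x :: B).map (fun r => (r, G.stP m c o t r)) ++
        (y :: C).map (fun r => (r, G.stP m c o t r)) := by
      unfold passO
      rw [hl, ← List.map_append]; simp
    have c1 := po_const x y (G.stI m n c o t) (G.stI m n c o t)
      ((A ++ x :: B).map (fun r => (r, G.stP m c o t r))) (by
        intro p hp'
        rw [List.mem_map] at hp'
        obtain ⟨r, hr, rfl⟩ := hp'
        have hry : (r : ℕ) < y := by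
          rcases List.mem_append.mp hr with h1 | h1
          · have := hA r h1; omega
          · rcases List.mem_cons.mp h1 with h2 | h2
            · rw [h2]; exact hxy'
            · have := (hB r h2).2; omega
        simp only
        rw [hlt r x y rfl he.symm, hlt r y x he.symm rfl]
        constructor
        · refine iff_of_true ?_ ax
          rw [if_neg (not_le.mpr hry)]
          split_ifs <;> omega
        · refine iff_of_false ?_ (not_lt.mpr ax.le)
          rw [if_neg (not_le.mpr hry)]
          split_ifs <;> omega) (G.stI m n c o t)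
    have c2 := po_const x y (G.stI m n c o (t + 1)) (G.stI m n c o (t + 1))
      ((y :: C).map (fun r => (r, G.stP m c o t r))) (by
        intro p hp'
        rw [List.mem_map] at hp'
        obtain ⟨r, hr, rfl⟩ := hp'
        have hry : (y : ℕ) ≤ r := by
          rcases List.mem_cons.mp hr with h2 | h2
          · rw [h2]
          · have := hC r h2; omega
        simp only
        rw [hlt r x y rfl he.symm, hlt r y x he.symm rfl]
        constructor
        · refine iff_of_false ?_ (not_lt.mpr ay.le)
          rw [if_pos hry, if_pos (by omega)]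
          omega
        · refine iff_of_true ?_ ay
          rw [if_pos hry, if_pos (by omega)]
          omega) (G.stI m n c o t)
    have f1 : ((A ++ x :: B).map (fun r => (r, G.stP m c o t r))).map Prod.fst = A ++ x :: B := by
      simp [Function.comp_def]
    have f2 : ((y :: C).map (fun r => (r, G.stP m c o t r))).map Prod.fst = y :: C := by
      simp [Function.comp_def]
    have n1 : (A ++ x :: B).count y = 0 := by
      rw [List.count_eq_zero]
      intro h1
      rcases List.mem_append.mp h1 with h1 | h1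
      · have := hA y h1; omega
      · rcases List.mem_cons.mp h1 with h2 | h2
        · exact hne h2.symm
        · have := (hB y h2).2; omega
    have n2 : (y :: C).count x = 0 := by
      rw [List.count_eq_zero]
      intro h1
      rcases List.mem_cons.mp h1 with h2 | h2
      · exact hne h2
      · have := hC x h2; omega
    have a1 : ah (G.stI m n c o t) y x = 0 := by unfold ah; rw [if_neg (not_lt.mpr ax.le)]
    have a2 : ah (G.stI m n c o (t + 1)) x y = 0 := by unfold ah; rw [if_neg (not_lt.mpr ay.le)]
    rw [f1, n1, a1, fl_same] at c1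
    rw [f2, n2, a2, fl_same] at c2
    have c3 := po_append x y (G.stI m n c o t) (G.stI m n c o (t + 1))
      ((A ++ x :: B).map (fun r => (r, G.stP m c o t r)))
      ((y :: C).map (fun r => (r, G.stP m c o t r))) (G.stI m n c o t)
    rw [← hO] at c3
    have c4 := fl_le_one (G.stI m n c o t) (G.stI m n c o (t + 1)) x y
    simp only [mul_zero, zero_mul, add_zero] at c1 c2
    omega
  · -- the order of the pair does not change
    have hrv : G.rv o (t + 1) (G.bl m x) = G.rv o t (G.bl m x) := by
      unfold rv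
      rw [cnt_succ]
      by_cases hp : (G.path t : ℕ) = G.bl m x
      · rw [if_pos hp]
        cases o
        · rfl
        · have : G.cnt t (G.path t) ≠ 0 := fun h => hc ⟨rfl, h, hp⟩
          rw [hp] at this
          simp [this]
      · rw [if_neg hp]; simp
    have hord : ∀ a b : Fin n, G.bl m a = G.bl m x → G.bl m b = G.bl m x →
        (G.stI m n c o (t + 1) a < G.stI m n c o (t + 1) b ↔
          G.stI m n c o t a < G.stI m n c o t b) := by
      intro a b ha hb
      unfold stI
      rw [bkey_lt_eq (ha.trans hb.symm), bkey_lt_eq (ha.trans hb.symm)]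
      unfold gint
      rw [ha, hb, hrv]
    have h1 := po_const x y (G.stI m n c o t) (G.stI m n c o (t + 1)) (G.passO m n c o t) (by
      intro p hp'
      unfold passO at hp'
      rw [List.mem_map] at hp'
      obtain ⟨r, hr, rfl⟩ := hp'
      unfold stP stI
      split_ifs with hcc
      · have hpx : (G.path t : ℕ) ≠ G.bl m x := fun h => hc ⟨hcc.1, hcc.2, h⟩
        rw [bkey_lt_eq he, bkey_lt_eq he, bkey_lt_eq he.symm, bkey_lt_eq he.symm]
        unfold gpass
        rw [← he, if_neg (Ne.symm hpx), if_neg (Ne.symm hpx)]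
        exact ⟨Iff.rfl, Iff.rfl⟩
      · rw [bkey_lt_eq he, bkey_lt_eq he, bkey_lt_eq he.symm, bkey_lt_eq he.symm]
        exact ⟨Iff.rfl, Iff.rfl⟩) (G.stI m n c o t)
    have h2 : fl (G.stI m n c o t) (G.stI m n c o (t + 1)) x y = 0 := by
      unfold fl; rw [if_pos (hord x y rfl he.symm).symm]
    rw [hfst, pass_count, pass_count, fl_same, h2, ← he] at h1
    have h3 := ah_add (stI_inj m hG c o t (n := n)) hne
    simp only [eq_comm (a := G.bl m x)] at h1
    refine h1.trans ?_
    split_ifs <;> omega

lemma phO_ne (c : ℕ) (o : Bool) (t : ℕ) {x y : Fin n} (hne : G.bl m x ≠ G.bl m y) :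
    po x y (G.stI m n c o 0) (G.phO m n c o t) (G.stI m n c o t) ≤
      ∑ s ∈ Finset.range t, G.WPs c s (G.bl m x) (G.bl m y) := by
  induction t with
  | zero => simp [phO, po, fl_same]
  | succ t ih =>
    simp only [phO]
    rw [Finset.sum_range_succ]
    have h1 := po_append x y (G.stI m n c o t) (G.stI m n c o (t + 1)) (G.phO m n c o t)
      (G.passO m n c o t) (G.stI m n c o 0)
    have h2 := passO_ne m hG c o t hne
    omega

lemma phO_eq (c : ℕ) (o : Bool) (t : ℕ) {x y : Fin n} (he : G.bl m x = G.bl m y) (hxy : x < y) :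
    po x y (G.stI m n c o 0) (G.phO m n c o t) (G.stI m n c o t) ≤ G.cnt t (G.bl m x) := by
  induction t with
  | zero => simp [phO, po, fl_same]
  | succ t ih =>
    simp only [phO]
    rw [cnt_succ]
    have h1 := po_append x y (G.stI m n c o t) (G.stI m n c o (t + 1)) (G.phO m n c o t)
      (G.passO m n c o t) (G.stI m n c o 0)
    have h2 := passO_eq m hG c o t he hxy
    omega

end Gadget

end Pool.Agent.Lib.MP_b3fcb1_lc
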