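import Pool.Agent.Lib.MP_b3fcb1_lc.Tab4
import Pool.Agent.Lib.MP_b3fcb1_lc.Tab5

/-!
Level 4 of the certificate, checked by the kernel.
-/

namespace Pool.Agent.Lib.MP_b3fcb1_lc.Seven

theorem lev4 : walk (leafOk T4 T5 E C4) E F5 7 [] (List.range 7) 0 0 = true := by
  decide +kernel

end Pool.Agent.Lib.MP_b3fcb1_lc.Seven
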