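import Pool.Agent.Lib.MP_b3fcb1_lc.Tab5
import Pool.Agent.Lib.MP_b3fcb1_lc.Tab6

/-!
Level 5 of the certificate, checked by the kernel.
-/

namespace Pool.Agent.Lib.MP_b3fcb1_lc.Seven

theorem lev5 : walk (leafOk T5 T6 E C5) E F6 7 [] (List.range 7) 0 0 = true := by
  decide +kernel

end Pool.Agent.Lib.MP_b3fcb1_lc.Seven
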