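import Pool.Agent.Lib.MP_b3fcb1_lc.Lower

/-!
Local certificates: a lower bound for the dynamic programme over the lists of the `k` blocks that
is verified by comparing lists which differ by one exchange.
-/

namespace Pool.Agent.Lib.MP_b3fcb1_lc

variable {k : ℕ}

/-- sum of `F a b` over the pairs with `a` ahead of `b` -/
def form (F : Fin k → Fin k → ℤ) (z : ItemList k) : ℤ :=
  ∑ a, ∑ b, if z a < z b then F a b else 0

/-- sum of `c a b` over the pairs in the order `a`, `b` in `z` and in the other order in `z'` -/
def dsum (c : Fin k → Fin k → ℤ) (z z' : ItemList k) : ℤ :=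
  ∑ a, ∑ b, if z a < z b ∧ z' b < z' a then c a b else 0

lemma exchange_lt (z : ItemList k) {a b : Fin k} (h : (z b : ℕ) = z a + 1) (x y : Fin k) :
    (exchange (z a : ℕ) z x < exchange (z a : ℕ) z y ↔
      (if x = a ∧ y = b then False else if x = b ∧ y = a then True else z x < z y)) := by
  have hb := (z b).isLt
  have hi : (z a : ℕ) + 1 < k := by omega
  have ea : ∀ x : Fin k, (z x : ℕ) = z a ↔ x = a := fun x =>
    ⟨fun e => z.injective (Fin.ext e), fun e => by rw [e]⟩
  have eb : ∀ x : Fin k, (z x : ℕ) = z a + 1 ↔ x = b := fun x =>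
    ⟨fun e => z.injective (Fin.ext (by rw [e, h])), fun e => by rw [e, h]⟩
  rw [Fin.lt_def, exchange_val, exchange_val, Fin.lt_def]
  simp only [hi, if_true, ea, eb]
  have hab : a ≠ b := by rintro rfl; omega
  by_cases x1 : x = a
  · subst x1
    have x2 : x ≠ b := hab
    by_cases y1 : y = x
    · subst y1; simp [x2]
    · by_cases y2 : y = b
      · subst y2; simp [hab.symm]
      · have n1 : (z y : ℕ) ≠ z x := fun e => y1 ((ea y).mp e)
        have n2 : (z y : ℕ) ≠ z x + 1 := fun e => y2 ((eb y).mp e)
        simp only [x2, y1, y2, if_true, if_false, and_false]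
        omega
  · by_cases x2 : x = b
    · subst x2
      by_cases y1 : y = a
      · subst y1; simp [hab.symm]
      · by_cases y2 : y = x
        · subst y2; simp [hab.symm]
        · have n1 : (z y : ℕ) ≠ z a := fun e => y1 ((ea y).mp e)
          have n2 : (z y : ℕ) ≠ z a + 1 := fun e => y2 ((eb y).mp e)
          simp only [x1, y1, y2, if_true, if_false, and_false]
          omega
    · have m1 : (z x : ℕ) ≠ z a := fun e => x1 ((ea x).mp e)
      have m2 : (z x : ℕ) ≠ z a + 1 := fun e => x2 ((eb x).mp e)
      by_cases y1 : y = a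
      · subst y1
        simp only [x1, x2, if_true, if_false, false_and]
        omega
      · by_cases y2 : y = b
        · subst y2
          simp only [x1, x2, y1, if_true, if_false, false_and]
          omega
        · simp only [x1, x2, y1, y2, if_false, false_and]

lemma sum_sum_single (a b : Fin k) (v : ℤ) :
    ∑ x : Fin k, ∑ y : Fin k, (if x = a ∧ y = b then v else 0) = v := by
  simp [ite_and]

lemma form_exchange (F : Fin k → Fin k → ℤ) (z : ItemList k) {a b : Fin k}
    (h : (z b : ℕ) = z a + 1) :
    form F (exchange (z a : ℕ) z) + F a b = form F z + F b a := by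
  have hab : a ≠ b := by rintro rfl; omega
  have h1 : ∀ x y : Fin k, (if exchange (z a : ℕ) z x < exchange (z a : ℕ) z y then F x y else 0) +
      (if x = a ∧ y = b then F a b else 0) =
      (if z x < z y then F x y else 0) + (if x = b ∧ y = a then F b a else 0) := by
    intro x y
    simp only [exchange_lt z h]
    by_cases h1 : x = a ∧ y = b
    · obtain ⟨rfl, rfl⟩ := h1
      have h2 : z x < z y := by rw [Fin.lt_def]; omega
      simp [h2, hab]
    · by_cases h2 : x = b ∧ y = a
      · obtain ⟨rfl, rfl⟩ := h2
        have h3 : ¬ z x < z y := by rw [Fin.lt_def]; omega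
        simp [h3, hab.symm]
      · simp only [h1, h2, if_false]
  have h2 := Finset.sum_congr rfl fun x (_ : x ∈ (Finset.univ : Finset (Fin k))) =>
    Finset.sum_congr rfl fun y (_ : y ∈ (Finset.univ : Finset (Fin k))) => h1 x y
  simp only [Finset.sum_add_distrib, sum_sum_single] at h2
  exact h2

lemma dsum_exchange (c : Fin k → Fin k → ℤ) (z ρ : ItemList k) {a b : Fin k}
    (h : (z b : ℕ) = z a + 1) (hρ : ρ b < ρ a) :
    dsum c z ρ = dsum c (exchange (z a : ℕ) z) ρ + c a b := by
  have hab : a ≠ b := by rintro rfl; omega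
  have h1 : ∀ x y : Fin k, (if z x < z y ∧ ρ y < ρ x then c x y else 0) =
      (if exchange (z a : ℕ) z x < exchange (z a : ℕ) z y ∧ ρ y < ρ x then c x y else 0) +
      (if x = a ∧ y = b then c a b else 0) := by
    intro x y
    simp only [exchange_lt z h]
    by_cases h1 : x = a ∧ y = b
    · obtain ⟨rfl, rfl⟩ := h1
      have h2 : z x < z y := by rw [Fin.lt_def]; omega
      simp [h2, hρ]
    · by_cases h2 : x = b ∧ y = a
      · obtain ⟨rfl, rfl⟩ := h2
        have h3 : ¬ ρ y < ρ x := not_lt.mpr hρ.le
        simp [h3, hab.symm]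
      · simp only [h1, h2, if_false, add_zero]
  have h2 := Finset.sum_congr rfl fun x (_ : x ∈ (Finset.univ : Finset (Fin k))) =>
    Finset.sum_congr rfl fun y (_ : y ∈ (Finset.univ : Finset (Fin k))) => h1 x y
  simp only [Finset.sum_add_distrib, sum_sum_single] at h2
  exact h2

lemma dsum_nonneg {c : Fin k → Fin k → ℤ} (hc : ∀ a b, 0 ≤ c a b) (z ρ : ItemList k) :
    0 ≤ dsum c z ρ := by
  unfold dsum
  apply Finset.sum_nonneg; intro a _
  apply Finset.sum_nonneg; intro b _
  split_ifs
  · exact hc a b
  · exact le_rfl

/-- a function that changes by at most `c a b` under an exchange of two adjacent items `a`, `b` is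
Lipschitz for the corresponding distance -/
theorem lip {U : ItemList k → ℤ} {c : Fin k → Fin k → ℤ}
    (hU : ∀ (z : ItemList k) (a b : Fin k), (z b : ℕ) = z a + 1 →
      U z ≤ U (exchange (z a : ℕ) z) + c a b) (π ρ : ItemList k) :
    U π ≤ U ρ + dsum c π ρ := by
  have hN : ∃ N : ℕ, dsum (fun _ _ => 1) π ρ = N :=
    Int.eq_ofNat_of_zero_le (dsum_nonneg (fun _ _ => zero_le_one) π ρ)
  obtain ⟨N, hN⟩ := hN
  induction N using Nat.strong_induction_on generalizing π with
  | _ N ih =>
    by_cases hx : ∃ x y, π x < π y ∧ ρ y < ρ x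
    · obtain ⟨x, y, h1, h2⟩ := hx
      obtain ⟨a, b, h3, h4⟩ := adj_inversion π ρ _ x y h1 h2 le_rfl
      have e1 := dsum_exchange (fun _ _ => 1) π ρ h3 h4
      have e2 := dsum_exchange c π ρ h3 h4
      have e3 := dsum_nonneg (c := fun _ _ => 1) (fun _ _ => zero_le_one)
        (exchange (π a : ℕ) π) ρ
      have hlt : N - 1 < N := by omega
      have e4 := ih (N - 1) hlt (exchange (π a : ℕ) π) (by omega)
      have e5 := hU π a b h3
      linarith
    · have h0 : π = ρ := by
        apply eq_of_fl_zero
        push Not at hx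
        apply Finset.sum_eq_zero; intro x _
        apply Finset.sum_eq_zero; intro y _
        by_cases hxy : x = y
        · rw [hxy]; exact fl_self _ _ _
        have n1 : π x ≠ π y := fun e => hxy (π.injective e)
        have n2 : ρ x ≠ ρ y := fun e => hxy (ρ.injective e)
        unfold fl
        rw [if_pos]
        rw [key_lt, key_lt]
        constructor
        · intro h; exact lt_of_le_of_ne (hx x y h) n2
        · intro h
          by_contra h5
          have h6 : π y < π x := lt_of_le_of_ne (not_lt.mp h5) (Ne.symm n1)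
          have := hx y x h6
          exact absurd h (not_lt.mpr this)
      subst h0
      have : dsum c π π = 0 := by
        unfold dsum
        apply Finset.sum_eq_zero; intro a _
        apply Finset.sum_eq_zero; intro b _
        rw [if_neg]
        rintro ⟨h1, h2⟩
        exact absurd h1 (not_lt.mpr h2.le)
      rw [this, add_zero]

lemma sum_lt_symm {X : Fin k → Fin k → ℤ} (hX : ∀ i j, X i j = X j i) {f : Fin k → ℤ}
    (hf : Function.Injective f) :
    ∑ i, ∑ j, (if i < j then X i j else 0) = ∑ a, ∑ b, (if f a < f b then X a b else 0) := by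
  have h1 : ∀ i j : Fin k, (if i < j then X i j else 0) =
      (if i < j ∧ f i < f j then X i j else 0) + (if i < j ∧ f j < f i then X i j else 0) := by
    intro i j
    by_cases h : i < j
    · rcases lt_trichotomy (f i) (f j) with h2 | h2 | h2
      · simp [h, h2, not_lt.mpr h2.le]
      · exact absurd (hf h2) h.ne
      · simp [h, h2, not_lt.mpr h2.le]
    · simp [h]
  have h2 : ∀ i j : Fin k, (if f i < f j then X i j else 0) =
      (if i < j ∧ f i < f j then X i j else 0) + (if j < i ∧ f i < f j then X j i else 0) := by
    intro i j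
    rcases lt_trichotomy i j with h | h | h
    · simp [h, not_lt.mpr h.le]
    · subst h; simp
    · simp [h, not_lt.mpr h.le, hX i j]
  simp only [h1, h2, Finset.sum_add_distrib]
  congr 1
  rw [Finset.sum_comm]

lemma pc_of_lt (r : Fin k) {f g : Fin k → ℤ} (hg : Function.Injective g) {a b : Fin k}
    (h : f a < f b) : pc r f g a b = if b = r then 1 else if g b < g a then 1 else 0 := by
  have hab : a ≠ b := by rintro rfl; exact lt_irrefl _ h
  have hn : ¬ f b < f a := not_lt.mpr h.le
  unfold pc
  by_cases h1 : r = a
  · have h2 : b ≠ r := by rw [h1]; exact hab.symm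
    rw [if_pos h1, if_neg h2]
    unfold ah
    rw [if_neg hn]
    simp
  · rw [if_neg h1]
    by_cases h2 : r = b
    · rw [if_pos h2, if_pos h2.symm]
      unfold ah
      rw [if_pos h]
      split_ifs <;> simp
    · rw [if_neg h2, if_neg (Ne.symm h2)]
      unfold fl
      have : ((f a < f b ↔ g a < g b)) ↔ ¬ g b < g a := by
        constructor
        · intro h3; exact not_lt.mpr (h3.mp h).le
        · intro h3
          refine iff_of_true h (lt_of_le_of_ne (not_lt.mp h3) (fun e => hab (hg e)))
      simp only [this]
      by_cases h4 : g b < g a <;> simp [h4]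

end Pool.Agent.Lib.MP_b3fcb1_lc
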