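import Pool.Agent.Lib.MP_b3fcb1_lc.Cycle

/-!
A gadget with a positive gain gives a lower bound for all randomized algorithms.
-/

namespace Pool.Agent.Lib.MP_b3fcb1_lc

open MeasureTheory

variable {n : ℕ}

lemma Phi_ge (M : ℕ) (f : Fin n → ℤ) (ℓ : ItemList n) : -(n : ℤ) ^ 2 ≤ Phi M f ℓ := by
  unfold Phi
  have : ∀ (b : Bool) (f e : Fin n → ℤ) (x y : Fin n), (-1 : ℤ) ≤ phi b f e x y := by
    intro b f e x y
    have := fl_le_one f e x y
    unfold phi; split_ifs <;> omega
  calc -(n : ℤ) ^ 2 = ∑ x : Fin n, ∑ y : Fin n, (-1 : ℤ) := by simp [sq]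
    _ ≤ _ := Finset.sum_le_sum fun x _ => Finset.sum_le_sum fun y _ => this _ _ _ _ _

namespace Gadget

variable {k : ℕ} {G : Gadget k}

/-- the potential argument over `K` cycles -/
theorem play_bound (hG : G.Ok) (hw : ∀ i : Fin k, 0 < G.w i) (hW : 0 < G.Wt)
    (hs : 0 < pre G.w k) {G2 : ℤ} (hC : G.Cert G2) {δ : ℝ} (hδ : 0 ≤ δ) (hκ : 0 ≤ G.kap G2 δ)
    {S : List (Fin n) → Fin n → ℤ} (hS : ∀ h, Function.Injective (S h)) (K : ℕ) :
    ∀ (ℓ : ItemList n) (t : ℕ), t ≤ n → ∀ (h : List (Fin n)),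
    K * G.eps G2 δ n + (Phi (G.mOf t * pre G.w k) (S h) ℓ : ℝ) +
      G.kap G2 δ * (G.mOf t : ℝ) ^ 2 - (1 + G.kap G2 δ) * (n : ℝ) ^ 2 ≤
    G.play K ℓ t (fun L => (A2 S h (L.map Prod.fst) : ℝ) - (3 / 2 + δ) * (O2 (key ℓ) L : ℝ)) := by
  induction K with
  | zero =>
    intro ℓ t ht h
    have h1 : (Phi (G.mOf t * pre G.w k) (S h) ℓ : ℝ) ≤ (n : ℝ) ^ 2 := by
      exact_mod_cast Phi_le _ _ _
    have h2 : (G.mOf t : ℝ) ≤ n := by
      have : G.mOf t ≤ t := Nat.div_le_self _ _
      exact_mod_cast this.trans ht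
    have h3 : (G.mOf t : ℝ) ^ 2 ≤ (n : ℝ) ^ 2 := by
      apply pow_le_pow_left₀ (by positivity) h2
    have h4 := mul_le_mul_of_nonneg_left h3 hκ
    simp only [play, A2, O2, pa, pol, List.map_nil, List.length_nil, Nat.cast_zero,
      Finset.sum_const_zero, mul_zero, add_zero, Int.cast_zero, sub_zero, zero_mul]
    linarith
  | succ K ih =>
    intro ℓ t ht h
    have hD : 0 < G.Dn n := by
      unfold Dn
      have : (0 : ℝ) < G.Wt := by exact_mod_cast hW
      positivity
    set m := G.mOf t with hm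
    simp only [play]
    rw [le_div_iff₀ hD]
    have h1 := one_cycle hG hw hW hs hC hδ hκ hS ℓ t ht h
    rw [← hm] at h1
    -- each outcome
    have hstep : ∀ c o (β : Fin n → Bool),
        (((A2 S h ((lift ℓ (G.cycO m c o β)).map Prod.fst) : ℝ) -
        (3 / 2 + δ) * ((2 * ((lift ℓ (G.cycO m c o β)).length : ℤ) +
          ∑ x, ∑ y, (po x y (key ℓ) (lift ℓ (G.cycO m c o β))
            (key (G.nxt ℓ m c o β)) : ℤ) : ℤ) : ℝ)) +
        ((Phi (G.mOf (cardB β) * pre G.w k)
          (S (((lift ℓ (G.cycO m c o β)).map Prod.fst).reverse ++ h))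
          (G.nxt ℓ m c o β) : ℝ) + G.kap G2 δ * (G.mOf (cardB β) : ℝ) ^ 2)) +
        (K * G.eps G2 δ n - (1 + G.kap G2 δ) * (n : ℝ) ^ 2) ≤
        G.play K (G.nxt ℓ m c o β) (cardB β) (fun L =>
          (A2 S h ((lift ℓ (G.cycO m c o β) ++ L).map Prod.fst) : ℝ) -
          (3 / 2 + δ) * (O2 (key ℓ) (lift ℓ (G.cycO m c o β) ++ L) : ℝ)) := by
      intro c o β
      set a1 : ℝ := (A2 S h ((lift ℓ (G.cycO m c o β)).map Prod.fst) : ℝ) -
        (3 / 2 + δ) * ((2 * ((lift ℓ (G.cycO m c o β)).length : ℤ) +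
          ∑ x, ∑ y, (po x y (key ℓ) (lift ℓ (G.cycO m c o β))
            (key (G.nxt ℓ m c o β)) : ℤ) : ℤ) : ℝ) with ha1
      set h' := ((lift ℓ (G.cycO m c o β)).map Prod.fst).reverse ++ h with hh'
      have h2 := ih (G.nxt ℓ m c o β) (cardB β) (cardB_le β) h'
      have h3 : G.play K (G.nxt ℓ m c o β) (cardB β) (fun L => a1 +
          ((A2 S h' (L.map Prod.fst) : ℝ) -
            (3 / 2 + δ) * (O2 (key (G.nxt ℓ m c o β)) L : ℝ))) ≤
          G.play K (G.nxt ℓ m c o β) (cardB β) (fun L =>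
          (A2 S h ((lift ℓ (G.cycO m c o β) ++ L).map Prod.fst) : ℝ) -
          (3 / 2 + δ) * (O2 (key ℓ) (lift ℓ (G.cycO m c o β) ++ L) : ℝ)) := by
        apply play_mono hG hW
        intro L _
        rw [List.map_append, A2_append, ← hh']
        have h4 := O2_append (key ℓ) (key (G.nxt ℓ m c o β)) (lift ℓ (G.cycO m c o β)) L
        have h4' : (O2 (key ℓ) (lift ℓ (G.cycO m c o β) ++ L) : ℝ) ≤
          ((2 * ((lift ℓ (G.cycO m c o β)).length : ℤ) +
          ∑ x, ∑ y, (po x y (key ℓ) (lift ℓ (G.cycO m c o β))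
            (key (G.nxt ℓ m c o β)) : ℤ) : ℤ) : ℝ) + (O2 (key (G.nxt ℓ m c o β)) L : ℝ) := by
          exact_mod_cast h4
        have h5 := mul_le_mul_of_nonneg_left h4' (show (0 : ℝ) ≤ 3 / 2 + δ by linarith)
        rw [ha1]
        push_cast at h5 ⊢
        linarith
      rw [play_add, play_const hW] at h3
      linarith
    have h2 : (∑ c ∈ Finset.range G.N, (G.wt c : ℝ) * ∑ o : Bool, ∑ β : Fin n → Bool,
      (((A2 S h ((lift ℓ (G.cycO m c o β)).map Prod.fst) : ℝ) -
        (3 / 2 + δ) * ((2 * ((lift ℓ (G.cycO m c o β)).length : ℤ) +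
          ∑ x, ∑ y, (po x y (key ℓ) (lift ℓ (G.cycO m c o β))
            (key (G.nxt ℓ m c o β)) : ℤ) : ℤ) : ℝ)) +
      ((Phi (G.mOf (cardB β) * pre G.w k)
        (S (((lift ℓ (G.cycO m c o β)).map Prod.fst).reverse ++ h))
        (G.nxt ℓ m c o β) : ℝ) + G.kap G2 δ * (G.mOf (cardB β) : ℝ) ^ 2))) +
      (K * G.eps G2 δ n - (1 + G.kap G2 δ) * (n : ℝ) ^ 2) * G.Dn n ≤
      ∑ c ∈ Finset.range G.N, (G.wt c : ℝ) * ∑ o : Bool, ∑ β : Fin n → Bool,
        G.play K (G.nxt ℓ m c o β) (cardB β) (fun L =>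
          (A2 S h ((lift ℓ (G.cycO m c o β) ++ L).map Prod.fst) : ℝ) -
          (3 / 2 + δ) * (O2 (key ℓ) (lift ℓ (G.cycO m c o β) ++ L) : ℝ)) := by
      rw [← sum_norm, Finset.mul_sum, ← Finset.sum_add_distrib]
      apply Finset.sum_le_sum
      intro c _
      have h3 : ∑ o : Bool, ∑ β : Fin n → Bool, ((((A2 S h ((lift ℓ (G.cycO m c o β)).map
          Prod.fst) : ℝ) -
        (3 / 2 + δ) * ((2 * ((lift ℓ (G.cycO m c o β)).length : ℤ) +
          ∑ x, ∑ y, (po x y (key ℓ) (lift ℓ (G.cycO m c o β))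
            (key (G.nxt ℓ m c o β)) : ℤ) : ℤ) : ℝ)) +
        ((Phi (G.mOf (cardB β) * pre G.w k)
          (S (((lift ℓ (G.cycO m c o β)).map Prod.fst).reverse ++ h))
          (G.nxt ℓ m c o β) : ℝ) + G.kap G2 δ * (G.mOf (cardB β) : ℝ) ^ 2)) +
        (K * G.eps G2 δ n - (1 + G.kap G2 δ) * (n : ℝ) ^ 2)) ≤
        ∑ o : Bool, ∑ β : Fin n → Bool,
        G.play K (G.nxt ℓ m c o β) (cardB β) (fun L =>
          (A2 S h ((lift ℓ (G.cycO m c o β) ++ L).map Prod.fst) : ℝ) -
          (3 / 2 + δ) * (O2 (key ℓ) (lift ℓ (G.cycO m c o β) ++ L) : ℝ)) :=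
        Finset.sum_le_sum fun o _ => Finset.sum_le_sum fun β _ => hstep c o β
      have hwt : (0 : ℝ) ≤ G.wt c := by positivity
      have h4 := mul_le_mul_of_nonneg_left h3 hwt
      refine le_trans (le_of_eq ?_) h4
      simp only [Finset.sum_add_distrib, Finset.mul_sum, mul_add]
      simp only [mul_one, ← Finset.sum_mul, ← Finset.mul_sum]
      simp only [Finset.sum_const, nsmul_eq_mul]
      ring
    refine le_trans ?_ h2
    have h3 : ((K + 1 : ℕ) : ℝ) = (K : ℝ) + 1 := by push_cast; ring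
    rw [h3]
    linarith

end Gadget

/-- the list of a deterministic algorithm after the history `h` -/
def stateAfter (D : List (Fin n) → Response) (π : ItemList n) : List (Fin n) → ItemList n
  | [] => π
  | x :: h => (D (x :: h)).next x (stateAfter D π h)

lemma costFrom_ge (D : List (Fin n) → Response) (π : ItemList n) (s : List (Fin n)) :
    ∀ h : List (Fin n), A2 (fun h => key (stateAfter D π h)) h s ≤
      2 * (costFrom D h (stateAfter D π h) s : ℤ) := by
  induction s with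
  | nil => intro h; simp [A2, pa, costFrom]
  | cons x s ih =>
    intro h
    have h1 := cost_ge (D (x :: h)) x (stateAfter D π h)
    have h2 := ih (x :: h)
    have h3 : stateAfter D π (x :: h) = (D (x :: h)).next x (stateAfter D π h) := rfl
    simp only [costFrom]
    rw [← h3]
    rw [← h3] at h1
    have h4 : A2 (fun h => key (stateAfter D π h)) h (x :: s) =
        (2 + ∑ a, ∑ b, (pc x (key (stateAfter D π h)) (key (stateAfter D π (x :: h))) a b : ℤ)) +
        A2 (fun h => key (stateAfter D π h)) (x :: h) s := by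
      unfold A2
      simp only [pa, List.length_cons]
      push_cast
      simp only [Finset.sum_add_distrib]
      ring
    rw [h4]
    have h1' : (2 : ℤ) + ∑ a, ∑ b,
        (pc x (key (stateAfter D π h)) (key (stateAfter D π (x :: h))) a b : ℤ) ≤
        2 * ((D (x :: h)).cost x (stateAfter D π h) : ℤ) := by exact_mod_cast h1
    push_cast
    linarith

instance : Countable Response :=
  Function.Injective.countable (f := fun R : Response => (R.pre, R.fwd, R.post)) (by
    intro R R' h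
    cases R; cases R'
    simp only [Prod.mk.injEq] at h
    obtain ⟨rfl, rfl, rfl⟩ := h
    rfl)

instance : DiscreteMeasurableSpace Response := ⟨fun _ => trivial⟩

lemma measurable_costFrom {Ω : Type*} [MeasurableSpace Ω]
    (D : Ω → List (Fin n) → Response) (hD : ∀ h, Measurable (fun ω => D ω h))
    (s : List (Fin n)) : ∀ (h : List (Fin n)) (st : Ω → ItemList n),
    @Measurable Ω (ItemList n) _ ⊤ st → Measurable (fun ω => costFrom (D ω) h (st ω) s) := by
  let _ : MeasurableSpace (ItemList n) := ⊤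
  have _ : DiscreteMeasurableSpace (ItemList n) := ⟨fun _ => trivial⟩
  induction s with
  | nil => intro h st _; exact measurable_const
  | cons x s ih =>
    intro h st hst
    simp only [costFrom]
    have h1 : Measurable (fun ω => (D ω (x :: h), st ω)) := (hD (x :: h)).prodMk hst
    have h2 : Measurable (fun p : Response × ItemList n => p.1.cost x p.2) :=
      Measurable.of_discrete
    have h3 : Measurable (fun p : Response × ItemList n => p.1.next x p.2) :=
      Measurable.of_discrete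
    exact (h2.comp h1).add (ih (x :: h) _ (h3.comp h1))

/-- The lower bound obtained from a gadget. -/
theorem lower_bound_of {k : ℕ} {G : Gadget k} (hG : G.Ok) (hw : ∀ i : Fin k, 0 < G.w i)
    (hW : 0 < G.Wt) (hs : 0 < pre G.w k) {G2 : ℤ} (hC : G.Cert G2) {δ : ℝ} (hδ : 0 ≤ δ)
    (hκ : 0 ≤ G.kap G2 δ) (heps : 0 < G.eps G2 δ n) (A : RandAlg n) (π : ItemList n) (a : ℝ) :
    ∃ σ : List (Fin n), ENNReal.ofReal ((3 / 2 + δ) * opt π σ + a) < A.expCost π σ := by
  by_contra hcon
  push Not at hcon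
  let _ := A.mΩ
  have _ := A.prob
  set c : ℝ := 3 / 2 + δ with hc
  have hc0 : 0 ≤ c := by rw [hc]; linarith
  set f : A.Ω → List (Fin n × (Fin n → ℤ)) → ℝ :=
    fun ω L => (costFrom (A.resp ω π) [] π (L.map Prod.fst) : ℝ) with hf
  have hmeas : ∀ L, Measurable (fun ω => costFrom (A.resp ω π) [] π
      (L : List (Fin n))) := fun L =>
    measurable_costFrom (fun ω => A.resp ω π) (fun h => A.meas π h) L [] (fun _ => π)
      (@measurable_const _ _ ⊤ _ _)
  have hmeasR : ∀ L, Measurable (fun ω => f ω L) := fun L =>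
    (Measurable.of_discrete (f := fun m : ℕ => (m : ℝ))).comp (hmeas _)
  have hbound : ∀ L, ∫⁻ ω, ENNReal.ofReal (f ω L) ∂A.μ ≤
      ENNReal.ofReal (c * opt π (L.map Prod.fst) + |a|) := by
    intro L
    have h1 := hcon (L.map Prod.fst)
    unfold RandAlg.expCost at h1
    have h2 : ∀ ω, ENNReal.ofReal (f ω L) =
        (costFrom (A.resp ω π) [] π (L.map Prod.fst) : ENNReal) := by
      intro ω; simp only [hf]; exact ENNReal.ofReal_natCast _
    simp only [h2]
    refine h1.trans (ENNReal.ofReal_le_ofReal ?_)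
    have := le_abs_self a
    linarith
  have hf0 : ∀ ω L, 0 ≤ f ω L := fun ω L => by simp only [hf]; positivity
  have hint : ∀ L, Integrable (fun ω => f ω L) A.μ := by
    intro L
    refine ⟨(hmeasR L).aestronglyMeasurable, ?_⟩
    rw [hasFiniteIntegral_iff_ofReal (Filter.Eventually.of_forall fun ω => hf0 ω L)]
    exact (hbound L).trans_lt ENNReal.ofReal_lt_top
  have hintle : ∀ L, ∫ ω, f ω L ∂A.μ ≤ c * opt π (L.map Prod.fst) + |a| := by
    intro L
    rw [integral_eq_lintegral_of_nonneg_ae (Filter.Eventually.of_forall fun ω => hf0 ω L)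
      (hmeasR L).aestronglyMeasurable]
    apply ENNReal.toReal_le_of_le_ofReal _ (hbound L)
    have := abs_nonneg a
    positivity
  -- choose the number of cycles
  obtain ⟨K, hK⟩ := exists_nat_gt ((2 * |a| + (2 + G.kap G2 δ) * (n : ℝ) ^ 2) / G.eps G2 δ n)
  rw [div_lt_iff₀ heps] at hK
  obtain ⟨hi1, hi2⟩ := Gadget.play_integrable (G := G) K π 0 f hint
  -- upper bound
  have hup : ∫ ω, G.play K π 0 (f ω) ∂A.μ ≤
      c * G.play K π 0 (fun L => (opt π (L.map Prod.fst) : ℝ)) + |a| := by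
    rw [hi2]
    refine (Gadget.play_mono hG hW K π 0 _ (fun L => c * (opt π (L.map Prod.fst) : ℝ) + |a|)
      (fun L _ => hintle L)).trans (le_of_eq ?_)
    rw [Gadget.play_add, Gadget.play_const hW, Gadget.play_mul]
  -- lower bound
  set O := G.play K π 0 (fun L => (opt π (L.map Prod.fst) : ℝ)) with hO
  have hlow : ∀ ω, (K * G.eps G2 δ n - (2 + G.kap G2 δ) * (n : ℝ) ^ 2) / 2 + c * O ≤
      G.play K π 0 (f ω) := by
    intro ω
    set S : List (Fin n) → Fin n → ℤ := fun h => key (stateAfter (A.resp ω π) π h) with hS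
    have hSinj : ∀ h, Function.Injective (S h) := fun h => key_inj _
    have h1 := Gadget.play_bound hG hw hW hs hC hδ hκ hSinj K π 0 (Nat.zero_le _) []
    have h2 : G.play K π 0 (fun L => (A2 S [] (L.map Prod.fst) : ℝ) -
        (3 / 2 + δ) * (O2 (key π) L : ℝ)) ≤
        G.play K π 0 (fun L => 2 * f ω L + (-(2 * c)) * (opt π (L.map Prod.fst) : ℝ)) := by
      apply Gadget.play_mono hG hW
      intro L hL
      have h3 := costFrom_ge (A.resp ω π) π (L.map Prod.fst) []
      have h3' : (A2 S [] (L.map Prod.fst) : ℝ) ≤ 2 * f ω L := by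
        simp only [hf, hS]
        exact_mod_cast h3
      have h4 := opt_le_pol π L hL
      have h4' : 2 * (opt π (L.map Prod.fst) : ℝ) ≤ (O2 (key π) L : ℝ) := by
        unfold O2
        exact_mod_cast h4
      have h5 := mul_le_mul_of_nonneg_left h4' hc0
      rw [← hc]
      linarith
    rw [Gadget.play_add, Gadget.play_mul, Gadget.play_mul, ← hO] at h2
    have h3 : -(n : ℝ) ^ 2 ≤ (Phi (G.mOf 0 * pre G.w k) (S []) π : ℝ) := by
      exact_mod_cast Phi_ge _ _ _
    have h4 : (0 : ℝ) ≤ G.kap G2 δ * (G.mOf 0 : ℝ) ^ 2 := by positivity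
    linarith
  have hfin : (K * G.eps G2 δ n - (2 + G.kap G2 δ) * (n : ℝ) ^ 2) / 2 + c * O ≤
      ∫ ω, G.play K π 0 (f ω) ∂A.μ := by
    have h1 : ∫ _ω, ((K * G.eps G2 δ n - (2 + G.kap G2 δ) * (n : ℝ) ^ 2) / 2 + c * O) ∂A.μ ≤
        ∫ ω, G.play K π 0 (f ω) ∂A.μ :=
      integral_mono (integrable_const _) hi1 hlow
    simpa using h1
  have := hfin.trans hup
  linarith

end Pool.Agent.Lib.MP_b3fcb1_lc
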