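import Mathlib

/-!
The list update problem in the standard (full cost) model: lists, exchanges, online algorithms,
the offline optimum, and randomized algorithms against an oblivious adversary.
-/

namespace Pool.Agent.Lib.MP_b3fcb1_lc

open MeasureTheory

/-- A linear list of the `n` items `Fin n`: `π x` is the position of the item `x`, positions being
counted from `0` at the front. -/
abbrev ItemList (n : ℕ) : Type := Equiv.Perm (Fin n)

/-- Exchange the two items at the adjacent positions `i` and `i + 1` (counted from `0`); if
`i + 1` is not a position of the list, nothing happens. -/
def exchange {n : ℕ} (i : ℕ) (π : ItemList n) : ItemList n :=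
  if h : i + 1 < n then π.trans (Equiv.swap ⟨i, Nat.lt_of_succ_lt h⟩ ⟨i + 1, h⟩) else π

/-- Perform the exchanges listed in `l`, one after the other. -/
def exchanges {n : ℕ} (l : List ℕ) (π : ItemList n) : ItemList n :=
  l.foldl (fun ρ i => exchange i ρ) π

/-- Move the item `x` by `k` positions towards the front (or to the very front, if fewer than `k`
items are ahead of it): `k` times, `x` changes places with the item directly in front of it. -/
def forward {n : ℕ} (x : Fin n) : ℕ → ItemList n → ItemList n
  | 0, π => π
  | k + 1, π => if (π x : ℕ) = 0 then π else forward x k (exchange ((π x : ℕ) - 1) π)

/-- What an algorithm does on a request: paid exchanges before the access, the number of positions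
by which the accessed item is moved (free of charge) towards the front immediately after the
access, and paid exchanges after that. -/
structure Response where
  /-- the paid exchanges before the access -/
  pre : List ℕ
  /-- the free move of the accessed item -/
  fwd : ℕ
  /-- the paid exchanges after the access -/
  post : List ℕ

instance : MeasurableSpace Response := ⊤

/-- The list after the request `x` has been served with the response `R`. -/
def Response.next {n : ℕ} (R : Response) (x : Fin n) (π : ItemList n) : ItemList n :=
  exchanges R.post (forward x R.fwd (exchanges R.pre π))

/-- The cost of serving the request `x` with the response `R` from the list `π`: one for every paid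
exchange, and the position (counted from `1`) of `x` at the time of the access. -/
def Response.cost {n : ℕ} (R : Response) (x : Fin n) (π : ItemList n) : ℕ :=
  R.pre.length + (((exchanges R.pre π x : Fin n) : ℕ) + 1) + R.post.length

/-- Total cost of serving the requests in the list, from the list state `π`, when the requests in
`h` (the latest one first) have already been served: the response to a request is `D` applied to
the list of all requests so far, this one included, the latest one first. -/
def costFrom {n : ℕ} (D : List (Fin n) → Response) :
    List (Fin n) → ItemList n → List (Fin n) → ℕ
  | _, _, [] => 0
  | h, π, x :: σ => (D (x :: h)).cost x π + costFrom D (x :: h) ((D (x :: h)).next x π) σ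

/-- The optimal offline cost of the request sequence `σ` from the initial list `π`: the least cost
over all ways `F` of choosing the responses (`F t` is the response to the `t`-th request). -/
noncomputable def opt {n : ℕ} (π : ItemList n) (σ : List (Fin n)) : ℕ :=
  ⨅ F : ℕ → Response, costFrom (fun h => F h.length) [] π σ

/-- A randomized online algorithm for lists of `n` items: a probability space of random choices
and, for every random choice `ω`, a response to every initial list and every history of requests
(the latest request first), depending measurably on `ω`. -/
structure RandAlg.{u} (n : ℕ) where
  /-- the random choices -/
  Ω : Type u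
  /-- the events -/
  mΩ : MeasurableSpace Ω
  /-- their distribution -/
  μ : @Measure Ω mΩ
  /-- it is a probability distribution -/
  prob : @IsProbabilityMeasure Ω mΩ μ
  /-- the responses -/
  resp : Ω → ItemList n → List (Fin n) → Response
  /-- measurability -/
  meas : ∀ π h, @Measurable Ω Response mΩ ⊤ (fun ω => resp ω π h)

/-- The expected total cost of a randomized algorithm on `σ`, from the initial list `π`. -/
noncomputable def RandAlg.expCost {n : ℕ} (A : RandAlg n) (π : ItemList n) (σ : List (Fin n)) :
    ENNReal :=
  @lintegral A.Ω A.mΩ A.μ (fun ω => (costFrom (A.resp ω π) [] π σ : ENNReal))

/-- The family `A` (one algorithm for every list length) is `c`-competitive against oblivious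
adversaries: there is one additive constant for all list lengths, initial lists and request
sequences. -/
def Competitive (c : ℝ) (A : ∀ n : ℕ, RandAlg n) : Prop :=
  ∃ a : ℝ, ∀ (n : ℕ) (π : ItemList n) (σ : List (Fin n)),
    (A n).expCost π σ ≤ ENNReal.ofReal (c * opt π σ + a)

end Pool.Agent.Lib.MP_b3fcb1_lc
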