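import Pool.Agent.Lib.MP_b3fcb1_lc.Seq

/-!
The noise phase: all items are requested in a given order, each of them one or three times.
-/

namespace Pool.Agent.Lib.MP_b3fcb1_lc

section general

variable {ι : Type*} [DecidableEq ι]

omit [DecidableEq ι] in
lemma split_pair {κ : ι → ℤ} {l : List ι} (hp : l.Pairwise (fun a b => κ a < κ b)) {x y : ι}
    (hx : x ∈ l) (hy : y ∈ l) (h : κ x < κ y) :
    ∃ A B C, l = A ++ x :: (B ++ y :: C) ∧ (∀ a ∈ A, κ a < κ x) ∧
      (∀ b ∈ B, κ x < κ b ∧ κ b < κ y) ∧ (∀ c ∈ C, κ y < κ c) := by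
  obtain ⟨A, D, rfl⟩ := List.append_of_mem hx
  rw [List.pairwise_append] at hp
  obtain ⟨_, hp2, hp3⟩ := hp
  rw [List.pairwise_cons] at hp2
  obtain ⟨hp4, hp5⟩ := hp2
  have hyD : y ∈ D := by
    rcases List.mem_append.mp hy with h1 | h1
    · exact absurd (hp3 y h1 x (by simp)) (by omega)
    · rcases List.mem_cons.mp h1 with h2 | h2
      · subst h2; exact absurd h (lt_irrefl _)
      · exact h2
  obtain ⟨B, C, rfl⟩ := List.append_of_mem hyD
  rw [List.pairwise_append] at hp5
  obtain ⟨_, hp7, hp8⟩ := hp5
  rw [List.pairwise_cons] at hp7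
  refine ⟨A, B, C, rfl, ?_, ?_, ?_⟩
  · intro a ha; exact hp3 a ha x (by simp)
  · intro b hb; exact ⟨hp4 b (by simp [hb]), hp8 b hb y (by simp)⟩
  · intro c hc; exact hp7.1 c hc

lemma po_start (x y : ι) (f g : ι → ℤ) (L : List (ι × (ι → ℤ))) (e : ι → ℤ) :
    po x y f L e ≤ fl f g x y + po x y g L e := by
  cases L with
  | nil => exact fl_tri f g e x y
  | cons p L =>
    simp only [po]
    have := fl_tri f g p.2 x y
    omega

lemma po_append (x y : ι) (g e : ι → ℤ) (L L' : List (ι × (ι → ℤ))) : ∀ f : ι → ℤ,
    po x y f (L ++ L') e ≤ po x y f L g + po x y g L' e := by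
  induction L with
  | nil => intro f; exact po_start x y f g L' e
  | cons p L ih =>
    intro f
    simp only [List.cons_append, po]
    have := ih p.2
    omega

lemma po_symm (x y : ι) (e : ι → ℤ) (he : Function.Injective e) (L : List (ι × (ι → ℤ))) :
    (∀ p ∈ L, Function.Injective p.2) → ∀ f : ι → ℤ, Function.Injective f →
    po x y f L e = po y x f L e := by
  induction L with
  | nil => intro _ f hf; exact fl_symm hf he x y
  | cons p L ih =>
    intro hL f hf
    simp only [po]
    have hp : Function.Injective p.2 := hL p (by simp)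
    rw [ih (fun q hq => hL q (by simp [hq])) p.2 hp, fl_symm hf hp, acc_symm]

/-- a segment in which the offline algorithm never changes the order of the pair -/
lemma po_const (x y : ι) (g e : ι → ℤ) (L : List (ι × (ι → ℤ))) :
    (∀ p ∈ L, (p.2 x < p.2 y ↔ g x < g y) ∧ (p.2 y < p.2 x ↔ g y < g x)) → ∀ f : ι → ℤ,
    po x y f L e ≤ fl f g x y + (L.map Prod.fst).count x * ah g y x +
      (L.map Prod.fst).count y * ah g x y + fl g e x y := by
  induction L with
  | nil =>
    intro _ f
    have := fl_tri f g e x y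
    simp only [po, List.map_nil, List.count_nil]; omega
  | cons p L ih =>
    intro hL f
    have h1 := hL p (by simp)
    have h2 := ih (fun q hq => hL q (by simp [hq])) p.2
    simp only [po, List.map_cons, List.count_cons]
    have h3 : fl f p.2 x y = fl f g x y := fl_congr_right h1.1
    have h4 : fl p.2 g x y = 0 := by unfold fl; rw [if_pos h1.1]
    have h5 : acc p.1 p.2 x y = (if p.1 = x then 1 else 0) * ah g y x +
        (if p.1 = y then 1 else 0) * ah g x y := by
      unfold acc
      rw [ah_congr h1.1, ah_congr h1.2]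
      split_ifs <;> simp
    rw [h4] at h2
    rw [h3, h5]
    simp only [beq_iff_eq]
    calc fl f g x y + ((if p.1 = x then 1 else 0) * ah g y x +
        (if p.1 = y then 1 else 0) * ah g x y) + po x y p.2 L e
        ≤ fl f g x y + ((if p.1 = x then 1 else 0) * ah g y x +
        (if p.1 = y then 1 else 0) * ah g x y) + (0 + List.count x (List.map Prod.fst L) * ah g y x +
          List.count y (List.map Prod.fst L) * ah g x y + fl g e x y) := by omega
      _ = _ := by ring

end general

section sorted

variable {n : ℕ}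

/-- the items in the order given by `κ` -/
def srt (κ : Fin n → ℤ) : List (Fin n) := (List.finRange n).map (permOf κ).symm

lemma mem_srt (κ : Fin n → ℤ) (r : Fin n) : r ∈ srt κ := by
  unfold srt
  rw [List.mem_map]
  exact ⟨permOf κ r, List.mem_finRange _, by simp⟩

lemma srt_pairwise {κ : Fin n → ℤ} (hκ : Function.Injective κ) :
    (srt κ).Pairwise (fun a b => κ a < κ b) := by
  unfold srt
  rw [List.pairwise_map]
  have h := List.pairwise_lt_finRange n
  refine h.imp ?_
  intro a b hab
  rw [← permOf_lt hκ, key_lt]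
  simpa using hab

lemma length_srt (κ : Fin n → ℤ) : (srt κ).length = n := by simp [srt]

/-- the requests of the noise phase -/
def noiseReq (κR : Fin n → ℤ) (β : Fin n → Bool) : List (Fin n) :=
  (srt κR).flatMap (fun r => rep (β r) r)

/-- the list of the offline algorithm when `r` is requested -/
def noiseSt (κR κs : Fin n → ℤ) (β : Fin n → Bool) (r : Fin n) : Fin n → ℤ :=
  fun y => if β y = true ∧ κR y ≤ κR r then -κR y - 1 else κs y

/-- the list of the offline algorithm after the noise phase -/
def noiseEnd (κR κs : Fin n → ℤ) (β : Fin n → Bool) : Fin n → ℤ :=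
  fun y => if β y = true then -κR y - 1 else κs y

/-- the offline strategy for the noise phase -/
def noiseO (κR κs : Fin n → ℤ) (β : Fin n → Bool) : List (Fin n × (Fin n → ℤ)) :=
  (srt κR).flatMap (fun r => (rep (β r) r).map (fun r' => (r', noiseSt κR κs β r)))

lemma noiseO_fst (κR κs : Fin n → ℤ) (β : Fin n → Bool) :
    (noiseO κR κs β).map Prod.fst = noiseReq κR β := by
  unfold noiseO noiseReq
  rw [List.map_flatMap]
  congr 1
  funext r
  simp [Function.comp_def]

lemma noiseReq_length (κR : Fin n → ℤ) (β : Fin n → Bool) :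
    (noiseReq κR β).length ≤ 3 * n := by
  unfold noiseReq
  rw [List.length_flatMap]
  have : ((srt κR).map (fun r => (rep (β r) r).length)).sum ≤ (srt κR).length • 3 := by
    rw [← List.length_map (f := fun r => (rep (β r) r).length)]
    apply List.sum_le_card_nsmul
    intro a ha
    rw [List.mem_map] at ha
    obtain ⟨r, _, rfl⟩ := ha
    unfold rep; split_ifs <;> simp
  rw [length_srt] at this
  simp only [smul_eq_mul] at this
  omega

lemma noiseSt_inj {κR κs : Fin n → ℤ} (hR : Function.Injective κR) (hs : Function.Injective κs)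
    (hR0 : ∀ y, 0 ≤ κR y) (hs0 : ∀ y, 0 ≤ κs y) (β : Fin n → Bool) (r : Fin n) :
    Function.Injective (noiseSt κR κs β r) := by
  intro x y hxy
  unfold noiseSt at hxy
  have a1 := hR0 x; have a2 := hR0 y; have a3 := hs0 x; have a4 := hs0 y
  split_ifs at hxy with h1 h2 h2
  · exact hR (by omega)
  · omega
  · omega
  · exact hs hxy

lemma noiseEnd_inj {κR κs : Fin n → ℤ} (hR : Function.Injective κR) (hs : Function.Injective κs)
    (hR0 : ∀ y, 0 ≤ κR y) (hs0 : ∀ y, 0 ≤ κs y) (β : Fin n → Bool) :
    Function.Injective (noiseEnd κR κs β) := by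
  intro x y hxy
  unfold noiseEnd at hxy
  have a1 := hR0 x; have a2 := hR0 y; have a3 := hs0 x; have a4 := hs0 y
  split_ifs at hxy with h1 h2 h2
  · exact hR (by omega)
  · omega
  · omega
  · exact hs hxy

lemma noiseO_inj {κR κs : Fin n → ℤ} (hR : Function.Injective κR) (hs : Function.Injective κs)
    (hR0 : ∀ y, 0 ≤ κR y) (hs0 : ∀ y, 0 ≤ κs y) (β : Fin n → Bool) :
    ∀ p ∈ noiseO κR κs β, Function.Injective p.2 := by
  intro p hp
  unfold noiseO at hp
  rw [List.mem_flatMap] at hp
  obtain ⟨r, _, hr⟩ := hp
  rw [List.mem_map] at hr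
  obtain ⟨r', _, rfl⟩ := hr
  exact noiseSt_inj hR hs hR0 hs0 β r

lemma rep_count (b : Bool) (r x : Fin n) :
    (rep b r).count x = if r = x then (if b then 3 else 1) else 0 := by
  unfold rep
  by_cases h : r = x
  · subst h; cases b <;> simp
  · cases b <;> simp [h]

/-- offline cost of the noise phase for a pair, `u` being requested before `v`. -/
lemma noise_po_aux {κR κs : Fin n → ℤ} (hR : Function.Injective κR) (hs : Function.Injective κs)
    (hR0 : ∀ y, 0 ≤ κR y) (hs0 : ∀ y, 0 ≤ κs y) (β : Fin n → Bool) (u v : Fin n)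
    (huv : κR u < κR v) :
    po u v κs (noiseO κR κs β) (noiseEnd κR κs β) ≤
      1 + (if β u = true then fl κR κs u v else 0) := by
  have hne : u ≠ v := by rintro rfl; exact lt_irrefl _ huv
  obtain ⟨A, B, C, hl, hA, hB, hC⟩ := split_pair (srt_pairwise hR) (mem_srt κR u) (mem_srt κR v) huv
  set seg : Fin n → List (Fin n × (Fin n → ℤ)) :=
    fun r => (rep (β r) r).map (fun r' => (r', noiseSt κR κs β r)) with hseg
  have hO : noiseO κR κs β = A.flatMap seg ++ ((seg u ++ B.flatMap seg) ++
      (seg v ++ C.flatMap seg)) := by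
    unfold noiseO
    rw [hl]
    simp [hseg, List.flatMap_append, List.append_assoc]
  have hmem : ∀ (l : List (Fin n)) (p : Fin n × (Fin n → ℤ)), p ∈ l.flatMap seg →
      ∃ r ∈ l, p = (r, noiseSt κR κs β r) := by
    intro l p hp
    rw [List.mem_flatMap] at hp
    obtain ⟨r, hr, hp⟩ := hp
    refine ⟨r, hr, ?_⟩
    rw [hseg] at hp
    simp only [List.mem_map] at hp
    obtain ⟨r', hr', rfl⟩ := hp
    have : r' = r := by
      unfold rep at hr'
      split_ifs at hr' <;> simpa using hr'
    rw [this]
  have hmem1 : ∀ (r : Fin n) (p : Fin n × (Fin n → ℤ)), p ∈ seg r →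
      p = (r, noiseSt κR κs β r) := by
    intro r p hp
    have := hmem [r] p (by simpa using hp)
    obtain ⟨r', hr', rfl⟩ := this
    simp at hr'; rw [hr']
  have hcount : ∀ (l : List (Fin n)) (z : Fin n), (∀ r ∈ l, r ≠ z) →
      ((l.flatMap seg).map Prod.fst).count z = 0 := by
    intro l z hz
    rw [List.count_eq_zero]
    intro hcon
    rw [List.mem_map] at hcon
    obtain ⟨p, hp, rfl⟩ := hcon
    obtain ⟨r, hr, rfl⟩ := hmem l p hp
    exact hz r hr rfl
  have hcount1 : ∀ (r z : Fin n), ((seg r).map Prod.fst).count z =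
      if r = z then (if β r = true then 3 else 1) else 0 := by
    intro r z
    have : (seg r).map Prod.fst = rep (β r) r := by
      rw [hseg]; simp [Function.comp_def]
    rw [this, rep_count]
  -- the three lists
  set g1 : Fin n → ℤ := noiseSt κR κs β u with hg1
  set g2 : Fin n → ℤ := noiseEnd κR κs β with hg2
  have a1 := hR0 u; have a2 := hR0 v; have a3 := hs0 u; have a4 := hs0 v
  have hsuv : κs u ≠ κs v := fun e => hne (hs e)
  have s1 : po u v κs (A.flatMap seg) κs ≤ 0 := by
    have := po_const u v κs κs (A.flatMap seg) (by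
      intro p hp
      obtain ⟨r, hr, rfl⟩ := hmem A p hp
      have h1 := hA r hr
      simp only [noiseSt]
      have e1 : ¬ (β u = true ∧ κR u ≤ κR r) := by rintro ⟨_, h⟩; omega
      have e2 : ¬ (β v = true ∧ κR v ≤ κR r) := by rintro ⟨_, h⟩; omega
      simp [e1, e2]) κs
    rw [hcount A u (fun r hr e => by have := hA r hr; rw [e] at this; omega),
      hcount A v (fun r hr e => by have := hA r hr; rw [e] at this; omega), fl_same] at this
    simpa using this
  have s2 : po u v κs (seg u ++ B.flatMap seg) g1 ≤ fl κs g1 u v +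
      (if β u = true then 3 else 1) * ah g1 v u := by
    have := po_const u v g1 g1 (seg u ++ B.flatMap seg) (by
      intro p hp
      have hp' : ∃ r, κR u ≤ κR r ∧ κR r < κR v ∧ p = (r, noiseSt κR κs β r) := by
        rcases List.mem_append.mp hp with hp | hp
        · exact ⟨u, le_rfl, huv, hmem1 u p hp⟩
        · obtain ⟨r, hr, rfl⟩ := hmem B p hp
          exact ⟨r, (hB r hr).1.le, (hB r hr).2, rfl⟩
      obtain ⟨r, hr1, hr2, rfl⟩ := hp'
      simp only [hg1, noiseSt]
      have e2 : ¬ (β v = true ∧ κR v ≤ κR r) := by rintro ⟨_, h⟩; omega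
      have e3 : ¬ (β v = true ∧ κR v ≤ κR u) := by rintro ⟨_, h⟩; omega
      simp [e2, e3, hr1]) κs
    rw [List.map_append, List.count_append, List.count_append, hcount1, hcount1,
      hcount B u (fun r hr e => by have := (hB r hr).1; rw [e] at this; omega),
      hcount B v (fun r hr e => by have := (hB r hr).2; rw [e] at this; omega), fl_same,
      if_pos rfl, if_neg hne] at this
    simpa using this
  have s3 : po u v g1 (seg v ++ C.flatMap seg) g2 ≤ fl g1 g2 u v +
      (if β v = true then 3 else 1) * ah g2 u v := by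
    have := po_const u v g2 g2 (seg v ++ C.flatMap seg) (by
      intro p hp
      have hp' : ∃ r, κR v ≤ κR r ∧ p = (r, noiseSt κR κs β r) := by
        rcases List.mem_append.mp hp with hp | hp
        · exact ⟨v, le_rfl, hmem1 v p hp⟩
        · obtain ⟨r, hr, rfl⟩ := hmem C p hp
          exact ⟨r, (hC r hr).le, rfl⟩
      obtain ⟨r, hr1, rfl⟩ := hp'
      simp only [hg2, noiseSt, noiseEnd]
      have e1 : κR u ≤ κR r := by omega
      simp [e1, hr1]) g1
    rw [List.map_append, List.count_append, List.count_append, hcount1, hcount1,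
      hcount C u (fun r hr e => by have := hC r hr; rw [e] at this; omega),
      hcount C v (fun r hr e => by have := hC r hr; rw [e] at this; omega), fl_same,
      if_pos rfl, if_neg hne.symm] at this
    simpa using this
  have t1 := po_append u v κs g2 (A.flatMap seg) ((seg u ++ B.flatMap seg) ++
      (seg v ++ C.flatMap seg)) κs
  have t2 := po_append u v g1 g2 (seg u ++ B.flatMap seg) (seg v ++ C.flatMap seg) κs
  rw [← hO] at t1
  have hfin : fl κs g1 u v + (if β u = true then 3 else 1) * ah g1 v u +
      (fl g1 g2 u v + (if β v = true then 3 else 1) * ah g2 u v) ≤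
      1 + (if β u = true then fl κR κs u v else 0) := by
    have e3 : ¬ (β v = true ∧ κR v ≤ κR u) := by rintro ⟨_, h⟩; omega
    have g1v : g1 v = κs v := by rw [hg1]; simp only [noiseSt]; rw [if_neg e3]
    cases hbu : β u <;> cases hbv : β v
    · have g1u : g1 u = κs u := by rw [hg1]; simp [noiseSt, hbu]
      have g2u : g2 u = κs u := by rw [hg2]; simp [noiseEnd, hbu]
      have g2v : g2 v = κs v := by rw [hg2]; simp [noiseEnd, hbv]
      unfold fl ah
      simp only [g1u, g1v, g2u, g2v, Bool.false_eq_true, if_false, if_true]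
      split_ifs <;> omega
    · have g1u : g1 u = κs u := by rw [hg1]; simp [noiseSt, hbu]
      have g2u : g2 u = κs u := by rw [hg2]; simp [noiseEnd, hbu]
      have g2v : g2 v = -κR v - 1 := by rw [hg2]; simp [noiseEnd, hbv]
      unfold fl ah
      simp only [g1u, g1v, g2u, g2v, Bool.false_eq_true, if_false, if_true]
      split_ifs <;> omega
    · have g1u : g1 u = -κR u - 1 := by rw [hg1]; simp [noiseSt, hbu]
      have g2u : g2 u = -κR u - 1 := by rw [hg2]; simp [noiseEnd, hbu]
      have g2v : g2 v = κs v := by rw [hg2]; simp [noiseEnd, hbv]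
      unfold fl ah
      simp only [g1u, g1v, g2u, g2v, Bool.false_eq_true, if_false, if_true]
      split_ifs <;> omega
    · have g1u : g1 u = -κR u - 1 := by rw [hg1]; simp [noiseSt, hbu]
      have g2u : g2 u = -κR u - 1 := by rw [hg2]; simp [noiseEnd, hbu]
      have g2v : g2 v = -κR v - 1 := by rw [hg2]; simp [noiseEnd, hbv]
      unfold fl ah
      simp only [g1u, g1v, g2u, g2v, if_true]
      split_ifs <;> omega
  omega

end sorted

end Pool.Agent.Lib.MP_b3fcb1_lc
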