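import Pool.Agent.Lib.MP_b3fcb1_lc.Noise

/-!
The noise phase: sums over all the random bits.
-/

namespace Pool.Agent.Lib.MP_b3fcb1_lc

variable {n : ℕ}

lemma sum_update1 (F : (Fin n → Bool) → ℤ) (u : Fin n) :
    ∑ β : Fin n → Bool, ∑ a : Bool, F (Function.update β u a) = 2 * ∑ β, F β := by
  set flip : (Fin n → Bool) → (Fin n → Bool) := fun β => Function.update β u (!β u) with hflip
  have hinv : Function.Involutive flip := by
    intro β
    simp only [hflip, Function.update_self, Bool.not_not, Function.update_idem,
      Function.update_eq_self]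
  have h1 : ∀ β : Fin n → Bool, ∑ a : Bool, F (Function.update β u a) = F β + F (flip β) := by
    intro β
    rw [Fintype.sum_bool]
    cases hb : β u
    · have e1 : Function.update β u false = β := by rw [← hb]; exact Function.update_eq_self u β
      have e2 : flip β = Function.update β u true := by simp [hflip, hb]
      rw [e1, e2]; ring
    · have e1 : Function.update β u true = β := by rw [← hb]; exact Function.update_eq_self u β
      have e2 : flip β = Function.update β u false := by simp [hflip, hb]
      rw [e1, e2]
  simp only [h1, Finset.sum_add_distrib]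
  have h2 : ∑ β, F (flip β) = ∑ β, F β := Equiv.sum_comp (hinv.toPerm flip) F
  rw [h2]; ring

lemma sum_update2 (F : (Fin n → Bool) → ℤ) (u v : Fin n) :
    ∑ β : Fin n → Bool, ∑ a : Bool, ∑ b : Bool,
      F (Function.update (Function.update β u a) v b) = 4 * ∑ β, F β := by
  have h1 := sum_update1 (fun β => ∑ b : Bool, F (Function.update β v b)) u
  rw [h1, sum_update1]; ring

lemma card_bits : ((Fintype.card (Fin n → Bool) : ℕ) : ℤ) = 2 ^ n := by simp

/-- total offline cost of the noise phase for a pair -/
lemma noise_po {κR κs : Fin n → ℤ} (hR : Function.Injective κR) (hs : Function.Injective κs)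
    (hR0 : ∀ y, 0 ≤ κR y) (hs0 : ∀ y, 0 ≤ κs y) {x y : Fin n} (hxy : x ≠ y) :
    ∑ β : Fin n → Bool, (2 * (po x y κs (noiseO κR κs β) (noiseEnd κR κs β) : ℤ)) ≤
      2 ^ n * (2 + (fl κR κs x y : ℤ)) := by
  have main : ∀ u v : Fin n, κR u < κR v →
      ∑ β : Fin n → Bool, (2 * (po u v κs (noiseO κR κs β) (noiseEnd κR κs β) : ℤ)) ≤
      2 ^ n * (2 + (fl κR κs u v : ℤ)) := by
    intro u v huv
    have h1 := sum_update1
      (fun β => (2 * (po u v κs (noiseO κR κs β) (noiseEnd κR κs β) : ℤ))) u
    have h2 : ∀ β : Fin n → Bool, ∑ a : Bool,
        (2 * (po u v κs (noiseO κR κs (Function.update β u a))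
          (noiseEnd κR κs (Function.update β u a)) : ℤ)) ≤ 4 + 2 * (fl κR κs u v : ℤ) := by
      intro β
      rw [Fintype.sum_bool]
      have a1 := noise_po_aux hR hs hR0 hs0 (Function.update β u true) u v huv
      have a2 := noise_po_aux hR hs hR0 hs0 (Function.update β u false) u v huv
      simp only [Function.update_self, if_true, Bool.false_eq_true, if_false] at a1 a2
      omega
    have h3 := Finset.sum_le_sum fun β (_ : β ∈ Finset.univ) => h2 β
    rw [h1] at h3
    simp only [Finset.sum_const, Finset.card_univ, nsmul_eq_mul, card_bits] at h3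
    linarith
  rcases lt_trichotomy (κR x) (κR y) with h | h | h
  · exact main x y h
  · exact absurd (hR h) hxy
  · have := main y x h
    have e : ∀ β, po x y κs (noiseO κR κs β) (noiseEnd κR κs β) =
        po y x κs (noiseO κR κs β) (noiseEnd κR κs β) := fun β =>
      po_symm x y _ (noiseEnd_inj hR hs hR0 hs0 β) _ (noiseO_inj hR hs hR0 hs0 β) κs hs
    simp only [e, fl_symm hR hs x y]
    exact this

lemma phi_symm (sg : Bool) {f e : Fin n → ℤ} (hf : Function.Injective f)
    (he : Function.Injective e) (x y : Fin n) : phi sg f e x y = phi sg e f y x := by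
  unfold phi
  rw [fl_symm hf he, fl_comm]

lemma phi_symm' (sg : Bool) {f e : Fin n → ℤ} (hf : Function.Injective f)
    (he : Function.Injective e) (x y : Fin n) : phi sg f e x y = phi sg f e y x := by
  unfold phi
  rw [fl_symm hf he]

/-- total online cost of the noise phase for a pair -/
lemma noise_pa {S : List (Fin n) → Fin n → ℤ} (hS : ∀ h, Function.Injective (S h))
    {κR κs : Fin n → ℤ} (hR : Function.Injective κR) (hs : Function.Injective κs)
    (hR0 : ∀ y, 0 ≤ κR y) (hs0 : ∀ y, 0 ≤ κs y) {x y : Fin n} (hxy : x ≠ y) (h : List (Fin n)) :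
    2 ^ n * (6 + 4 * (fl (S h) κR x y : ℤ) - fl κR κs x y) ≤
    4 * ∑ β : Fin n → Bool, ((pa S x y h (noiseReq κR β) : ℤ) +
      phi (β x && β y) (S ((noiseReq κR β).reverse ++ h)) (noiseEnd κR κs β) x y) := by
  have main : ∀ u v : Fin n, κR u < κR v →
      2 ^ n * (6 + 4 * (fl (S h) κR u v : ℤ) - fl κR κs u v) ≤
      4 * ∑ β : Fin n → Bool, ((pa S u v h (noiseReq κR β) : ℤ) +
      phi (β u && β v) (S ((noiseReq κR β).reverse ++ h)) (noiseEnd κR κs β) u v) := by
    intro u v huv
    have hne : u ≠ v := by rintro rfl; exact lt_irrefl _ huv
    obtain ⟨A, B, C, hl, hA, hB, hC⟩ :=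
      split_pair (srt_pairwise hR) (mem_srt κR u) (mem_srt κR v) huv
    rw [← sum_update2 _ u v]
    have hb : ∀ β : Fin n → Bool, 6 + 4 * (fl (S h) κR u v : ℤ) - fl κR κs u v ≤
        ∑ a : Bool, ∑ b : Bool, ((pa S u v h (noiseReq κR
          (Function.update (Function.update β u a) v b)) : ℤ) +
        phi (Function.update (Function.update β u a) v b u &&
            Function.update (Function.update β u a) v b v)
          (S ((noiseReq κR (Function.update (Function.update β u a) v b)).reverse ++ h))
          (noiseEnd κR κs (Function.update (Function.update β u a) v b)) u v) := by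
      intro β
      set G : List (Fin n) → List (Fin n) := fun l => l.flatMap (fun r => rep (β r) r) with hG
      have hreq : ∀ a b, noiseReq κR (Function.update (Function.update β u a) v b) =
          G A ++ (rep a u ++ (G B ++ (rep b v ++ G C))) := by
        intro a b
        unfold noiseReq
        rw [hl]
        have hseg : ∀ l : List (Fin n), u ∉ l → v ∉ l → l.flatMap (fun r =>
            rep (Function.update (Function.update β u a) v b r) r) = G l := by
          intro l hu hv
          simp only [hG]
          rw [List.flatMap_def, List.flatMap_def]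
          congr 1
          apply List.map_congr_left
          intro r hr
          have e1 : r ≠ v := fun e => hv (e ▸ hr)
          have e2 : r ≠ u := fun e => hu (e ▸ hr)
          rw [Function.update_of_ne e1, Function.update_of_ne e2]
        rw [List.flatMap_append, List.flatMap_cons, List.flatMap_append, List.flatMap_cons]
        rw [hseg A (fun hc => lt_irrefl _ (hA u hc)) (fun hc => lt_irrefl _ ((hA v hc).trans huv)),
          hseg B (fun hc => lt_irrefl _ (hB u hc).1) (fun hc => lt_irrefl _ (hB v hc).2),
          hseg C (fun hc => lt_irrefl _ ((hC u hc).trans huv)) (fun hc => lt_irrefl _ (hC v hc))]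
        rw [Function.update_of_ne hne, Function.update_self, Function.update_self]
      simp only [hreq, Function.update_of_ne hne, Function.update_self]
      have a1 := hR0 u; have a2 := hR0 v; have a3 := hs0 u; have a4 := hs0 v
      have np := noise_pair hS hne (G A) (G B) (G C) h
        (fun a b => noiseEnd κR κs (Function.update (Function.update β u a) v b))
        (by simp [noiseEnd, Function.update_of_ne hne]; omega)
        (by simp [noiseEnd, Function.update_of_ne hne]; omega)
        (by simp [noiseEnd, Function.update_of_ne hne]; omega)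
      have e00 : ∀ z, z = u ∨ z = v → noiseEnd κR κs
          (Function.update (Function.update β u false) v false) z = κs z := by
        rintro z (rfl | rfl)
        · simp [noiseEnd, Function.update_of_ne hne]
        · simp [noiseEnd]
      rw [e00 u (Or.inl rfl), e00 v (Or.inr rfl)] at np
      have f1 : fl (S h) κR u v = ah (S h) v u := by
        have s0 := ah_add (hS h) hne
        unfold fl ah at *
        simp only [huv, iff_true]
        split_ifs at * <;> omega
      rw [f1]
      by_cases hc : κs u < κs v
      · have f2 : fl κR κs u v = 0 := by unfold fl; simp [huv, hc]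
        rw [f2]
        have := np.1 hc
        push_cast at this ⊢
        linarith
      · have f2 : fl κR κs u v = 1 := by unfold fl; simp [huv, hc]
        rw [f2]
        have := np.2 hc
        push_cast at this ⊢
        linarith
    have h3 := Finset.sum_le_sum fun β (_ : β ∈ Finset.univ) => hb β
    rw [Finset.sum_const, Finset.card_univ, nsmul_eq_mul, card_bits] at h3
    exact h3
  rcases lt_trichotomy (κR x) (κR y) with hlt | hlt | hlt
  · exact main x y hlt
  · exact absurd (hR hlt) hxy
  · have := main y x hlt
    rw [fl_symm (hS h) hR x y, fl_symm hR hs x y]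
    refine this.trans (le_of_eq ?_)
    congr 1
    apply Finset.sum_congr rfl
    intro β _
    rw [pa_symm hS x y, Bool.and_comm,
      phi_symm' _ (hS _) (noiseEnd_inj hR hs hR0 hs0 β) x y]

end Pool.Agent.Lib.MP_b3fcb1_lc
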