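import Pool.Agent.Lib.MP_b3fcb1_lc.Pair

/-!
Upper bounds for the offline optimum: any sequence of lists can be followed by paid exchanges.
-/

namespace Pool.Agent.Lib.MP_b3fcb1_lc

lemma adj_inversion {n : ℕ} (π ρ : ItemList n) : ∀ (d : ℕ) (x y : Fin n), π x < π y → ρ y < ρ x →
    (π y : ℕ) - (π x : ℕ) ≤ d → ∃ a b, (π b : ℕ) = (π a : ℕ) + 1 ∧ ρ b < ρ a := by
  intro d
  induction d with
  | zero =>
    intro x y h1 _ h3
    rw [Fin.lt_def] at h1; omega
  | succ d ih =>
    intro x y h1 h2 h3
    rw [Fin.lt_def] at h1
    by_cases hadj : (π y : ℕ) = (π x : ℕ) + 1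
    · exact ⟨x, y, hadj, h2⟩
    · have hlt : (π x : ℕ) + 1 < n := by have := (π y).isLt; omega
      set z := π.symm ⟨(π x : ℕ) + 1, hlt⟩ with hz
      have hz' : (π z : ℕ) = (π x : ℕ) + 1 := by rw [hz, Equiv.apply_symm_apply]
      by_cases hc : ρ z < ρ x
      · exact ih x z (by rw [Fin.lt_def]; omega) hc (by omega)
      · have hzx : ρ x < ρ z := by
          rcases lt_trichotomy (ρ z) (ρ x) with h | h | h
          · exact absurd h hc
          · exfalso
            have : z = x := ρ.injective h
            rw [this] at hz'; omega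
          · exact h
        exact ih z y (by rw [Fin.lt_def]; omega) (h2.trans hzx) (by omega)

lemma exchange_closer {n : ℕ} (π ρ : ItemList n) (a b : Fin n)
    (h : (π b : ℕ) = (π a : ℕ) + 1) (hρ : ρ b < ρ a) :
    ∑ x, ∑ y, fl (key (exchange (π a : ℕ) π)) (key ρ) x y + 2 ≤
      ∑ x, ∑ y, fl (key π) (key ρ) x y := by
  have hab : a ≠ b := by rintro rfl; omega
  have hb := (π b).isLt
  have hi : (π a : ℕ) + 1 < n := by omega
  have key1 : ∀ x y, fl (key (exchange (π a : ℕ) π)) (key ρ) x y +
      ((if x = a then (if y = b then 1 else 0) else 0) +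
        (if x = b then (if y = a then 1 else 0) else 0)) ≤ fl (key π) (key ρ) x y := by
    intro x y
    by_cases h1 : x = a ∧ y = b
    · obtain ⟨rfl, rfl⟩ := h1
      have e1 : fl (key (exchange (π x : ℕ) π)) (key ρ) x y = 0 := by
        unfold fl
        rw [if_pos]
        simp only [key_lt, Fin.lt_def, exchange_val]
        rw [Fin.lt_def] at hρ
        simp only [hi, if_true, h]
        constructor <;> intro h5 <;> split_ifs at * <;> omega
      have e2 : fl (key π) (key ρ) x y = 1 := by
        unfold fl
        rw [if_neg]
        simp only [key_lt, Fin.lt_def]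
        rw [Fin.lt_def] at hρ
        omega
      rw [e1, e2]; simp [hab]
    · by_cases h2 : x = b ∧ y = a
      · obtain ⟨rfl, rfl⟩ := h2
        have e1 : fl (key (exchange (π y : ℕ) π)) (key ρ) x y = 0 := by
          unfold fl
          rw [if_pos]
          simp only [key_lt, Fin.lt_def, exchange_val]
          rw [Fin.lt_def] at hρ
          simp only [hi, if_true, h]
          constructor <;> intro h5 <;> split_ifs at * <;> omega
        have e2 : fl (key π) (key ρ) x y = 1 := by
          unfold fl
          rw [if_neg]
          simp only [key_lt, Fin.lt_def]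
          rw [Fin.lt_def] at hρ
          omega
        rw [e1, e2]; simp [hab.symm]
      · have e0 : ((if x = a then (if y = b then 1 else 0) else 0) +
          (if x = b then (if y = a then 1 else 0) else 0)) = 0 := by
          by_cases h3 : x = a
          · have : y ≠ b := fun e => h1 ⟨h3, e⟩
            have h4 : x ≠ b := by rw [h3]; exact hab
            simp [this, h4]
          · by_cases h4 : x = b
            · have : y ≠ a := fun e => h2 ⟨h4, e⟩
              simp [this, h3]
            · simp [h3, h4]
        rw [e0, add_zero]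
        have e1 : fl (key π) (key (exchange (π a : ℕ) π)) x y = 0 := by
          apply fl_exchange
          rintro (⟨h3, h4⟩ | ⟨h3, h4⟩)
          · exact h1 ⟨π.injective (Fin.ext h3), π.injective (Fin.ext (by omega))⟩
          · exact h2 ⟨π.injective (Fin.ext (by omega)), π.injective (Fin.ext h4)⟩
        have e2 := fl_tri (key (exchange (π a : ℕ) π)) (key π) (key ρ) x y
        rw [fl_comm (key (exchange (π a : ℕ) π)) (key π), e1] at e2
        omega
  have hs := Finset.sum_le_sum fun x (_ : x ∈ Finset.univ) =>
    Finset.sum_le_sum fun y (_ : y ∈ (Finset.univ : Finset (Fin n))) => key1 x y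
  simp only [Finset.sum_add_distrib] at hs
  have : (∑ x : Fin n, ∑ y : Fin n, (if x = a then (if y = b then 1 else 0) else 0) +
        ∑ x : Fin n, ∑ y : Fin n, (if x = b then (if y = a then 1 else 0) else 0)) = 2 := by
    simp [Finset.sum_ite_irrel]
  omega

lemma eq_of_fl_zero {n : ℕ} (π ρ : ItemList n) (h : ∑ x, ∑ y, fl (key π) (key ρ) x y = 0) :
    π = ρ := by
  have h1 : ∀ x y, fl (key π) (key ρ) x y = 0 := by
    intro x y
    rw [Finset.sum_eq_zero_iff] at h
    have := h x (Finset.mem_univ _)
    rw [Finset.sum_eq_zero_iff] at this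
    exact this y (Finset.mem_univ _)
  ext x
  rw [← sum_ah π x, ← sum_ah ρ x]
  apply Finset.sum_congr rfl
  intro y _
  have a1 := ah_le_fl (key π) (key ρ) y x
  have a2 := ah_le_fl' (key π) (key ρ) y x
  rw [h1] at a1 a2
  omega

/-- any list can be reached from any other by one exchange per inverted pair -/
theorem exists_exchanges {n : ℕ} (π ρ : ItemList n) :
    ∃ l : List ℕ, exchanges l π = ρ ∧ 2 * l.length ≤ ∑ x, ∑ y, fl (key π) (key ρ) x y := by
  generalize hN : ∑ x, ∑ y, fl (key π) (key ρ) x y = N
  induction N using Nat.strong_induction_on generalizing π with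
  | _ N ih =>
    by_cases h0 : N = 0
    · refine ⟨[], ?_, by simp⟩
      exact eq_of_fl_zero π ρ (hN.trans h0)
    · have : ∃ x y, π x < π y ∧ ρ y < ρ x := by
        by_contra hcon
        push Not at hcon
        apply h0
        rw [← hN]
        apply Finset.sum_eq_zero; intro x _
        apply Finset.sum_eq_zero; intro y _
        by_cases hxy : x = y
        · rw [hxy]; exact fl_self _ _ _
        have n1 : π x ≠ π y := fun e => hxy (π.injective e)
        have n2 : ρ x ≠ ρ y := fun e => hxy (ρ.injective e)
        unfold fl
        rw [if_pos]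
        rw [key_lt, key_lt]
        constructor
        · intro h; exact lt_of_le_of_ne (hcon x y h) n2
        · intro h
          by_contra h5
          have h6 : π y < π x := lt_of_le_of_ne (not_lt.mp h5) (Ne.symm n1)
          have := hcon y x h6
          exact absurd h (not_lt.mpr this)
      obtain ⟨x, y, hx, hy⟩ := this
      obtain ⟨a, b, hab, hρ⟩ := adj_inversion π ρ _ x y hx hy le_rfl
      have hc := exchange_closer π ρ a b hab hρ
      rw [hN] at hc
      obtain ⟨l, hl1, hl2⟩ := ih _ (by omega) (exchange (π a : ℕ) π) rfl
      refine ⟨(π a : ℕ) :: l, hl1, ?_⟩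
      simp only [List.length_cons]
      omega

/-- the list in which the items are ordered by an (injective) function -/
def permOf {n : ℕ} (f : Fin n → ℤ) : ItemList n := (Tuple.sort f).symm

lemma permOf_lt {n : ℕ} {f : Fin n → ℤ} (hf : Function.Injective f) (x y : Fin n) :
    key (permOf f) x < key (permOf f) y ↔ f x < f y := by
  rw [key_lt]
  have hm : StrictMono (f ∘ Tuple.sort f) :=
    (Tuple.monotone_sort f).strictMono_of_injective (hf.comp (Tuple.sort f).injective)
  unfold permOf
  have := hm.lt_iff_lt (a := (Tuple.sort f).symm x) (b := (Tuple.sort f).symm y)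
  simpa using this.symm

/-- cost of an offline strategy that falls on the pair `x, y`: from the list `f` it serves the
requests in `L`, each one from the list given with it, and it finally moves to the list `e`. -/
def po {ι : Type*} [DecidableEq ι] (x y : ι) :
    (ι → ℤ) → List (ι × (ι → ℤ)) → (ι → ℤ) → ℕ
  | f, [], e => fl f e x y
  | f, p :: L, e => fl f p.2 x y + acc p.1 p.2 x y + po x y p.2 L e

lemma costFrom_congr {n : ℕ} (D D' : List (Fin n) → Response) (σ : List (Fin n)) :
    ∀ (h : List (Fin n)) (π : ItemList n),
    (∀ h' : List (Fin n), h.length < h'.length → D h' = D' h') →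
    costFrom D h π σ = costFrom D' h π σ := by
  induction σ with
  | nil => intro h π _; rfl
  | cons x σ ih =>
    intro h π hD
    unfold costFrom
    rw [hD (x :: h) (by simp)]
    rw [ih (x :: h) _ (fun h' hh' => hD h' (by simp only [List.length_cons] at hh'; omega))]

lemma fl_congr_left {ι : Type*} {f f' g : ι → ℤ} {x y : ι} (h : f x < f y ↔ f' x < f' y) :
    fl f g x y = fl f' g x y := by unfold fl; simp only [h]

lemma fl_congr_right {ι : Type*} {f g g' : ι → ℤ} {x y : ι} (h : g x < g y ↔ g' x < g' y) :
    fl f g x y = fl f g' x y := by unfold fl; simp only [h]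

lemma ah_congr {ι : Type*} {f f' : ι → ℤ} {x y : ι} (h : f x < f y ↔ f' x < f' y) :
    ah f x y = ah f' x y := by unfold ah; simp only [h]

lemma exists_strategy {n : ℕ} (e : Fin n → ℤ) (L : List (Fin n × (Fin n → ℤ))) :
    (∀ p ∈ L, Function.Injective p.2) → ∀ (h : List (Fin n)) (π : ItemList n) (f : Fin n → ℤ),
    (∀ x y, key π x < key π y ↔ f x < f y) →
    ∃ F : ℕ → Response, 2 * costFrom (fun h => F h.length) h π (L.map Prod.fst) ≤
      2 * L.length + ∑ x, ∑ y, po x y f L e := by
  induction L with
  | nil =>
    intro _ h π f _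
    exact ⟨fun _ => ⟨[], 0, []⟩, by simp [costFrom]⟩
  | cons p L ih =>
    intro hinj h π f hf
    obtain ⟨r, g⟩ := p
    have hg : Function.Injective g := hinj (r, g) (by simp)
    obtain ⟨l, hl1, hl2⟩ := exists_exchanges π (permOf g)
    obtain ⟨F', hF'⟩ := ih (fun p hp => hinj p (by simp [hp])) (r :: h) (permOf g) g
      (fun x y => permOf_lt hg x y)
    set R : Response := ⟨l, 0, []⟩ with hR
    refine ⟨fun t => if t = h.length + 1 then R else F' t, ?_⟩
    have hcongr : costFrom (fun h' => (fun t => if t = h.length + 1 then R else F' t) h'.length)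
        (r :: h) (permOf g) (L.map Prod.fst) =
        costFrom (fun h' => F' h'.length) (r :: h) (permOf g) (L.map Prod.fst) := by
      apply costFrom_congr
      intro h' hh'
      simp only [List.length_cons] at hh'
      simp only
      rw [if_neg (by omega)]
    simp only [List.map_cons, costFrom, List.length_cons, if_true]
    have hnext : R.next r π = permOf g := by
      simp only [hR, Response.next, forward, exchanges, List.foldl_nil]
      exact hl1
    have hcost : R.cost r π = l.length + ((permOf g r : ℕ) + 1) := by
      simp only [hR, Response.cost, hl1, List.length_nil, add_zero]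
    rw [hnext, hcost]
    simp only at hcongr
    rw [hcongr]
    have hs : ∑ x, ∑ y, po x y f ((r, g) :: L) e =
        ∑ x, ∑ y, fl (key π) (key (permOf g)) x y + ∑ x, ∑ y, acc r (key (permOf g)) x y +
          ∑ x, ∑ y, po x y g L e := by
      rw [← Finset.sum_add_distrib, ← Finset.sum_add_distrib]
      apply Finset.sum_congr rfl; intro x _
      rw [← Finset.sum_add_distrib, ← Finset.sum_add_distrib]
      apply Finset.sum_congr rfl; intro y _
      simp only [po]
      congr 1
      congr 1
      · rw [fl_congr_left (hf x y).symm, fl_congr_right (permOf_lt hg x y).symm]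
      · unfold acc
        rw [ah_congr (permOf_lt hg y x), ah_congr (permOf_lt hg x y)]
    rw [hs, sum_acc]
    omega

/-- the offline optimum is at most the cost of any explicit strategy -/
theorem opt_le {n : ℕ} (π : ItemList n) (L : List (Fin n × (Fin n → ℤ))) (e : Fin n → ℤ)
    (hL : ∀ p ∈ L, Function.Injective p.2) :
    2 * opt π (L.map Prod.fst) ≤ 2 * L.length + ∑ x, ∑ y, po x y (key π) L e := by
  obtain ⟨F, hF⟩ := exists_strategy e L hL [] π (key π) (fun _ _ => Iff.rfl)
  have : opt π (L.map Prod.fst) ≤ costFrom (fun h => F h.length) [] π (L.map Prod.fst) := by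
    unfold opt
    exact ciInf_le (OrderBot.bddBelow _) F
  omega

end Pool.Agent.Lib.MP_b3fcb1_lc
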