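import Pool.Agent.Lib.MP_b3fcb1_lc.Model

/-!
Pair costs: every cost of an algorithm is bounded below by a sum over pairs of items.
-/

namespace Pool.Agent.Lib.MP_b3fcb1_lc

variable {ι : Type*}

/-- `1` if `x` is ahead of `y`, else `0`. -/
def ah (f : ι → ℤ) (x y : ι) : ℕ := if f x < f y then 1 else 0

/-- `1` if `f` and `g` order the pair `x, y` differently, else `0`. -/
def fl (f g : ι → ℤ) (x y : ι) : ℕ := if (f x < f y ↔ g x < g y) then 0 else 1

/-- cost of an access to `r` from the list `f` that falls on the pair `x, y`. -/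
def acc [DecidableEq ι] (r : ι) (f : ι → ℤ) (x y : ι) : ℕ :=
  (if r = x then ah f y x else 0) + (if r = y then ah f x y else 0)

/-- lower bound for the cost of a request to `r` that falls on the pair `x, y`, when the list is
`f` before and `g` after the request has been served. -/
def pc [DecidableEq ι] (r : ι) (f g : ι → ℤ) (x y : ι) : ℕ :=
  if r = x then max (ah f y x) (ah g y x)
  else if r = y then max (ah f x y) (ah g x y) else fl f g x y

lemma ah_le_one (f : ι → ℤ) (x y : ι) : ah f x y ≤ 1 := by
  unfold ah; split_ifs <;> omega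

lemma ah_self (f : ι → ℤ) (x : ι) : ah f x x = 0 := by simp [ah]

lemma ah_add {f : ι → ℤ} (hf : Function.Injective f) {x y : ι} (h : x ≠ y) :
    ah f x y + ah f y x = 1 := by
  have : f x ≠ f y := fun e => h (hf e)
  unfold ah; split_ifs <;> omega

lemma fl_self (f g : ι → ℤ) (x : ι) : fl f g x x = 0 := by simp [fl]

lemma fl_same (f : ι → ℤ) (x y : ι) : fl f f x y = 0 := by simp [fl]

lemma fl_le_one (f g : ι → ℤ) (x y : ι) : fl f g x y ≤ 1 := by
  unfold fl; split_ifs <;> omega

lemma fl_symm {f g : ι → ℤ} (hf : Function.Injective f) (hg : Function.Injective g) (x y : ι) :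
    fl f g x y = fl f g y x := by
  by_cases h : x = y
  · subst h; rfl
  have h1 : f x ≠ f y := fun e => h (hf e)
  have h2 : g x ≠ g y := fun e => h (hg e)
  unfold fl
  have : (f x < f y ↔ g x < g y) ↔ (f y < f x ↔ g y < g x) := by
    constructor
    · intro h3; omega
    · intro h3; omega
  simp only [this]

lemma fl_comm (f g : ι → ℤ) (x y : ι) : fl f g x y = fl g f x y := by
  unfold fl; simp only [Iff.comm]

lemma fl_tri (f g h : ι → ℤ) (x y : ι) : fl f h x y ≤ fl f g x y + fl g h x y := by
  unfold fl
  by_cases h1 : f x < f y <;> by_cases h2 : g x < g y <;> by_cases h3 : h x < h y <;>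
    simp [h1, h2, h3]

lemma ah_le_fl (f g : ι → ℤ) (x y : ι) : ah f x y ≤ ah g x y + fl f g x y := by
  unfold ah fl
  by_cases h1 : f x < f y <;> by_cases h2 : g x < g y <;> simp [h1, h2]

lemma ah_le_fl' (f g : ι → ℤ) (x y : ι) : ah g x y ≤ ah f x y + fl f g x y := by
  rw [fl_comm]; exact ah_le_fl g f x y

lemma fl_le_ah (f g : ι → ℤ) (x y : ι) : fl f g x y ≤ ah f x y + ah g x y := by
  unfold ah fl
  by_cases h1 : f x < f y <;> by_cases h2 : g x < g y <;> simp [h1, h2]

lemma fl_eq (f g : ι → ℤ) (x y : ι) : (fl f g x y : ℤ) = |(ah f x y : ℤ) - ah g x y| := by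
  unfold ah fl
  by_cases h1 : f x < f y <;> by_cases h2 : g x < g y <;> simp [h1, h2]

lemma acc_symm [DecidableEq ι] (r : ι) (f : ι → ℤ) (x y : ι) : acc r f x y = acc r f y x := by
  unfold acc; omega

lemma pc_symm [DecidableEq ι] (r : ι) {f g : ι → ℤ} (hf : Function.Injective f)
    (hg : Function.Injective g) (x y : ι) : pc r f g x y = pc r f g y x := by
  unfold pc
  by_cases h1 : r = x
  · by_cases h2 : r = y
    · subst h1; subst h2; rfl
    · rw [if_pos h1, if_neg h2, if_pos h1]
  · by_cases h2 : r = y
    · rw [if_neg h1, if_pos h2, if_pos h2]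
    · rw [if_neg h1, if_neg h2, if_neg h2, if_neg h1, fl_symm hf hg x y]

lemma fl_le_pc [DecidableEq ι] (r : ι) {f g : ι → ℤ} (hf : Function.Injective f)
    (hg : Function.Injective g) (x y : ι) : fl f g x y ≤ pc r f g x y := by
  unfold pc
  split_ifs with h1 h2
  · rw [fl_symm hf hg]
    have := fl_le_one f g y x
    unfold fl ah at *
    by_cases h3 : f y < f x <;> by_cases h4 : g y < g x <;> simp [h3, h4]
  · unfold fl ah at *
    by_cases h3 : f x < f y <;> by_cases h4 : g x < g y <;> simp [h3, h4]
  · exact le_rfl

/-- positions as integers -/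
def key {n : ℕ} (π : ItemList n) : Fin n → ℤ := fun x => ((π x : ℕ) : ℤ)

lemma key_inj {n : ℕ} (π : ItemList n) : Function.Injective (key π) := by
  intro x y h
  have : (π x : ℕ) = (π y : ℕ) := by
    have := h; simp only [key] at this; exact_mod_cast this
  exact π.injective (Fin.ext this)

lemma key_lt {n : ℕ} (π : ItemList n) (x y : Fin n) : key π x < key π y ↔ π x < π y := by
  simp [key]

lemma sum_ah {n : ℕ} (π : ItemList n) (r : Fin n) : ∑ y, ah (key π) y r = (π r : ℕ) := by
  simp only [ah, key_lt]
  rw [Finset.sum_boole]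
  have : (Finset.univ.filter fun y => π y < π r) = (Finset.Iio (π r)).map π.symm.toEmbedding := by
    ext y
    simp only [Finset.mem_filter, Finset.mem_univ, true_and, Finset.mem_map_equiv,
      Equiv.symm_symm, Finset.mem_Iio]
  rw [this, Finset.card_map]
  simp

lemma exchange_val {n : ℕ} (i : ℕ) (π : ItemList n) (x : Fin n) :
    ((exchange i π x : Fin n) : ℕ) = if i + 1 < n then
      (if (π x : ℕ) = i then i + 1 else if (π x : ℕ) = i + 1 then i else (π x : ℕ))
      else (π x : ℕ) := by
  unfold exchange
  by_cases h : i + 1 < n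
  · simp only [h, dite_true, if_true, Equiv.trans_apply]
    rw [Equiv.swap_apply_def]
    by_cases h1 : (π x : ℕ) = i
    · have : π x = ⟨i, Nat.lt_of_succ_lt h⟩ := Fin.ext h1
      simp [this]
    · have h1' : π x ≠ ⟨i, Nat.lt_of_succ_lt h⟩ := fun e => h1 (by rw [e])
      by_cases h2 : (π x : ℕ) = i + 1
      · have : π x = ⟨i + 1, h⟩ := Fin.ext h2
        simp [this]
      · have h2' : π x ≠ ⟨i + 1, h⟩ := fun e => h2 (by rw [e])
        simp [h1, h2, h1', h2']
  · simp [h]

/-- an exchange can only change the order of the two items exchanged -/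
lemma fl_exchange {n : ℕ} (i : ℕ) (π : ItemList n) (x y : Fin n)
    (h : ¬ (((π x : ℕ) = i ∧ (π y : ℕ) = i + 1) ∨ ((π x : ℕ) = i + 1 ∧ (π y : ℕ) = i))) :
    fl (key π) (key (exchange i π)) x y = 0 := by
  unfold fl
  rw [if_pos]
  rw [key_lt, key_lt, Fin.lt_def, Fin.lt_def, exchange_val, exchange_val]
  split_ifs <;> omega

lemma sum_fl_exchange {n : ℕ} (i : ℕ) (π : ItemList n) :
    ∑ x, ∑ y, fl (key π) (key (exchange i π)) x y ≤ 2 := by
  by_cases hi : i + 1 < n
  · set a := π.symm ⟨i, Nat.lt_of_succ_lt hi⟩ with ha
    set b := π.symm ⟨i + 1, hi⟩ with hb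
    have hle : ∀ x y, fl (key π) (key (exchange i π)) x y ≤
        (if x = a then (if y = b then 1 else 0) else 0) +
        (if x = b then (if y = a then 1 else 0) else 0) := by
      intro x y
      by_cases h : ((π x : ℕ) = i ∧ (π y : ℕ) = i + 1) ∨ ((π x : ℕ) = i + 1 ∧ (π y : ℕ) = i)
      · have h1 := fl_le_one (key π) (key (exchange i π)) x y
        rcases h with ⟨hx, hy⟩ | ⟨hx, hy⟩
        · have e1 : x = a := by rw [ha, Equiv.eq_symm_apply]; exact Fin.ext hx
          have e2 : y = b := by rw [hb, Equiv.eq_symm_apply]; exact Fin.ext hy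
          rw [if_pos e1, if_pos e2]; omega
        · have e1 : x = b := by rw [hb, Equiv.eq_symm_apply]; exact Fin.ext hx
          have e2 : y = a := by rw [ha, Equiv.eq_symm_apply]; exact Fin.ext hy
          rw [if_pos e1, if_pos e2]; omega
      · rw [fl_exchange i π x y h]; exact Nat.zero_le _
    calc ∑ x, ∑ y, fl (key π) (key (exchange i π)) x y
        ≤ ∑ x, ∑ y, ((if x = a then (if y = b then 1 else 0) else 0) +
        (if x = b then (if y = a then 1 else 0) else 0)) :=
          Finset.sum_le_sum fun x _ => Finset.sum_le_sum fun y _ => hle x y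
      _ = 2 := by
          simp [Finset.sum_add_distrib, Finset.sum_ite_irrel]
  · have : exchange i π = π := by unfold exchange; simp [hi]
    rw [this]; simp [fl_same]

lemma sum_fl_exchanges {n : ℕ} (l : List ℕ) (π : ItemList n) :
    ∑ x, ∑ y, fl (key π) (key (exchanges l π)) x y ≤ 2 * l.length := by
  induction l generalizing π with
  | nil => simp [exchanges, fl_same]
  | cons i l ih =>
    have h1 := ih (exchange i π)
    have h2 := sum_fl_exchange i π
    have h3 : exchanges (i :: l) π = exchanges l (exchange i π) := rfl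
    rw [h3]
    calc ∑ x, ∑ y, fl (key π) (key (exchanges l (exchange i π))) x y
        ≤ ∑ x, ∑ y, (fl (key π) (key (exchange i π)) x y +
            fl (key (exchange i π)) (key (exchanges l (exchange i π))) x y) :=
          Finset.sum_le_sum fun x _ => Finset.sum_le_sum fun y _ => fl_tri _ _ _ _ _
      _ = ∑ x, ∑ y, fl (key π) (key (exchange i π)) x y +
          ∑ x, ∑ y, fl (key (exchange i π)) (key (exchanges l (exchange i π))) x y := by
          simp [Finset.sum_add_distrib]
      _ ≤ 2 * (i :: l).length := by
          simp only [List.length_cons]; omega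

lemma forward_fl {n : ℕ} (r : Fin n) (k : ℕ) (π : ItemList n) (x y : Fin n) (hx : x ≠ r)
    (hy : y ≠ r) : fl (key π) (key (forward r k π)) x y = 0 := by
  induction k generalizing π with
  | zero => simp [forward, fl_same]
  | succ k ih =>
    unfold forward
    split_ifs with h
    · exact fl_same _ _ _
    · have h1 := ih (exchange ((π r : ℕ) - 1) π)
      have h2 : fl (key π) (key (exchange ((π r : ℕ) - 1) π)) x y = 0 := by
        apply fl_exchange
        have e1 : (π x : ℕ) ≠ (π r : ℕ) := fun e => hx (π.injective (Fin.ext e))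
        have e2 : (π y : ℕ) ≠ (π r : ℕ) := fun e => hy (π.injective (Fin.ext e))
        omega
      have h3 := fl_tri (key π) (key (exchange ((π r : ℕ) - 1) π))
        (key (forward r k (exchange ((π r : ℕ) - 1) π))) x y
      omega

lemma forward_ah {n : ℕ} (r : Fin n) (k : ℕ) (π : ItemList n) (y : Fin n) :
    ah (key (forward r k π)) y r ≤ ah (key π) y r := by
  induction k generalizing π with
  | zero => simp [forward]
  | succ k ih =>
    unfold forward
    split_ifs with h
    · exact le_rfl
    · refine (ih _).trans ?_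
      unfold ah
      simp only [key_lt, Fin.lt_def, exchange_val]
      by_cases hy : y = r
      · subst hy; simp
      have e1 : (π y : ℕ) ≠ (π r : ℕ) := fun e => hy (π.injective (Fin.ext e))
      have := (π r).isLt
      have := (π y).isLt
      split_ifs <;> omega

/-- the pair bound for one request -/
lemma pc_le {n : ℕ} (R : Response) (r : Fin n) (π : ItemList n) (x y : Fin n) :
    pc r (key π) (key (R.next r π)) x y ≤
      fl (key π) (key (exchanges R.pre π)) x y + acc r (key (exchanges R.pre π)) x y +
      fl (key (forward r R.fwd (exchanges R.pre π))) (key (R.next r π)) x y := by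
  set π1 := exchanges R.pre π
  set π2 := forward r R.fwd π1
  set π3 := R.next r π
  have hi : ∀ ρ : ItemList n, Function.Injective (key ρ) := key_inj
  by_cases hxy : x = y
  · subst hxy
    unfold pc
    rw [ah_self, ah_self, fl_self]; simp
  unfold pc acc
  by_cases h1 : r = x
  · subst h1
    have a1 := ah_le_fl (key π) (key π1) y r
    have a2 := ah_le_fl' (key π2) (key π3) y r
    have a3 := forward_ah r R.fwd π1 y
    have a4 := fl_symm (hi π) (hi π1) r y
    have a5 := fl_symm (hi π2) (hi π3) r y
    simp only [if_true, hxy, if_false, add_zero]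
    have a6 : ah (key π2) y r ≤ ah (key π1) y r := a3
    omega
  · by_cases h2 : r = y
    · subst h2
      have a1 := ah_le_fl (key π) (key π1) x r
      have a2 := ah_le_fl' (key π2) (key π3) x r
      have a3 := forward_ah r R.fwd π1 x
      simp only [if_true, h1, if_false, zero_add]
      have a6 : ah (key π2) x r ≤ ah (key π1) x r := a3
      omega
    · simp only [h1, h2, if_false, add_zero]
      have a1 := forward_fl r R.fwd π1 x y (Ne.symm h1) (Ne.symm h2)
      have a2 := fl_tri (key π) (key π1) (key π3) x y
      have a3 := fl_tri (key π1) (key π2) (key π3) x y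
      have a4 : fl (key π1) (key π2) x y = 0 := a1
      omega

lemma sum_acc {n : ℕ} (r : Fin n) (π : ItemList n) :
    ∑ x, ∑ y, acc r (key π) x y = 2 * (π r : ℕ) := by
  unfold acc
  simp only [Finset.sum_add_distrib]
  have h1 : ∑ x : Fin n, ∑ y : Fin n, (if r = x then ah (key π) y x else 0) = (π r : ℕ) := by
    have : ∀ x : Fin n, ∑ y : Fin n, (if r = x then ah (key π) y x else 0) =
        if r = x then (π x : ℕ) else 0 := by
      intro x
      split_ifs with h
      · exact sum_ah π x
      · simp
    simp only [this, Finset.sum_ite_eq, Finset.mem_univ, if_true]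
  have h2 : ∑ x : Fin n, ∑ y : Fin n, (if r = y then ah (key π) x y else 0) = (π r : ℕ) := by
    simp only [Finset.sum_ite_eq, Finset.mem_univ, if_true]
    exact sum_ah π r
  rw [h1, h2]; ring

/-- every response costs at least the sum of the pair costs (each pair is counted twice). -/
theorem cost_ge {n : ℕ} (R : Response) (r : Fin n) (π : ItemList n) :
    2 + ∑ x, ∑ y, pc r (key π) (key (R.next r π)) x y ≤ 2 * R.cost r π := by
  have h1 := sum_fl_exchanges R.pre π
  have h2 := sum_fl_exchanges R.post (forward r R.fwd (exchanges R.pre π))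
  have h3 := sum_acc r (exchanges R.pre π)
  have h4 : ∑ x, ∑ y, pc r (key π) (key (R.next r π)) x y ≤
      ∑ x, ∑ y, (fl (key π) (key (exchanges R.pre π)) x y +
        acc r (key (exchanges R.pre π)) x y +
      fl (key (forward r R.fwd (exchanges R.pre π))) (key (R.next r π)) x y) :=
    Finset.sum_le_sum fun x _ => Finset.sum_le_sum fun y _ => pc_le R r π x y
  simp only [Finset.sum_add_distrib] at h4
  have h5 : exchanges R.post (forward r R.fwd (exchanges R.pre π)) = R.next r π := rfl
  rw [h5] at h2
  unfold Response.cost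
  omega

end Pool.Agent.Lib.MP_b3fcb1_lc
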