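import Pool.Agent.Lib.MP_b3fcb1_lc.Relabel

/-!
Many cycles in a row.
-/

namespace Pool.Agent.Lib.MP_b3fcb1_lc

open MeasureTheory

namespace Gadget

variable {k : ℕ} (G : Gadget k) {n : ℕ}

/-- unit block size of a cycle that starts with `t` items requested three times -/
def mOf (t : ℕ) : ℕ := t / pre G.w k

/-- the next offline list -/
def nxt (ℓ : ItemList n) (m c : ℕ) (o : Bool) (β : Fin n → Bool) : ItemList n :=
  ℓ.trans (permOf (G.cycE m c o β))

/-- normalisation -/
noncomputable def Dn (n : ℕ) : ℝ := (G.Wt : ℝ) * 2 * 2 ^ n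

/-- Expectation of `F` over `K` cycles of the adversary: the argument of `F` is the list of all
requests, each with the offline list at that time. -/
noncomputable def play : ℕ → ItemList n → ℕ → (List (Fin n × (Fin n → ℤ)) → ℝ) → ℝ
  | 0, _, _, F => F []
  | K + 1, ℓ, t, F => (∑ c ∈ Finset.range G.N, (G.wt c : ℝ) * ∑ o : Bool, ∑ β : Fin n → Bool,
      play K (G.nxt ℓ (G.mOf t) c o β) (cardB β)
        (fun L => F (lift ℓ (G.cycO (G.mOf t) c o β) ++ L))) / G.Dn n

variable {G}

lemma play_mono (hG : G.Ok) (hW : 0 < G.Wt) (K : ℕ) : ∀ (ℓ : ItemList n) (t : ℕ)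
    (F F' : List (Fin n × (Fin n → ℤ)) → ℝ),
    (∀ L, (∀ p ∈ L, Function.Injective p.2) → F L ≤ F' L) → G.play K ℓ t F ≤ G.play K ℓ t F' := by
  induction K with
  | zero => intro ℓ t F F' h; exact h [] (by simp)
  | succ K ih =>
    intro ℓ t F F' h
    simp only [play]
    have hD : 0 < G.Dn n := by
      unfold Dn
      have : (0 : ℝ) < G.Wt := by exact_mod_cast hW
      positivity
    apply div_le_div_of_nonneg_right _ hD.le
    apply Finset.sum_le_sum
    intro c _
    apply mul_le_mul_of_nonneg_left _ (by positivity)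
    apply Finset.sum_le_sum
    intro o _
    apply Finset.sum_le_sum
    intro β _
    apply ih
    intro L hL
    apply h
    intro p hp
    rcases List.mem_append.mp hp with hp | hp
    · exact lift_inj ℓ _ (cycO_inj _ hG c o β) p hp
    · exact hL p hp

lemma play_add (K : ℕ) : ∀ (ℓ : ItemList n) (t : ℕ)
    (F F' : List (Fin n × (Fin n → ℤ)) → ℝ),
    G.play K ℓ t (fun L => F L + F' L) = G.play K ℓ t F + G.play K ℓ t F' := by
  induction K with
  | zero => intro ℓ t F F'; rfl
  | succ K ih =>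
    intro ℓ t F F'
    simp only [play, ih]
    rw [← add_div]
    congr 1
    rw [← Finset.sum_add_distrib]
    apply Finset.sum_congr rfl
    intro c _
    rw [← mul_add]
    congr 1
    rw [← Finset.sum_add_distrib]
    apply Finset.sum_congr rfl
    intro o _
    rw [← Finset.sum_add_distrib]

lemma play_mul (K : ℕ) (a : ℝ) : ∀ (ℓ : ItemList n) (t : ℕ)
    (F : List (Fin n × (Fin n → ℤ)) → ℝ),
    G.play K ℓ t (fun L => a * F L) = a * G.play K ℓ t F := by
  induction K with
  | zero => intro ℓ t F; rfl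
  | succ K ih =>
    intro ℓ t F
    simp only [play, ih]
    rw [← mul_div_assoc]
    congr 1
    rw [Finset.mul_sum]
    apply Finset.sum_congr rfl
    intro c _
    simp only [← Finset.mul_sum]
    ring

lemma sum_norm (n : ℕ) : ∑ c ∈ Finset.range G.N, (G.wt c : ℝ) * ∑ _o : Bool,
    ∑ _β : Fin n → Bool, (1 : ℝ) = G.Dn n := by
  unfold Dn Wt
  simp only [Finset.sum_const, Finset.card_univ, Fintype.card_bool, nsmul_eq_mul, mul_one,
    Fintype.card_fun, Fintype.card_fin]
  rw [← Finset.sum_mul]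
  push_cast
  ring

lemma play_const (hW : 0 < G.Wt) (K : ℕ) (a : ℝ) : ∀ (ℓ : ItemList n) (t : ℕ),
    G.play K ℓ t (fun _ => a) = a := by
  induction K with
  | zero => intro ℓ t; rfl
  | succ K ih =>
    intro ℓ t
    simp only [play, ih]
    have hD : 0 < G.Dn n := by
      unfold Dn
      have : (0 : ℝ) < G.Wt := by exact_mod_cast hW
      positivity
    rw [div_eq_iff hD.ne', ← sum_norm, Finset.mul_sum]
    apply Finset.sum_congr rfl
    intro c _
    simp only [Finset.sum_const, nsmul_eq_mul]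
    ring

lemma play_integrable {Ω : Type*} {mΩ : MeasurableSpace Ω} {μ : Measure Ω} (K : ℕ) :
    ∀ (ℓ : ItemList n) (t : ℕ)
    (f : Ω → List (Fin n × (Fin n → ℤ)) → ℝ), (∀ L, Integrable (fun ω => f ω L) μ) →
    Integrable (fun ω => G.play K ℓ t (f ω)) μ ∧
      ∫ ω, G.play K ℓ t (f ω) ∂μ = G.play K ℓ t (fun L => ∫ ω, f ω L ∂μ) := by
  induction K with
  | zero => intro ℓ t f hf; exact ⟨hf [], rfl⟩
  | succ K ih =>
    intro ℓ t f hf
    have h1 : ∀ c o (β : Fin n → Bool), Integrable (fun ω =>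
        G.play K (G.nxt ℓ (G.mOf t) c o β) (cardB β)
          (fun L => f ω (lift ℓ (G.cycO (G.mOf t) c o β) ++ L))) μ ∧
        ∫ ω, G.play K (G.nxt ℓ (G.mOf t) c o β) (cardB β)
          (fun L => f ω (lift ℓ (G.cycO (G.mOf t) c o β) ++ L)) ∂μ =
        G.play K (G.nxt ℓ (G.mOf t) c o β) (cardB β)
          (fun L => ∫ ω, f ω (lift ℓ (G.cycO (G.mOf t) c o β) ++ L) ∂μ) := fun c o β =>
      ih _ _ (fun ω L => f ω (lift ℓ (G.cycO (G.mOf t) c o β) ++ L)) (fun L => hf _)
    simp only [play]
    have i1 : ∀ c o, Integrable (fun ω => ∑ β : Fin n → Bool,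
        G.play K (G.nxt ℓ (G.mOf t) c o β) (cardB β)
          (fun L => f ω (lift ℓ (G.cycO (G.mOf t) c o β) ++ L))) μ := fun c o =>
      integrable_finsetSum _ fun β _ => (h1 c o β).1
    have i2 : ∀ c, Integrable (fun ω => ∑ o : Bool, ∑ β : Fin n → Bool,
        G.play K (G.nxt ℓ (G.mOf t) c o β) (cardB β)
          (fun L => f ω (lift ℓ (G.cycO (G.mOf t) c o β) ++ L))) μ := fun c =>
      integrable_finsetSum _ fun o _ => i1 c o
    have i3 : ∀ c, Integrable (fun ω => (G.wt c : ℝ) * ∑ o : Bool, ∑ β : Fin n → Bool,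
        G.play K (G.nxt ℓ (G.mOf t) c o β) (cardB β)
          (fun L => f ω (lift ℓ (G.cycO (G.mOf t) c o β) ++ L))) μ := fun c =>
      (i2 c).const_mul _
    refine ⟨(integrable_finsetSum _ fun c _ => i3 c).div_const _, ?_⟩
    rw [integral_div, integral_finsetSum _ (fun c _ => i3 c)]
    congr 1
    apply Finset.sum_congr rfl
    intro c _
    rw [integral_const_mul, integral_finsetSum _ (fun o _ => i1 c o)]
    congr 1
    apply Finset.sum_congr rfl
    intro o _
    rw [integral_finsetSum _ (fun β _ => (h1 c o β).1)]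
    apply Finset.sum_congr rfl
    intro β _
    exact (h1 c o β).2

end Gadget

end Pool.Agent.Lib.MP_b3fcb1_lc
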