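import Pool.Agent.Lib.MP_b3fcb1_lc.Total

/-!
Relabelling of the items by their ranks, and concatenation of cycles.
-/

namespace Pool.Agent.Lib.MP_b3fcb1_lc

section pol

variable {ι : Type*} [DecidableEq ι]

/-- offline cost of a pair, without a prescribed final list -/
def pol (x y : ι) : (ι → ℤ) → List (ι × (ι → ℤ)) → ℕ
  | _, [] => 0
  | f, p :: L => fl f p.2 x y + acc p.1 p.2 x y + pol x y p.2 L

/-- the last list -/
def lastSt : (ι → ℤ) → List (ι × (ι → ℤ)) → (ι → ℤ)
  | f, [] => f
  | _, p :: L => lastSt p.2 L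

lemma po_last (x y : ι) (L : List (ι × (ι → ℤ))) : ∀ f, po x y f L (lastSt f L) = pol x y f L := by
  induction L with
  | nil => intro f; exact fl_same f x y
  | cons p L ih => intro f; simp only [po, pol, lastSt, ih]

lemma pol_append (x y : ι) (g : ι → ℤ) (L L' : List (ι × (ι → ℤ))) : ∀ f : ι → ℤ,
    pol x y f (L ++ L') ≤ po x y f L g + pol x y g L' := by
  induction L with
  | nil =>
    intro f
    simp only [List.nil_append, po]
    cases L' with
    | nil => simp [pol]
    | cons p L' =>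
      simp only [pol]
      have := fl_tri f g p.2 x y
      omega
  | cons p L ih =>
    intro f
    simp only [List.cons_append, po, pol]
    have := ih p.2
    omega

lemma po_congr_end (x y : ι) {e e' : ι → ℤ} (h : e x < e y ↔ e' x < e' y)
    (L : List (ι × (ι → ℤ))) : ∀ f, po x y f L e = po x y f L e' := by
  induction L with
  | nil => intro f; exact fl_congr_right h
  | cons p L ih => intro f; simp only [po, ih]

end pol

variable {n : ℕ}

theorem opt_le_pol (π : ItemList n) (L : List (Fin n × (Fin n → ℤ)))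
    (hL : ∀ p ∈ L, Function.Injective p.2) :
    2 * opt π (L.map Prod.fst) ≤ 2 * L.length + ∑ x, ∑ y, pol x y (key π) L := by
  have := opt_le π L (lastSt (key π) L) hL
  simp only [po_last] at this
  exact this

/-- an offline strategy in rank labels, translated to the items -/
def lift (ℓ : ItemList n) (L : List (Fin n × (Fin n → ℤ))) : List (Fin n × (Fin n → ℤ)) :=
  L.map (fun p => (ℓ.symm p.1, p.2 ∘ ℓ))

lemma lift_length (ℓ : ItemList n) (L : List (Fin n × (Fin n → ℤ))) :
    (lift ℓ L).length = L.length := by simp [lift]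

lemma lift_fst (ℓ : ItemList n) (L : List (Fin n × (Fin n → ℤ))) :
    (lift ℓ L).map Prod.fst = (L.map Prod.fst).map ℓ.symm := by
  simp [lift, Function.comp_def]

lemma lift_inj (ℓ : ItemList n) (L : List (Fin n × (Fin n → ℤ)))
    (hL : ∀ p ∈ L, Function.Injective p.2) : ∀ p ∈ lift ℓ L, Function.Injective p.2 := by
  intro p hp
  unfold lift at hp
  rw [List.mem_map] at hp
  obtain ⟨q, hq, rfl⟩ := hp
  exact (hL q hq).comp ℓ.injective

lemma acc_lift (ℓ : ItemList n) (r x y : Fin n) (f : Fin n → ℤ) :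
    acc (ℓ.symm r) (f ∘ ℓ) (ℓ.symm x) (ℓ.symm y) = acc r f x y := by
  unfold acc ah
  simp only [Function.comp_apply, Equiv.apply_symm_apply, EmbeddingLike.apply_eq_iff_eq]

lemma po_lift (ℓ : ItemList n) (x y : Fin n) (e : Fin n → ℤ)
    (L : List (Fin n × (Fin n → ℤ))) : ∀ f : Fin n → ℤ,
    po (ℓ.symm x) (ℓ.symm y) (f ∘ ℓ) (lift ℓ L) (e ∘ ℓ) = po x y f L e := by
  induction L with
  | nil =>
    intro f
    simp only [lift, List.map_nil, po, fl, Function.comp_apply, Equiv.apply_symm_apply]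
  | cons p L ih =>
    intro f
    have h1 := ih p.2
    have h2 : lift ℓ (p :: L) = (ℓ.symm p.1, p.2 ∘ ℓ) :: lift ℓ L := rfl
    rw [h2]
    simp only [po]
    rw [acc_lift, h1]
    congr 1
    simp only [fl, Function.comp_apply, Equiv.apply_symm_apply]

/-- the lists of the online algorithm, in rank labels -/
def relab (S : List (Fin n) → Fin n → ℤ) (ℓ : ItemList n) (h : List (Fin n)) :
    List (Fin n) → Fin n → ℤ :=
  fun g r => S (g.map ℓ.symm ++ h) (ℓ.symm r)

lemma relab_inj {S : List (Fin n) → Fin n → ℤ} (hS : ∀ h, Function.Injective (S h))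
    (ℓ : ItemList n) (h : List (Fin n)) (g : List (Fin n)) :
    Function.Injective (relab S ℓ h g) := (hS _).comp ℓ.symm.injective

lemma pa_relab (S : List (Fin n) → Fin n → ℤ) (ℓ : ItemList n) (h : List (Fin n)) (x y : Fin n)
    (s : List (Fin n)) : ∀ g : List (Fin n),
    pa S (ℓ.symm x) (ℓ.symm y) (g.map ℓ.symm ++ h) (s.map ℓ.symm) =
      pa (relab S ℓ h) x y g s := by
  induction s with
  | nil => intro g; rfl
  | cons r s ih =>
    intro g
    have h1 := ih (r :: g)
    simp only [List.map_cons, List.cons_append] at h1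
    simp only [List.map_cons, pa]
    rw [h1]
    congr 1
    unfold pc
    by_cases e1 : r = x
    · rw [if_pos e1, if_pos (congrArg ℓ.symm e1)]; rfl
    · rw [if_neg e1, if_neg (fun e => e1 (ℓ.symm.injective e))]
      by_cases e2 : r = y
      · rw [if_pos e2, if_pos (congrArg ℓ.symm e2)]; rfl
      · rw [if_neg e2, if_neg (fun e => e2 (ℓ.symm.injective e))]; rfl

lemma sum_pa_relab (S : List (Fin n) → Fin n → ℤ) (ℓ : ItemList n) (h s : List (Fin n)) :
    ∑ x, ∑ y, pa S x y h (s.map ℓ.symm) = ∑ x, ∑ y, pa (relab S ℓ h) x y [] s := by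
  rw [← Equiv.sum_comp ℓ.symm]
  apply Finset.sum_congr rfl
  intro x _
  rw [← Equiv.sum_comp ℓ.symm]
  apply Finset.sum_congr rfl
  intro y _
  have := pa_relab S ℓ h x y s []
  simpa using this

lemma key_comp (ℓ : ItemList n) : key ℓ = idk n ∘ ℓ := rfl

lemma sum_po_lift (ℓ ρ : ItemList n) (L : List (Fin n × (Fin n → ℤ))) :
    ∑ x, ∑ y, po x y (key ℓ) (lift ℓ L) (key (ℓ.trans ρ)) =
      ∑ x, ∑ y, po x y (idk n) L (key ρ) := by
  rw [← Equiv.sum_comp ℓ.symm]
  apply Finset.sum_congr rfl
  intro x _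
  rw [← Equiv.sum_comp ℓ.symm]
  apply Finset.sum_congr rfl
  intro y _
  have h1 : key (ℓ.trans ρ) = key ρ ∘ ℓ := rfl
  rw [h1, key_comp ℓ]
  exact po_lift ℓ x y (key ρ) L (idk n)

/-- the potential: pairs of the first `M` items of the offline list count negatively -/
def Phi (M : ℕ) (f : Fin n → ℤ) (ℓ : ItemList n) : ℤ :=
  ∑ x, ∑ y, phi (decide ((ℓ x : ℕ) < M) && decide ((ℓ y : ℕ) < M)) f (key ℓ) x y

lemma Phi_relab (M : ℕ) (f : Fin n → ℤ) (ℓ : ItemList n) :
    Phi M f ℓ = ∑ x : Fin n, ∑ y : Fin n, phi (decide ((x : ℕ) < M) && decide ((y : ℕ) < M))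
      (f ∘ ℓ.symm) (idk n) x y := by
  unfold Phi
  rw [← Equiv.sum_comp ℓ.symm]
  apply Finset.sum_congr rfl
  intro x _
  rw [← Equiv.sum_comp ℓ.symm]
  apply Finset.sum_congr rfl
  intro y _
  simp only [Equiv.apply_symm_apply, phi, fl, key_comp, Function.comp_apply]

lemma Phi_trans (M : ℕ) (f : Fin n → ℤ) (ℓ ρ : ItemList n) :
    Phi M f (ℓ.trans ρ) = Phi M (f ∘ ℓ.symm) ρ := by
  unfold Phi
  rw [← Equiv.sum_comp ℓ.symm]
  apply Finset.sum_congr rfl
  intro x _
  rw [← Equiv.sum_comp ℓ.symm]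
  apply Finset.sum_congr rfl
  intro y _
  have e1 : ∀ z, (ℓ.trans ρ) (ℓ.symm z) = ρ z := fun z => by simp
  have e2 : fl f (key (ℓ.trans ρ)) (ℓ.symm x) (ℓ.symm y) = fl (f ∘ ℓ.symm) (key ρ) x y :=
    fl_congr2 Iff.rfl (by simp only [key, e1])
  unfold phi
  rw [e1, e1, e2]

lemma phi_le_one (b : Bool) (f e : Fin n → ℤ) (x y : Fin n) : phi b f e x y ≤ 1 := by
  have := fl_le_one f e x y
  unfold phi; split_ifs <;> omega

lemma Phi_le (M : ℕ) (f : Fin n → ℤ) (ℓ : ItemList n) : Phi M f ℓ ≤ (n : ℤ) ^ 2 := by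
  unfold Phi
  calc _ ≤ ∑ x : Fin n, ∑ y : Fin n, (1 : ℤ) :=
        Finset.sum_le_sum fun x _ => Finset.sum_le_sum fun y _ => phi_le_one _ _ _ _ _
    _ = (n : ℤ) ^ 2 := by simp [sq]

/-- number of items that are requested three times -/
def cardB (β : Fin n → Bool) : ℕ := (Finset.univ.filter (fun r => β r = true)).card

lemma cardB_le (β : Fin n → Bool) : cardB β ≤ n := by
  unfold cardB
  exact (Finset.card_le_univ _).trans (by simp)

/-- only items that are requested three times are at the front of the new list -/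
lemma top_tripled {κR κs : Fin n → ℤ} (hR : Function.Injective κR) (hs : Function.Injective κs)
    (hR0 : ∀ y, 0 ≤ κR y) (hs0 : ∀ y, 0 ≤ κs y) (β : Fin n → Bool) (x : Fin n)
    (hx : (permOf (noiseEnd κR κs β) x : ℕ) < cardB β) : β x = true := by
  by_contra hc
  have hc' : β x = false := by simpa using hc
  have h1 := sum_ah (permOf (noiseEnd κR κs β)) x
  have h2 : cardB β ≤ ∑ y, ah (key (permOf (noiseEnd κR κs β))) y x := by
    unfold cardB
    rw [Finset.card_filter]
    apply Finset.sum_le_sum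
    intro y _
    split_ifs with hy
    · unfold ah
      rw [if_pos]
      rw [permOf_lt (noiseEnd_inj hR hs hR0 hs0 β)]
      unfold noiseEnd
      rw [if_pos hy, hc']
      have := hR0 y
      have := hs0 x
      simp
      omega
    · exact Nat.zero_le _
  omega

lemma phi_mono {f e : Fin n → ℤ} {a b : Bool} (h : b = true → a = true) (x y : Fin n) :
    phi a f e x y ≤ phi b f e x y := by
  unfold phi
  cases a <;> cases b
  · simp
  · simp at h
  · simp only [if_true, Bool.false_eq_true, if_false]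
    have : (0 : ℤ) ≤ fl f e x y := by positivity
    omega
  · simp

lemma sum_cardB : 2 * ∑ β : Fin n → Bool, (cardB β : ℤ) = (n : ℤ) * 2 ^ n := by
  have h1 : ∀ β : Fin n → Bool, (cardB β : ℤ) = ∑ r : Fin n, if β r = true then 1 else 0 := by
    intro β
    unfold cardB
    rw [Finset.card_filter]
    push_cast
    rfl
  simp only [h1]
  rw [Finset.sum_comm, Finset.mul_sum]
  have h2 : ∀ r : Fin n, 2 * ∑ β : Fin n → Bool, (if β r = true then (1 : ℤ) else 0) = 2 ^ n := by
    intro r
    have h3 := sum_update1 (fun β : Fin n → Bool => if β r = true then (1 : ℤ) else 0) r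
    rw [← h3]
    have h4 : ∀ β : Fin n → Bool, ∑ a : Bool,
        (if Function.update β r a r = true then (1 : ℤ) else 0) = 1 := by
      intro β
      rw [Fintype.sum_bool]
      simp
    calc _ = ∑ _β : Fin n → Bool, (1 : ℤ) := Finset.sum_congr rfl fun β _ => h4 β
      _ = 2 ^ n := by
        rw [Finset.sum_const, Finset.card_univ, nsmul_eq_mul, card_bits, mul_one]
  simp only [h2, Finset.sum_const, Finset.card_univ, Fintype.card_fin, nsmul_eq_mul]

end Pool.Agent.Lib.MP_b3fcb1_lc
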