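import Pool.Agent.Lib.MP_b3fcb1_lc.Offline

/-!
Pair costs of request sequences, and the pair lemma for the noise phase.
-/

namespace Pool.Agent.Lib.MP_b3fcb1_lc

variable {ι : Type*} [DecidableEq ι]

/-- the pair cost of the requests in the last argument, for the pair `x, y`; `S h` is the list after
the history `h` (the latest request first). -/
def pa (S : List ι → ι → ℤ) (x y : ι) : List ι → List ι → ℕ
  | _, [] => 0
  | h, r :: s => pc r (S h) (S (r :: h)) x y + pa S x y (r :: h) s

lemma pa_append (S : List ι → ι → ℤ) (x y : ι) (s t : List ι) : ∀ h : List ι,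
    pa S x y h (s ++ t) = pa S x y h s + pa S x y (s.reverse ++ h) t := by
  induction s with
  | nil => intro h; simp [pa]
  | cons r s ih =>
    intro h
    have e : (r :: s).reverse ++ h = s.reverse ++ (r :: h) := by simp
    rw [e, List.cons_append]
    simp only [pa]
    rw [ih (r :: h)]
    ring

variable {S : List ι → ι → ℤ}

lemma pa_symm (hS : ∀ h, Function.Injective (S h)) (x y : ι) (s : List ι) : ∀ h : List ι,
    pa S x y h s = pa S y x h s := by
  induction s with
  | nil => intro h; rfl
  | cons r s ih =>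
    intro h
    simp only [pa]
    rw [ih (r :: h), pc_symm r (hS _) (hS _)]

lemma fl_le_pa (hS : ∀ h, Function.Injective (S h)) (x y : ι) (s : List ι) : ∀ h : List ι,
    fl (S h) (S (s.reverse ++ h)) x y ≤ pa S x y h s := by
  induction s with
  | nil => intro h; simp [fl_same]
  | cons r s ih =>
    intro h
    have e : (r :: s).reverse ++ h = s.reverse ++ (r :: h) := by simp
    rw [e]
    simp only [pa]
    have h1 := ih (r :: h)
    have h2 := fl_le_pc r (hS h) (hS (r :: h)) x y
    have h3 := fl_tri (S h) (S (r :: h)) (S (s.reverse ++ (r :: h))) x y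
    omega

lemma pc_left (f g : ι → ℤ) (x y : ι) : pc x f g x y = max (ah f y x) (ah g y x) := by
  simp [pc]

lemma pc_right (f g : ι → ℤ) {x y : ι} (h : x ≠ y) :
    pc y f g x y = max (ah f x y) (ah g x y) := by
  simp [pc, h.symm]

lemma ah_le_pa (hS : ∀ h, Function.Injective (S h)) (x y : ι) (s : List ι) (hx : x ∈ s)
    (h : List ι) : ah (S h) y x ≤ pa S x y h s ∧ ah (S (s.reverse ++ h)) y x ≤ pa S x y h s := by
  obtain ⟨A, B, rfl⟩ := List.append_of_mem hx
  have e : (A ++ x :: B).reverse ++ h = B.reverse ++ (x :: (A.reverse ++ h)) := by simp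
  rw [e, pa_append]
  simp only [pa, pc_left]
  have h1 := fl_le_pa hS x y A h
  have h2 := fl_le_pa hS x y B (x :: (A.reverse ++ h))
  have h3 := ah_le_fl (S h) (S (A.reverse ++ h)) y x
  have h4 := ah_le_fl' (S (x :: (A.reverse ++ h))) (S (B.reverse ++ (x :: (A.reverse ++ h)))) y x
  rw [fl_symm (hS _) (hS _)] at h3 h4
  omega

lemma ah_le_pa' (hS : ∀ h, Function.Injective (S h)) (x y : ι) (s : List ι) (hy : y ∈ s)
    (h : List ι) : ah (S h) x y ≤ pa S x y h s ∧ ah (S (s.reverse ++ h)) x y ≤ pa S x y h s := by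
  rw [pa_symm hS]; exact ah_le_pa hS y x s hy h

lemma one_le_pa (hS : ∀ h, Function.Injective (S h)) {x y : ι} (hxy : x ≠ y) (s : List ι)
    (hx : x ∈ s) (hy : y ∈ s) (h : List ι) : 1 ≤ pa S x y h s := by
  obtain ⟨A, B, rfl⟩ := List.append_of_mem hx
  have hy' : y ∈ A ∨ y ∈ B := by
    rcases List.mem_append.mp hy with h1 | h1
    · exact Or.inl h1
    · rcases List.mem_cons.mp h1 with h2 | h2
      · exact absurd h2.symm hxy
      · exact Or.inr h2
  rcases hy' with h1 | h1
  · rw [pa_append]
    have a1 := (ah_le_pa' hS x y A h1 h).2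
    have a2 := (ah_le_pa hS x y (x :: B) (by simp) (A.reverse ++ h)).1
    have a3 := ah_add (hS (A.reverse ++ h)) hxy
    omega
  · have e : A ++ x :: B = (A ++ [x]) ++ B := by simp
    rw [e, pa_append]
    have a1 := (ah_le_pa hS x y (A ++ [x]) (by simp) h).2
    have a2 := (ah_le_pa' hS x y B h1 ((A ++ [x]).reverse ++ h)).1
    have a3 := ah_add (hS ((A ++ [x]).reverse ++ h)) hxy
    omega

/-- the requests to `r` in a noise phase: three or one -/
def rep (b : Bool) (r : ι) : List ι := if b then [r, r, r] else [r]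

/-- potential of a pair: the sign is negative if `sg` holds -/
def phi (sg : Bool) (f e : ι → ℤ) (x y : ι) : ℤ := if sg then -(fl f e x y : ℤ) else fl f e x y

/-- end of the noise phase, seen from just before the requests to `v`: `b` tells whether `v` is
requested three times, `al` is the order of the pair in the new list if it is not, `ng` whether
`u` has been requested three times. -/
lemma stage_v (hS : ∀ h, Function.Injective (S h)) {u v : ι} (huv : u ≠ v) (C h : List ι)
    (ng : Bool) (e0 e1 : ι → ℤ) (he1 : ¬ (e1 u < e1 v)) :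
    (e0 u < e0 v → (3 : ℤ) - 2 * ah (S h) v u ≤
      (pa S u v h (rep false v ++ C) + phi false (S ((rep false v ++ C).reverse ++ h)) e0 u v) +
      (pa S u v h (rep true v ++ C) + phi ng (S ((rep true v ++ C).reverse ++ h)) e1 u v)) ∧
    (¬ (e0 u < e0 v) → ng = false → (2 : ℤ) - 2 * ah (S h) v u ≤
      (pa S u v h (rep false v ++ C) + phi false (S ((rep false v ++ C).reverse ++ h)) e0 u v) +
      (pa S u v h (rep true v ++ C) + phi ng (S ((rep true v ++ C).reverse ++ h)) e1 u v)) := by
  have r0 : (rep false v ++ C).reverse ++ h = C.reverse ++ (v :: h) := by simp [rep]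
  have r1 : (rep true v ++ C).reverse ++ h = C.reverse ++ (v :: v :: v :: h) := by simp [rep]
  rw [r0, r1]
  have p0 : pa S u v h (rep false v ++ C) = max (ah (S h) u v) (ah (S (v :: h)) u v) +
      pa S u v (v :: h) C := by
    simp [rep, pa, pc_right _ _ huv]
  have p1 : pa S u v h (rep true v ++ C) = max (ah (S h) u v) (ah (S (v :: h)) u v) +
      (max (ah (S (v :: h)) u v) (ah (S (v :: v :: h)) u v) +
      (max (ah (S (v :: v :: h)) u v) (ah (S (v :: v :: v :: h)) u v) +
      pa S u v (v :: v :: v :: h) C)) := by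
    simp [rep, pa, pc_right _ _ huv]
  rw [p0, p1]
  have c0 := fl_le_pa hS u v C (v :: h)
  have c1 := fl_le_pa hS u v C (v :: v :: v :: h)
  set E0 := S (C.reverse ++ (v :: h))
  set E1 := S (C.reverse ++ (v :: v :: v :: h))
  have d0 := ah_le_fl (S (v :: h)) E0 u v
  have d0' := ah_le_fl' (S (v :: h)) E0 u v
  have d1 := ah_le_fl (S (v :: v :: v :: h)) E1 u v
  have d1' := ah_le_fl' (S (v :: v :: v :: h)) E1 u v
  have s0 := ah_add (hS h) huv
  have b1 := ah_le_one (S (v :: h)) u v
  have b2 := ah_le_one (S (v :: v :: h)) u v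
  have b3 := ah_le_one (S (v :: v :: v :: h)) u v
  have b4 := ah_le_one E0 u v
  have b5 := ah_le_one E1 u v
  have q1 : fl E1 e1 u v = ah E1 u v := by
    unfold fl ah; by_cases hh : E1 u < E1 v <;> simp [hh, he1]
  constructor
  · intro he0
    have q0 : fl E0 e0 u v = 1 - ah E0 u v := by
      unfold fl ah; by_cases hh : E0 u < E0 v <;> simp [hh, he0]
    unfold phi
    rw [q0, q1]
    cases ng <;> simp only [Bool.false_eq_true, if_true, if_false] <;> omega
  · intro he0 hng
    have q0 : fl E0 e0 u v = ah E0 u v := by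
      unfold fl ah; by_cases hh : E0 u < E0 v <;> simp [hh, he0]
    subst hng
    unfold phi
    rw [q0, q1]
    simp only [Bool.false_eq_true, if_false]
    omega

/-- The pair lemma for the noise phase. `u` is requested before `v`, each of them one or three
times; `e a b` is the new list of the offline algorithm. -/
lemma noise_pair (hS : ∀ h, Function.Injective (S h)) {u v : ι} (huv : u ≠ v) (A B C h : List ι)
    (e : Bool → Bool → ι → ℤ) (h01 : ¬ (e false true u < e false true v))
    (h10 : e true false u < e true false v) (h11 : ¬ (e true true u < e true true v)) :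
    (e false false u < e false false v → (6 : ℤ) + 4 * ah (S h) v u ≤
      ∑ a : Bool, ∑ b : Bool, (pa S u v h (A ++ (rep a u ++ (B ++ (rep b v ++ C)))) +
        phi (a && b) (S ((A ++ (rep a u ++ (B ++ (rep b v ++ C)))).reverse ++ h)) (e a b) u v)) ∧
    (¬ (e false false u < e false false v) → (5 : ℤ) + 4 * ah (S h) v u ≤
      ∑ a : Bool, ∑ b : Bool, (pa S u v h (A ++ (rep a u ++ (B ++ (rep b v ++ C)))) +
        phi (a && b) (S ((A ++ (rep a u ++ (B ++ (rep b v ++ C)))).reverse ++ h)) (e a b) u v)) := by
  set H0 := A.reverse ++ h with hH0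
  set G0 := B.reverse ++ (u :: H0) with hG0
  set G1 := B.reverse ++ (u :: u :: u :: H0) with hG1
  have rr0 : ∀ b, (A ++ (rep false u ++ (B ++ (rep b v ++ C)))).reverse ++ h =
      (rep b v ++ C).reverse ++ G0 := by
    intro b; simp [rep, hG0, hH0]
  have rr1 : ∀ b, (A ++ (rep true u ++ (B ++ (rep b v ++ C)))).reverse ++ h =
      (rep b v ++ C).reverse ++ G1 := by
    intro b; simp [rep, hG1, hH0]
  have pp0 : ∀ b, pa S u v h (A ++ (rep false u ++ (B ++ (rep b v ++ C)))) =
      pa S u v h A + (max (ah (S H0) v u) (ah (S (u :: H0)) v u) + (pa S u v (u :: H0) B +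
        pa S u v G0 (rep b v ++ C))) := by
    intro b
    rw [pa_append]
    simp only [rep, Bool.false_eq_true, if_false, List.singleton_append, pa, pc_left]
    rw [pa_append]
  have pp1 : ∀ b, pa S u v h (A ++ (rep true u ++ (B ++ (rep b v ++ C)))) =
      pa S u v h A + (max (ah (S H0) v u) (ah (S (u :: H0)) v u) +
        (max (ah (S (u :: H0)) v u) (ah (S (u :: u :: H0)) v u) +
        (max (ah (S (u :: u :: H0)) v u) (ah (S (u :: u :: u :: H0)) v u) +
        (pa S u v (u :: u :: u :: H0) B + pa S u v G1 (rep b v ++ C))))) := by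
    intro b
    rw [pa_append]
    simp only [rep, if_true, List.cons_append, List.nil_append, pa, pc_left]
    rw [pa_append]
  have a0 := fl_le_pa hS u v A h
  have a1 := fl_le_pa hS u v B (u :: H0)
  have a2 := fl_le_pa hS u v B (u :: u :: u :: H0)
  rw [← hH0] at a0
  rw [← hG0] at a1
  rw [← hG1] at a2
  have f0 := ah_le_fl (S h) (S H0) v u
  have f1 := ah_le_fl' (S (u :: H0)) (S G0) v u
  have f2 := ah_le_fl' (S (u :: u :: u :: H0)) (S G1) v u
  rw [fl_symm (hS _) (hS _)] at f0 f1 f2
  have b0 := ah_le_one (S H0) v u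
  have b1 := ah_le_one (S (u :: H0)) v u
  have b2 := ah_le_one (S (u :: u :: H0)) v u
  have b3 := ah_le_one (S (u :: u :: u :: H0)) v u
  have v1 := (stage_v hS huv C G1 true (e true false) (e true true) h11).1 h10
  have key : ∀ c : ℤ, c - 2 * ah (S G0) v u ≤
      (pa S u v G0 (rep false v ++ C) +
        phi false (S ((rep false v ++ C).reverse ++ G0)) (e false false) u v) +
      (pa S u v G0 (rep true v ++ C) +
        phi false (S ((rep true v ++ C).reverse ++ G0)) (e false true) u v) →
      c + 3 + 4 * ah (S h) v u ≤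
      ∑ a : Bool, ∑ b : Bool, (pa S u v h (A ++ (rep a u ++ (B ++ (rep b v ++ C)))) +
        phi (a && b) (S ((A ++ (rep a u ++ (B ++ (rep b v ++ C)))).reverse ++ h)) (e a b) u v) := by
    intro c hc
    simp only [Fintype.sum_bool, Bool.and_true, Bool.and_false, rr0, rr1, pp0, pp1]
    push_cast
    omega
  constructor
  · intro h00
    have := key 3 ((stage_v hS huv C G0 false (e false false) (e false true) h01).1 h00)
    linarith
  · intro h00
    have := key 2 ((stage_v hS huv C G0 false (e false false) (e false true) h01).2 h00 rfl)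
    linarith

end Pool.Agent.Lib.MP_b3fcb1_lc
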