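import Pool.Agent.Lib.MP_b3fcb1_lc.Lev0
import Pool.Agent.Lib.MP_b3fcb1_lc.Lev1
import Pool.Agent.Lib.MP_b3fcb1_lc.Lev2
import Pool.Agent.Lib.MP_b3fcb1_lc.Lev3
import Pool.Agent.Lib.MP_b3fcb1_lc.Lev4
import Pool.Agent.Lib.MP_b3fcb1_lc.Lev5
import Pool.Agent.Lib.MP_b3fcb1_lc.Lev6
import Pool.Agent.Lib.MP_b3fcb1_lc.Lev7

/-!
The certificate of the gadget with seven blocks, and the resulting lower bound.
-/

namespace Pool.Agent.Lib.MP_b3fcb1_lc

namespace Seven

lemma getD_self_inj {l : List ℕ} (h1 : l = [] ∨ l.Perm (List.range 7)) :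
    Function.Injective (fun i => l.getD i i) ∧ (∀ i, i < 7 → l.getD i i < 7) ∧
      l.getD 7 7 = 7 := by
  rcases h1 with h1 | h1
  · subst h1
    refine ⟨fun i j h => by simpa using h, fun i h => by simpa using h, by simp⟩
  · have hlen : l.length = 7 := by rw [h1.length_eq]; simp
    have hnd : l.Nodup := h1.nodup_iff.mpr List.nodup_range
    have hlt : ∀ i, i < 7 → l.getD i i < 7 := by
      intro i hi
      rw [List.getD_eq_getElem l i (by omega)]
      have := h1.subset (List.getElem_mem (l := l) (n := i) (by omega))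
      exact List.mem_range.mp this
    have hge : ∀ i, 7 ≤ i → l.getD i i = i := by
      intro i hi
      rw [List.getD_eq_default l i (by omega)]
    refine ⟨?_, hlt, hge 7 le_rfl⟩
    intro i j h
    simp only at h
    by_cases hi : i < 7
    · by_cases hj : j < 7
      · rw [List.getD_eq_getElem l i (by omega), List.getD_eq_getElem l j (by omega)] at h
        exact (List.Nodup.getElem_inj_iff hnd).mp h
      · have h2 := hlt i hi
        rw [h, hge j (by omega)] at h2
        omega
    · by_cases hj : j < 7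
      · have h2 := hlt j hj
        rw [← h, hge i (by omega)] at h2
        omega
      · rw [hge i (by omega), hge j (by omega)] at h
        exact h

lemma getD_mem_or {α : Type*} (l : List α) (c : ℕ) (d : α) : l.getD c d = d ∨ l.getD c d ∈ l := by
  by_cases h : c < l.length
  · right
    rw [List.getD_eq_getElem l d h]
    exact List.getElem_mem h
  · left
    exact List.getD_eq_default l d (by omega)

lemma rL_ok : ∀ l ∈ rL, l.Perm (List.range 7) := by decide

lemma qL_ok : ∀ l ∈ qL, (l.getD 0 [] = [] ∧ ∀ l' ∈ l, l' = [] ∨ l'.Perm (List.range 7)) := by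
  decide

lemma hL_ok : ∀ c ∈ hL, c ≤ 8 := by decide

lemma r_or (c : ℕ) : rL.getD c [] = [] ∨ (rL.getD c []).Perm (List.range 7) := by
  rcases getD_mem_or rL c [] with h | h
  · exact Or.inl h
  · exact Or.inr (rL_ok _ h)

lemma q_or (c t : ℕ) : (qL.getD c []).getD t [] = [] ∨
    ((qL.getD c []).getD t []).Perm (List.range 7) := by
  rcases getD_mem_or qL c [] with h | h
  · rw [h]; simp
  · rcases getD_mem_or (qL.getD c []) t [] with h1 | h1
    · exact Or.inl h1
    · exact (qL_ok _ h).2 _ h1

lemma q_zero (c : ℕ) : (qL.getD c []).getD 0 [] = [] := by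
  rcases getD_mem_or qL c [] with h | h
  · rw [h]; simp
  · exact (qL_ok _ h).1

lemma G_ok : G.Ok where
  R_inj c := (getD_self_inj (r_or c)).1
  R_lt c := (getD_self_inj (r_or c)).2.1
  R_k c := (getD_self_inj (r_or c)).2.2
  q_inj c t := (getD_self_inj (q_or c t)).1
  q_lt c t := (getD_self_inj (q_or c t)).2.1
  q_k c t := (getD_self_inj (q_or c t)).2.2
  q_zero c i := by
    show ((qL.getD c []).getD 0 []).getD i i = i
    rw [q_zero]; simp
  h_le c := by
    show hL.getD c 0 ≤ 8
    rcases getD_mem_or hL c 0 with h | h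
    · omega
    · exact hL_ok _ h

/-- the tables of the certificate -/
def Tt : ℕ → List ℕ
  | 0 => T0
  | 1 => T1
  | 2 => T2
  | 3 => T3
  | 4 => T4
  | 5 => T5
  | 6 => T6
  | 7 => T7
  | _ => []

/-- the tables of linear parts -/
def Ft : ℕ → ℕ
  | 0 => F1
  | 1 => F2
  | 2 => F3
  | 3 => F4
  | 4 => F5
  | 5 => F6
  | 6 => F7
  | 7 => F8
  | _ => 0

/-- the tables of exchange costs -/
def Ct : ℕ → ℕ
  | 0 => C0
  | 1 => C1
  | 2 => C2
  | 3 => C3
  | 4 => C4
  | 5 => C5
  | 6 => C6
  | 7 => C7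
  | _ => 0

lemma lev : ∀ t < 8,
    walk (leafOk (Tt t) (Tt (t + 1)) E (Ct t)) E (Ft t) 7 [] (List.range 7) 0 0 = true := by
  intro t ht
  interval_cases t
  · exact lev0
  · exact lev1
  · exact lev2
  · exact lev3
  · exact lev4
  · exact lev5
  · exact lev6
  · exact lev7

lemma FL_eq : ∀ t < 8, ∀ a b : Fin 7, a ≠ b → (look2 (Ft t) a b : ℤ) = G.FL (t + 1) a b := by
  decide +kernel

lemma F0_eq : ∀ a b : Fin 7, a ≠ b → (look2 F0 a b : ℤ) =
    G.FL 0 a b + 2 * G.Wt * (if b < a then G.ww a b else 0) := by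
  decide +kernel

lemma dc_eq : ∀ t < 8, ∀ a b : Fin 7, a ≠ b → (look2 (Ct t) a b : ℤ) = G.dc t a b := by
  decide +kernel

lemma K0_eq : G.K0 = 816834199368 := by decide +kernel

lemma Pen_eq : G.Pen = 1566986156 := by decide +kernel

lemma K2_eq : G.K2 = 620051587345 := by decide +kernel

lemma Wt_eq : G.Wt = 1000001 := by decide +kernel

lemma pre_eq : pre G.w 7 = 1006 := by decide +kernel

lemma w_pos : ∀ i : Fin 7, 0 < G.w i := by decide

theorem cert : G.Cert 6198901624 := by
  refine Gadget.cert_of G_ok (fun t z => tabU E (Tt t) z) ?_ ?_ ?_ ?_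
  · intro t ht z a b hab
    have h1 := (level_spec (lev t ht) z).2 a b hab
    have hne : a ≠ b := by rintro rfl; omega
    rw [dc_eq t ht a b hne] at h1
    exact h1
  · intro t ht z
    have h1 := (level_spec (lev t ht) z).1
    rw [form_congr (FL_eq t ht)] at h1
    exact h1
  · intro z
    show tabU E [] z ≤ 0
    have : ∀ i, look [] i = 0 := by
      intro i
      show Nat.land (0 >>> (48 * (i % 252))) _ = 0
      rw [Nat.zero_shiftRight]
      exact Nat.zero_and _
    unfold tabU
    rw [this]; simp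
  · intro z
    have h1 := level0_spec init z
    rw [form_congr F0_eq] at h1
    rw [K0_eq]
    exact h1

end Seven

end Pool.Agent.Lib.MP_b3fcb1_lc
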