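import Pool.Agent.Lib.MP_b3fcb1_lc.Tuple

/-!
The total excess of one cycle.
-/

namespace Pool.Agent.Lib.MP_b3fcb1_lc

section self

variable {ι : Type*} [DecidableEq ι]

lemma pc_self (r : ι) (f g : ι → ℤ) (x : ι) : pc r f g x x = 0 := by
  unfold pc
  rw [ah_self, ah_self, fl_self]; simp

lemma pa_self (S : List ι → ι → ℤ) (x : ι) (s : List ι) : ∀ h, pa S x x h s = 0 := by
  induction s with
  | nil => intro h; rfl
  | cons r s ih => intro h; simp only [pa, ih, pc_self]

lemma po_self (x : ι) (e : ι → ℤ) (L : List (ι × (ι → ℤ))) : ∀ f, po x x f L e = 0 := by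
  induction L with
  | nil => intro f; exact fl_self _ _ _
  | cons p L ih =>
    intro f
    simp only [po, ih, fl_self, acc, ah_self]; simp

omit [DecidableEq ι] in
lemma phi_self (b : Bool) (f e : ι → ℤ) (x : ι) : phi b f e x x = 0 := by
  unfold phi; rw [fl_self]; simp

end self

lemma pull_out {k n : ℕ} (P : Fin k → ℤ) (I : Fin n → Fin n → Fin k → ℤ) :
    ∑ x : Fin n, ∑ y : Fin n, ∑ b : Fin k, P b * I x y b =
      ∑ b : Fin k, P b * ∑ x : Fin n, ∑ y : Fin n, I x y b := by
  calc _ = ∑ x : Fin n, ∑ b : Fin k, ∑ y : Fin n, P b * I x y b := by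
        apply Finset.sum_congr rfl; intro x _; exact Finset.sum_comm
    _ = ∑ b : Fin k, ∑ x : Fin n, ∑ y : Fin n, P b * I x y b := Finset.sum_comm
    _ = _ := by
        apply Finset.sum_congr rfl; intro b _
        rw [Finset.mul_sum]
        apply Finset.sum_congr rfl; intro x _
        rw [Finset.mul_sum]

namespace Gadget

variable {k : ℕ} (G : Gadget k) {n : ℕ} (m : ℕ)

/-- total excess of a pair (times four, weighted, not normalised) -/
def EX (S : List (Fin n) → Fin n → ℤ) (x y : Fin n) : ℤ :=
  ∑ c ∈ Finset.range G.N, (G.wt c : ℤ) * ∑ o : Bool, ∑ β : Fin n → Bool, G.ex m S x y c o β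

/-- total offline cost of a pair (times two, weighted, not normalised) -/
def OP (x y : Fin n) : ℤ :=
  ∑ c ∈ Finset.range G.N, (G.wt c : ℤ) * ∑ o : Bool, ∑ β : Fin n → Bool,
    2 * (po x y (idk n) (G.cycO m c o β) (G.cycE m c o β) : ℤ)

/-- total weight of the outcomes -/
def Wt : ℤ := ∑ c ∈ Finset.range G.N, (G.wt c : ℤ)

/-- weighted excess of a pair of blocks -/
def Mac (g : ℕ → Fin k → ℤ) (i j : Fin k) : ℤ :=
  ∑ c ∈ Finset.range G.N, (G.wt c : ℤ) * G.mac g i j c

/-- The certificate: whatever the online algorithm does, the blocks yield at least `G2`. -/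
def Cert (G2 : ℤ) : Prop :=
  ∀ g : ℕ → Fin k → ℤ, (∀ t, Function.Injective (g t)) →
    G2 ≤ ∑ i : Fin k, ∑ j : Fin k,
      if i < j then ((G.w i : ℤ) * G.w j) * G.Mac g i j else 0

/-- loss by repeated passes -/
def Pen : ℤ := ∑ b : Fin k, (G.w b : ℤ) ^ 2 *
  ∑ c ∈ Finset.range G.N, (G.wt c : ℤ) * ((G.cnt (G.h c) b - 1 : ℕ) : ℤ)

/-- offline cost of the passes -/
def K2 : ℤ := (∑ i : Fin k, ∑ j : Fin k, if i < j then ((G.w i : ℤ) * G.w j) *
    (∑ c ∈ Finset.range G.N, (G.wt c : ℤ) *
      (2 * (G.WP c i j : ℤ) + (fl (G.Rz c) (G.qz c (G.h c)) i j : ℤ))) else 0) +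
  ∑ b : Fin k, (G.w b : ℤ) ^ 2 * ∑ c ∈ Finset.range G.N, (G.wt c : ℤ) * (G.cnt (G.h c) b : ℤ)

variable {G}

lemma mac_congr {g g' : ℕ → Fin k → ℤ} {i j : Fin k} (hi : ∀ s, g s i = g' s i)
    (hj : ∀ s, g s j = g' s j) (c : ℕ) : G.mac g i j c = G.mac g' i j c := by
  have h1 : ∀ s t, fl (g s) (g t) i j = fl (g' s) (g' t) i j := by
    intro s t; unfold fl; rw [hi, hj, hi, hj]
  have h2 : ∀ s, ah (g s) i j = ah (g' s) i j ∧ ah (g s) j i = ah (g' s) j i := by
    intro s; unfold ah; rw [hi, hj]; exact ⟨rfl, rfl⟩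
  have h3 : ∀ s (f : Fin k → ℤ), fl (g s) f i j = fl (g' s) f i j := by
    intro s f; unfold fl; rw [hi, hj]
  unfold mac
  rw [h3, h3]
  have h4 : ∀ s, pc (G.path s) (g s) (g (s + 1)) i j =
      pc (G.path s) (g' s) (g' (s + 1)) i j := by
    intro s
    unfold pc
    rw [(h2 _).1, (h2 _).1, (h2 _).2, (h2 _).2, h1]
  simp only [h4]

variable (hG : G.Ok)

include hG

lemma ex_symm {S : List (Fin n) → Fin n → ℤ} (hS : ∀ h, Function.Injective (S h)) (x y : Fin n)
    (c : ℕ) (o : Bool) (β : Fin n → Bool) : G.ex m S x y c o β = G.ex m S y x c o β := by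
  have hsg : G.sg m x y = G.sg m y x := Bool.and_comm _ _
  unfold ex
  rw [pa_symm hS, phi_symm' _ (hS _) (cycE_inj m hG c o β), phi_symm' _ (hS _) (idk_inj n),
    po_symm x y _ (cycE_inj m hG c o β) _ (cycO_inj m hG c o β) _ (idk_inj n),
    Bool.and_comm (β x), hsg]

lemma EX_symm {S : List (Fin n) → Fin n → ℤ} (hS : ∀ h, Function.Injective (S h))
    (x y : Fin n) : G.EX m S x y = G.EX m S y x := by
  unfold EX
  simp only [ex_symm m hG hS x y]

omit hG in
lemma EX_self (S : List (Fin n) → Fin n → ℤ) (x : Fin n) : G.EX m S x x = 0 := by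
  unfold EX ex
  simp only [pa_self, po_self, phi_self]
  simp

lemma OP_symm (x y : Fin n) : G.OP m x y = G.OP m y x := by
  unfold OP
  have : ∀ c o β, po x y (idk n) (G.cycO m c o β) (G.cycE m c o β) =
      po y x (idk n) (G.cycO m c o β) (G.cycE m c o β) := fun c o β =>
    po_symm x y _ (cycE_inj m hG c o β) _ (cycO_inj m hG c o β) _ (idk_inj n)
  simp only [this]

omit hG in
lemma OP_self (x : Fin n) : G.OP m x x = 0 := by
  unfold OP
  simp only [po_self]
  simp

/-- the total excess of a cycle -/
theorem EX_total {S : List (Fin n) → Fin n → ℤ} (hS : ∀ h, Function.Injective (S h))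
    (hm : m * pre G.w k ≤ n) (hw : ∀ i : Fin k, 0 < G.w i) {G2 : ℤ} (hC : G.Cert G2) :
    2 ^ n * (m : ℤ) ^ 2 * (8 * G2 - 4 * G.Pen) ≤ ∑ x, ∑ y, G.EX m S x y := by
  rw [sum_symm _ (EX_symm m hG hS) (EX_self m S)]
  -- pair version of the macro excess
  set H : ℕ → List (Fin n) := fun s => (G.phR m n s).reverse with hH
  set Y : Fin k → Fin k → Fin n → Fin n → ℤ := fun i j a b =>
    G.Mac (fun s l => if l = i then S (H s) a else S (H s) b) i j with hY
  set Pb : Fin k → ℤ := fun b => ∑ c ∈ Finset.range G.N, (G.wt c : ℤ) *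
    ((G.cnt (G.h c) b - 1 : ℕ) : ℤ) with hPb
  have htup := tuple_sum (fun i : Fin k => block G.w k m n i) (fun i : Fin k => G.w i) m
    (fun i => card_block i.isLt hm) hw Y G2 (by
      intro X hX
      rw [Fintype.mem_piFinset] at hX
      have hX' : ∀ i, blk G.w k m (X i) = i := fun i => mem_block.mp (hX i)
      have hXinj : Function.Injective X := by
        intro i j hij
        apply Fin.ext
        rw [← hX' i, ← hX' j, hij]
      refine (hC (fun s i => S (H s) (X i)) (fun t => (hS _).comp hXinj)).trans (le_of_eq ?_)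
      apply Finset.sum_congr rfl
      intro i _
      apply Finset.sum_congr rfl
      intro j _
      by_cases hij : i < j
      · rw [if_pos hij, if_pos hij]
        congr 1
        simp only [hY, Mac]
        apply Finset.sum_congr rfl
        intro c _
        congr 1
        apply mac_congr
        · intro s; simp
        · intro s; simp [hij.ne']
      · rw [if_neg hij, if_neg hij])
  have hsb := sum_blocks (k := k) (G.bl m (n := n)) (fun i j a b => Y i j a b)
  have hblk : ∀ i : Fin k, (Finset.univ.filter (fun r : Fin n => G.bl m r = i)) =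
      block G.w k m n i := fun i => rfl
  simp only [hblk] at hsb
  rw [hsb] at htup
  -- pointwise bound
  have hpt : ∀ x y : Fin n,
      (2 ^ n * 4) * (if h : G.bl m x < G.bl m y ∧ G.bl m y < k then
        Y ⟨G.bl m x, h.1.trans h.2⟩ ⟨G.bl m y, h.2⟩ x y else 0) -
      ∑ b : Fin k, (2 ^ n * 4 * Pb b) * (if x < y ∧ x ∈ block G.w k m n b ∧
        y ∈ block G.w k m n b then 1 else 0) ≤
      if x < y then G.EX m S x y else 0 := by
    intro x y
    by_cases hxy : x < y
    · rw [if_pos hxy]
      have hble := bl_mono (G := G) m hxy.le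
      have hblk' := bl_le (G := G) m y
      by_cases hyk : G.bl m y = k
      · rw [dif_neg (by rintro ⟨_, h⟩; omega)]
        have : ∀ b : Fin k, (2 ^ n * 4 * Pb b) * (if x < y ∧ x ∈ block G.w k m n b ∧
            y ∈ block G.w k m n b then (1 : ℤ) else 0) = 0 := by
          intro b
          rw [if_neg, mul_zero]
          rintro ⟨_, _, h⟩
          have h1 : G.bl m y = b := mem_block.mp h
          have := b.isLt
          omega
        simp only [this, Finset.sum_const_zero, mul_zero, sub_zero]
        unfold EX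
        apply Finset.sum_nonneg
        intro c _
        apply mul_nonneg (by positivity)
        apply Finset.sum_nonneg
        intro o _
        exact ex_rest m hG hS c o hxy hyk
      · by_cases hlt : G.bl m x < G.bl m y
        · have hyk' : G.bl m y < k := lt_of_le_of_ne hblk' hyk
          rw [dif_pos ⟨hlt, hyk'⟩]
          have : ∀ b : Fin k, (2 ^ n * 4 * Pb b) * (if x < y ∧ x ∈ block G.w k m n b ∧
              y ∈ block G.w k m n b then (1 : ℤ) else 0) = 0 := by
            intro b
            rw [if_neg, mul_zero]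
            rintro ⟨_, h1, h2⟩
            have h1' : G.bl m x = b := mem_block.mp h1
            have h2' : G.bl m y = b := mem_block.mp h2
            omega
          simp only [this, Finset.sum_const_zero, sub_zero]
          set i : Fin k := ⟨G.bl m x, hlt.trans hyk'⟩ with hi
          set j : Fin k := ⟨G.bl m y, hyk'⟩ with hj
          have hij : i < j := hlt
          unfold EX
          simp only [hY, Mac]
          rw [Finset.mul_sum]
          apply Finset.sum_le_sum
          intro c _
          have := ex_cross (G := G) m hG hS c (x := x) (y := y) (i := i) (j := j) rfl rfl hij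
            (fun s l => if l = i then S (H s) x else S (H s) y)
            (by intro s; simp [hH]) (by intro s; simp [hij.ne', hH])
          have hwt : (0 : ℤ) ≤ G.wt c := by positivity
          have h2 := mul_le_mul_of_nonneg_left this hwt
          linarith
        · have he : G.bl m x = G.bl m y := by omega
          have hyk' : G.bl m y < k := lt_of_le_of_ne hblk' hyk
          rw [dif_neg (by rintro ⟨h, _⟩; exact hlt h)]
          rw [Finset.sum_eq_single (⟨G.bl m y, hyk'⟩ : Fin k)]
          · rw [if_pos ⟨hxy, mem_block.mpr he, mem_block.mpr rfl⟩]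
            unfold EX
            simp only [hPb, mul_zero, mul_one, zero_sub]
            rw [Finset.mul_sum, ← Finset.sum_neg_distrib]
            apply Finset.sum_le_sum
            intro c _
            have := ex_block (G := G) m hG hS c hxy he hyk'
            rw [he] at this
            have hwt : (0 : ℤ) ≤ G.wt c := by positivity
            have h2 := mul_le_mul_of_nonneg_left this hwt
            linarith
          · intro b _ hb
            rw [if_neg, mul_zero]
            rintro ⟨_, _, h2⟩
            have h2' : G.bl m y = b := mem_block.mp h2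
            exact hb (Fin.ext h2'.symm)
          · intro hc; exact absurd (Finset.mem_univ _) hc
    · rw [if_neg hxy]
      have h1 : ¬ (G.bl m x < G.bl m y ∧ G.bl m y < k) := by
        rintro ⟨h, _⟩
        have := bl_mono (G := G) m (not_lt.mp hxy)
        omega
      rw [dif_neg h1]
      have : ∀ b : Fin k, (2 ^ n * 4 * Pb b) * (if x < y ∧ x ∈ block G.w k m n b ∧
          y ∈ block G.w k m n b then (1 : ℤ) else 0) = 0 := by
        intro b
        rw [if_neg, mul_zero]
        rintro ⟨h, _⟩
        exact hxy h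
      simp only [this, Finset.sum_const_zero, mul_zero, sub_zero, le_refl]
  have hsum := Finset.sum_le_sum fun x (_ : x ∈ Finset.univ) =>
    Finset.sum_le_sum fun y (_ : y ∈ (Finset.univ : Finset (Fin n))) => hpt x y
  simp only [Finset.sum_sub_distrib, ← Finset.mul_sum] at hsum
  -- the pairs inside the blocks
  have hin : ∑ x : Fin n, ∑ y : Fin n, ∑ b : Fin k, (2 ^ n * 4 * Pb b) *
      (if x < y ∧ x ∈ block G.w k m n b ∧ y ∈ block G.w k m n b then (1 : ℤ) else 0) ≤
      2 ^ n * 2 * (m : ℤ) ^ 2 * G.Pen := by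
    rw [pull_out (fun b => 2 ^ n * 4 * Pb b) (fun x y (b : Fin k) =>
      if x < y ∧ x ∈ block G.w k m n b ∧ y ∈ block G.w k m n b then (1 : ℤ) else 0)]
    unfold Pen
    rw [Finset.mul_sum]
    apply Finset.sum_le_sum
    intro b _
    have h1 := pairs_le (block G.w k m n b)
    rw [card_block b.isLt hm] at h1
    have h2 : 0 ≤ Pb b := by
      simp only [hPb]
      apply Finset.sum_nonneg; intro c _; positivity
    have h3 : (0 : ℤ) ≤ 2 ^ n * 2 * Pb b := by positivity
    have h4 := mul_le_mul_of_nonneg_left h1 h3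
    push_cast at h4
    refine le_trans (le_of_eq ?_) (h4.trans (le_of_eq ?_))
    · ring
    · simp only [hPb]; ring
  have h4n : (0 : ℤ) ≤ 2 ^ n * 4 := by positivity
  have htup' := mul_le_mul_of_nonneg_left htup h4n
  nlinarith [hsum, hin, htup']

/-- the total offline cost of a cycle -/
theorem OP_total (hm : m * pre G.w k ≤ n) :
    ∑ x, ∑ y, G.OP m (n := n) x y ≤ 2 ^ n * 4 * (G.Wt * (n : ℤ) ^ 2 + G.K2 * (m : ℤ) ^ 2) := by
  rw [sum_symm _ (OP_symm m hG) (OP_self m)]
  set Z : Fin k → Fin k → ℤ := fun i j => ∑ c ∈ Finset.range G.N, (G.wt c : ℤ) *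
      (2 * (G.WP c i j : ℤ) + (fl (G.Rz c) (G.qz c (G.h c)) i j : ℤ)) with hZ
  set Cb : Fin k → ℤ := fun b => ∑ c ∈ Finset.range G.N, (G.wt c : ℤ) *
    (G.cnt (G.h c) b : ℤ) with hCb
  have hZ0 : ∀ i j, 0 ≤ Z i j := by
    intro i j; apply Finset.sum_nonneg; intro c _; positivity
  have hCb0 : ∀ b, 0 ≤ Cb b := by
    intro b; apply Finset.sum_nonneg; intro c _; positivity
  have hWt0 : 0 ≤ G.Wt := by
    unfold Wt; apply Finset.sum_nonneg; intro c _; positivity
  have hpt : ∀ x y : Fin n, (if x < y then G.OP m x y else 0) ≤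
      (2 ^ n * 4 * G.Wt) * (if x < y ∧ x ∈ (Finset.univ : Finset (Fin n)) ∧
        y ∈ (Finset.univ : Finset (Fin n)) then 1 else 0) +
      (2 ^ n * 2) * (if h : G.bl m x < G.bl m y ∧ G.bl m y < k then
        Z ⟨G.bl m x, h.1.trans h.2⟩ ⟨G.bl m y, h.2⟩ else 0) +
      ∑ b : Fin k, (2 ^ n * 4 * Cb b) * (if x < y ∧ x ∈ block G.w k m n b ∧
        y ∈ block G.w k m n b then 1 else 0) := by
    intro x y
    have hnn : 0 ≤ ∑ b : Fin k, (2 ^ n * 4 * Cb b) * (if x < y ∧ x ∈ block G.w k m n b ∧
        y ∈ block G.w k m n b then (1 : ℤ) else 0) := by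
      apply Finset.sum_nonneg
      intro b _
      have := hCb0 b
      split_ifs <;> positivity
    by_cases hxy : x < y
    · rw [if_pos hxy, if_pos ⟨hxy, Finset.mem_univ _, Finset.mem_univ _⟩, mul_one]
      have hble := bl_mono (G := G) m hxy.le
      have hblk' := bl_le (G := G) m y
      by_cases hyk : G.bl m y = k
      · rw [dif_neg (by rintro ⟨_, h⟩; omega)]
        have h1 : G.OP m x y ≤ 2 ^ n * 4 * G.Wt := by
          unfold OP Wt
          rw [Finset.mul_sum]
          apply Finset.sum_le_sum
          intro c _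
          have a1 := op_rest (G := G) m hG c true hxy hyk
          have a2 := op_rest (G := G) m hG c false hxy hyk
          rw [Fintype.sum_bool]
          have hwt : (0 : ℤ) ≤ G.wt c := by positivity
          have h2 := mul_le_mul_of_nonneg_left (add_le_add a1 a2) hwt
          linarith
        linarith
      · have hyk' : G.bl m y < k := lt_of_le_of_ne hblk' hyk
        by_cases hlt : G.bl m x < G.bl m y
        · rw [dif_pos ⟨hlt, hyk'⟩]
          set i : Fin k := ⟨G.bl m x, hlt.trans hyk'⟩ with hi
          set j : Fin k := ⟨G.bl m y, hyk'⟩ with hj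
          have hij : i < j := hlt
          have h1 : G.OP m x y ≤ 2 ^ n * 4 * G.Wt + 2 ^ n * 2 * Z i j := by
            unfold OP Wt
            simp only [hZ]
            rw [Finset.mul_sum, Finset.mul_sum, ← Finset.sum_add_distrib]
            apply Finset.sum_le_sum
            intro c _
            have a1 := op_cross (G := G) m hG c true (x := x) (y := y) (i := i) (j := j)
              rfl rfl hij
            have a2 := op_cross (G := G) m hG c false (x := x) (y := y) (i := i) (j := j)
              rfl rfl hij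
            rw [Fintype.sum_bool]
            have hwt : (0 : ℤ) ≤ G.wt c := by positivity
            have h2 := mul_le_mul_of_nonneg_left (add_le_add a1 a2) hwt
            linarith
          linarith
        · have he : G.bl m x = G.bl m y := by omega
          rw [dif_neg (by rintro ⟨h, _⟩; exact hlt h)]
          rw [Finset.sum_eq_single (⟨G.bl m y, hyk'⟩ : Fin k)]
          · rw [if_pos ⟨hxy, mem_block.mpr he, mem_block.mpr rfl⟩]
            unfold OP Wt
            simp only [hCb, mul_zero, mul_one, add_zero]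
            rw [Finset.mul_sum, Finset.mul_sum, ← Finset.sum_add_distrib]
            apply Finset.sum_le_sum
            intro c _
            have a1 := op_block (G := G) m hG c true hxy he
            have a2 := op_block (G := G) m hG c false hxy he
            rw [Fintype.sum_bool]
            rw [he] at a1 a2
            have hwt : (0 : ℤ) ≤ G.wt c := by positivity
            have h2 := mul_le_mul_of_nonneg_left (add_le_add a1 a2) hwt
            linarith
          · intro b _ hb
            rw [if_neg, mul_zero]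
            rintro ⟨_, _, h2⟩
            have h2' : G.bl m y = b := mem_block.mp h2
            exact hb (Fin.ext h2'.symm)
          · intro hc; exact absurd (Finset.mem_univ _) hc
    · rw [if_neg hxy, if_neg (fun h => hxy h.1), mul_zero, zero_add]
      have : 0 ≤ (2 ^ n * 2 : ℤ) * (if h : G.bl m x < G.bl m y ∧ G.bl m y < k then
        Z ⟨G.bl m x, h.1.trans h.2⟩ ⟨G.bl m y, h.2⟩ else 0) := by
        split_ifs with h
        · have := hZ0 ⟨G.bl m x, h.1.trans h.2⟩ ⟨G.bl m y, h.2⟩
          positivity
        · simp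
      linarith
  have hsum := Finset.sum_le_sum fun x (_ : x ∈ Finset.univ) =>
    Finset.sum_le_sum fun y (_ : y ∈ (Finset.univ : Finset (Fin n))) => hpt x y
  simp only [Finset.sum_add_distrib, ← Finset.mul_sum] at hsum
  have h1 := pairs_le (Finset.univ : Finset (Fin n))
  rw [Finset.card_univ, Fintype.card_fin] at h1
  have hsb := sum_blocks (k := k) (G.bl m (n := n)) (fun i j _ _ => Z i j)
  have hblk : ∀ i : Fin k, (Finset.univ.filter (fun r : Fin n => G.bl m r = i)) =
      block G.w k m n i := fun i => rfl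
  simp only [hblk, Finset.sum_const, nsmul_eq_mul] at hsb
  have hcb : ∀ i : Fin k, ((block G.w k m n i).card : ℤ) = m * G.w i := by
    intro i; rw [card_block i.isLt hm]; push_cast; ring
  simp only [hcb] at hsb
  rw [← hsb] at hsum
  have e2 : (∑ i : Fin k, ∑ j : Fin k, if i < j then
      (m * G.w i : ℤ) * ((m * G.w j : ℤ) * Z i j) else 0) =
      (m : ℤ) ^ 2 * ∑ i : Fin k, ∑ j : Fin k, if i < j then ((G.w i : ℤ) * G.w j) * Z i j
        else 0 := by
    rw [Finset.mul_sum]
    apply Finset.sum_congr rfl; intro i _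
    rw [Finset.mul_sum]
    apply Finset.sum_congr rfl; intro j _
    split_ifs
    · ring
    · simp
  rw [e2] at hsum
  have hin : ∑ x : Fin n, ∑ y : Fin n, ∑ b : Fin k, (2 ^ n * 4 * Cb b) *
      (if x < y ∧ x ∈ block G.w k m n b ∧ y ∈ block G.w k m n b then (1 : ℤ) else 0) ≤
      2 ^ n * 2 * (m : ℤ) ^ 2 * ∑ b : Fin k, (G.w b : ℤ) ^ 2 * Cb b := by
    rw [pull_out (fun b => 2 ^ n * 4 * Cb b) (fun x y (b : Fin k) =>
      if x < y ∧ x ∈ block G.w k m n b ∧ y ∈ block G.w k m n b then (1 : ℤ) else 0)]
    rw [Finset.mul_sum]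
    apply Finset.sum_le_sum
    intro b _
    have h1 := pairs_le (block G.w k m n b)
    rw [card_block b.isLt hm] at h1
    have h3 : (0 : ℤ) ≤ 2 ^ n * 2 * Cb b := by have := hCb0 b; positivity
    have h4 := mul_le_mul_of_nonneg_left h1 h3
    push_cast at h4
    refine le_trans (le_of_eq ?_) (h4.trans (le_of_eq ?_))
    · ring
    · ring
  have hK : G.K2 = (∑ i : Fin k, ∑ j : Fin k, if i < j then ((G.w i : ℤ) * G.w j) * Z i j
        else 0) + ∑ b : Fin k, (G.w b : ℤ) ^ 2 * Cb b := rfl
  rw [hK]
  have hw4 : (0 : ℤ) ≤ 2 ^ n * 2 * G.Wt := by positivity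
  have h1' := mul_le_mul_of_nonneg_left h1 hw4
  linarith [hsum, hin, h1']

end Gadget

end Pool.Agent.Lib.MP_b3fcb1_lc
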