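import Pool.Agent.Lib.MP_b3fcb1_lc.Excess

/-!
Averaging over tuples with one item from each block.
-/

namespace Pool.Agent.Lib.MP_b3fcb1_lc

variable {k n : ℕ}

lemma sum_swap (B : Fin k → Finset (Fin n)) {i j : Fin k} (hij : i ≠ j)
    (φ : Fin n → Fin n → ℤ) :
    ((B i).card : ℤ) * (B j).card * ∑ X ∈ Fintype.piFinset B, φ (X i) (X j) =
      ((Fintype.piFinset B).card : ℤ) * ∑ a ∈ B i, ∑ b ∈ B j, φ a b := by
  set P := Fintype.piFinset B ×ˢ (B i ×ˢ B j) with hP
  set e : (Fin k → Fin n) × (Fin n × Fin n) → (Fin k → Fin n) × (Fin n × Fin n) :=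
    fun p => (Function.update (Function.update p.1 i p.2.1) j p.2.2, (p.1 i, p.1 j)) with he
  have hmem : ∀ p ∈ P, e p ∈ P := by
    intro p hp
    rw [hP, Finset.mem_product, Finset.mem_product, Fintype.mem_piFinset] at hp
    rw [hP, Finset.mem_product, Finset.mem_product, Fintype.mem_piFinset]
    obtain ⟨h1, h2, h3⟩ := hp
    refine ⟨?_, h1 i, h1 j⟩
    intro l
    simp only [he]
    by_cases hl : l = j
    · subst hl; rw [Function.update_self]; exact h3
    · rw [Function.update_of_ne hl]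
      by_cases hl' : l = i
      · subst hl'; rw [Function.update_self]; exact h2
      · rw [Function.update_of_ne hl']; exact h1 l
  have hinv : ∀ p ∈ P, e (e p) = p := by
    intro p _
    obtain ⟨X, a, b⟩ := p
    simp only [he, Prod.mk.injEq]
    refine ⟨?_, ?_, ?_⟩
    · funext l
      by_cases hl : l = j
      · subst hl; rw [Function.update_self]
      · rw [Function.update_of_ne hl]
        by_cases hl' : l = i
        · subst hl'; rw [Function.update_self]
        · rw [Function.update_of_ne hl', Function.update_of_ne hl, Function.update_of_ne hl']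
    · rw [Function.update_of_ne hij, Function.update_self]
    · rw [Function.update_self]
  have h1 : ∑ p ∈ P, φ (p.1 i) (p.1 j) = ∑ p ∈ P, φ p.2.1 p.2.2 :=
    Finset.sum_nbij' e e hmem hmem hinv hinv (fun p _ => rfl)
  have h2 : ∑ p ∈ P, φ (p.1 i) (p.1 j) =
      ((B i).card : ℤ) * (B j).card * ∑ X ∈ Fintype.piFinset B, φ (X i) (X j) := by
    rw [hP, Finset.sum_product, Finset.mul_sum]
    apply Finset.sum_congr rfl
    intro X _
    simp only [Finset.sum_const, Finset.card_product, nsmul_eq_mul]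
    push_cast; ring
  have h3 : ∑ p ∈ P, φ p.2.1 p.2.2 =
      ((Fintype.piFinset B).card : ℤ) * ∑ a ∈ B i, ∑ b ∈ B j, φ a b := by
    rw [hP, Finset.sum_product]
    simp only [Finset.sum_product, Finset.sum_const, nsmul_eq_mul]
  rw [← h2, h1, h3]

/-- If every tuple satisfies the weighted inequality, then so does the sum over all pairs of items
in different blocks. -/
lemma tuple_sum (B : Fin k → Finset (Fin n)) (w : Fin k → ℕ) (m : ℕ)
    (hB : ∀ i, (B i).card = m * w i) (hw : ∀ i, 0 < w i)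
    (Y : Fin k → Fin k → Fin n → Fin n → ℤ) (G2 : ℤ)
    (h : ∀ X ∈ Fintype.piFinset B,
      G2 ≤ ∑ i, ∑ j, if i < j then ((w i : ℤ) * w j) * Y i j (X i) (X j) else 0) :
    G2 * (m : ℤ) ^ 2 ≤ ∑ i, ∑ j, if i < j then ∑ a ∈ B i, ∑ b ∈ B j, Y i j a b else 0 := by
  rcases Nat.eq_zero_or_pos m with h0 | h0
  · subst h0
    have hB0 : ∀ i, B i = ∅ := fun i => Finset.card_eq_zero.mp (by rw [hB]; simp)
    simp [hB0]
  set T : ℤ := ((Fintype.piFinset B).card : ℤ) with hT
  have hTpos : 0 < T := by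
    rw [hT, Fintype.card_piFinset]
    push_cast
    apply Finset.prod_pos
    intro i _
    rw [hB]
    have := hw i
    exact_mod_cast Nat.mul_pos h0 this
  have h1 := Finset.sum_le_sum h
  rw [Finset.sum_const, nsmul_eq_mul, ← hT] at h1
  have h2 : (∑ X ∈ Fintype.piFinset B, ∑ i, ∑ j,
      if i < j then ((w i : ℤ) * w j) * Y i j (X i) (X j) else 0) * (m : ℤ) ^ 2 =
      T * ∑ i, ∑ j, if i < j then ∑ a ∈ B i, ∑ b ∈ B j, Y i j a b else 0 := by
    rw [Finset.sum_comm, Finset.sum_mul, Finset.mul_sum]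
    apply Finset.sum_congr rfl
    intro i _
    rw [Finset.sum_comm, Finset.sum_mul, Finset.mul_sum]
    apply Finset.sum_congr rfl
    intro j _
    by_cases hij : i < j
    · simp only [hij, if_true]
      rw [← Finset.mul_sum]
      have := sum_swap B hij.ne (Y i j)
      rw [hB, hB, ← hT] at this
      push_cast at this
      linear_combination this
    · simp [hij]
  have hm : (0 : ℤ) < (m : ℤ) ^ 2 := by positivity
  have h3 : T * (G2 * (m : ℤ) ^ 2) ≤
      T * ∑ i, ∑ j, if i < j then ∑ a ∈ B i, ∑ b ∈ B j, Y i j a b else 0 := by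
    rw [← h2, ← mul_assoc]
    exact mul_le_mul_of_nonneg_right h1 hm.le
  exact le_of_mul_le_mul_left h3 hTpos

/-- sums over pairs of items in different blocks -/
lemma sum_blocks (bl : Fin n → ℕ) (F : Fin k → Fin k → Fin n → Fin n → ℤ) :
    (∑ i : Fin k, ∑ j : Fin k, if i < j then
      ∑ a ∈ Finset.univ.filter (fun r : Fin n => bl r = i),
        ∑ b ∈ Finset.univ.filter (fun r : Fin n => bl r = j), F i j a b else 0) =
    ∑ a : Fin n, ∑ b : Fin n, if h : bl a < bl b ∧ bl b < k then
      F ⟨bl a, h.1.trans h.2⟩ ⟨bl b, h.2⟩ a b else 0 := by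
  have h1 : ∀ i j : Fin k, (if i < j then
      ∑ a ∈ Finset.univ.filter (fun r : Fin n => bl r = i),
        ∑ b ∈ Finset.univ.filter (fun r : Fin n => bl r = j), F i j a b else 0) =
      ∑ a : Fin n, ∑ b : Fin n,
        if i < j ∧ bl a = i ∧ bl b = j then F i j a b else 0 := by
    intro i j
    by_cases hij : i < j
    · rw [if_pos hij, Finset.sum_filter]
      apply Finset.sum_congr rfl
      intro a _
      by_cases ha : bl a = i
      · rw [if_pos ha, Finset.sum_filter]
        apply Finset.sum_congr rfl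
        intro b _
        simp [hij, ha]
      · rw [if_neg ha]; simp [ha]
    · rw [if_neg hij]; simp [hij]
  simp only [h1]
  have h2 : (∑ i : Fin k, ∑ j : Fin k, ∑ a : Fin n, ∑ b : Fin n,
        if i < j ∧ bl a = i ∧ bl b = j then F i j a b else 0) =
      ∑ a : Fin n, ∑ b : Fin n, ∑ i : Fin k, ∑ j : Fin k,
        if i < j ∧ bl a = i ∧ bl b = j then F i j a b else 0 := by
    calc _ = ∑ i : Fin k, ∑ a : Fin n, ∑ j : Fin k, ∑ b : Fin n,
        (if i < j ∧ bl a = i ∧ bl b = j then F i j a b else 0) := by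
          apply Finset.sum_congr rfl; intro i _; exact Finset.sum_comm
      _ = ∑ a : Fin n, ∑ i : Fin k, ∑ j : Fin k, ∑ b : Fin n,
        (if i < j ∧ bl a = i ∧ bl b = j then F i j a b else 0) := Finset.sum_comm
      _ = ∑ a : Fin n, ∑ i : Fin k, ∑ b : Fin n, ∑ j : Fin k,
        (if i < j ∧ bl a = i ∧ bl b = j then F i j a b else 0) := by
          apply Finset.sum_congr rfl; intro a _
          apply Finset.sum_congr rfl; intro i _; exact Finset.sum_comm
      _ = _ := by
          apply Finset.sum_congr rfl; intro a _; exact Finset.sum_comm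
  rw [h2]
  apply Finset.sum_congr rfl
  intro a _
  apply Finset.sum_congr rfl
  intro b _
  by_cases h : bl a < bl b ∧ bl b < k
  · rw [dif_pos h]
    rw [Finset.sum_eq_single (⟨bl a, h.1.trans h.2⟩ : Fin k)]
    · rw [Finset.sum_eq_single (⟨bl b, h.2⟩ : Fin k)]
      · rw [if_pos]
        exact ⟨h.1, rfl, rfl⟩
      · intro j _ hj
        rw [if_neg]
        rintro ⟨_, _, h3⟩
        exact hj (Fin.ext h3.symm)
      · intro hc; exact absurd (Finset.mem_univ _) hc
    · intro i _ hi
      apply Finset.sum_eq_zero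
      intro j _
      rw [if_neg]
      rintro ⟨_, h3, _⟩
      exact hi (Fin.ext h3.symm)
    · intro hc; exact absurd (Finset.mem_univ _) hc
  · rw [dif_neg h]
    apply Finset.sum_eq_zero
    intro i _
    apply Finset.sum_eq_zero
    intro j _
    rw [if_neg]
    rintro ⟨h3, h4, h5⟩
    apply h
    rw [h4, h5]
    exact ⟨h3, j.isLt⟩

/-- sums over unordered pairs -/
lemma sum_symm (F : Fin n → Fin n → ℤ) (hs : ∀ x y, F x y = F y x) (h0 : ∀ x, F x x = 0) :
    ∑ x, ∑ y, F x y = 2 * ∑ x, ∑ y, if x < y then F x y else 0 := by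
  have h1 : ∀ x y, F x y = (if x < y then F x y else 0) + (if y < x then F y x else 0) := by
    intro x y
    rcases lt_trichotomy x y with h | h | h
    · rw [if_pos h, if_neg h.asymm, add_zero]
    · subst h; simp [h0]
    · rw [if_neg h.asymm, if_pos h, zero_add]; exact hs x y
  have h2 : ∑ x, ∑ y, F x y = ∑ x, ∑ y, (if x < y then F x y else 0) +
      ∑ x, ∑ y, (if y < x then F y x else 0) := by
    rw [← Finset.sum_add_distrib]
    apply Finset.sum_congr rfl; intro x _
    rw [← Finset.sum_add_distrib]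
    apply Finset.sum_congr rfl; intro y _
    exact h1 x y
  have h3 : ∑ x, ∑ y, (if y < x then F y x else 0) = ∑ x, ∑ y, (if x < y then F x y else 0) :=
    Finset.sum_comm
  rw [h2, h3]; ring

/-- number of pairs inside a set -/
lemma pairs_le (s : Finset (Fin n)) :
    2 * ∑ x : Fin n, ∑ y : Fin n, (if x < y ∧ x ∈ s ∧ y ∈ s then (1 : ℤ) else 0) ≤
      (s.card : ℤ) ^ 2 := by
  have h1 := sum_symm (fun x y => if x ≠ y ∧ x ∈ s ∧ y ∈ s then (1 : ℤ) else 0)
    (by intro x y; simp only [ne_comm, and_comm (a := x ∈ s)]) (by intro x; simp)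
  have h2 : ∀ x y : Fin n, (if x < y then (if x ≠ y ∧ x ∈ s ∧ y ∈ s then (1 : ℤ) else 0) else 0) =
      if x < y ∧ x ∈ s ∧ y ∈ s then (1 : ℤ) else 0 := by
    intro x y
    by_cases h : x < y
    · simp [h, h.ne]
    · simp [h]
  simp only [h2] at h1
  rw [← h1]
  have h3 : ∀ x y : Fin n, (if x ≠ y ∧ x ∈ s ∧ y ∈ s then (1 : ℤ) else 0) ≤
      (if x ∈ s then 1 else 0) * (if y ∈ s then 1 else 0) := by
    intro x y; split_ifs <;> simp_all
  calc ∑ x : Fin n, ∑ y : Fin n, (if x ≠ y ∧ x ∈ s ∧ y ∈ s then (1 : ℤ) else 0)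
      ≤ ∑ x : Fin n, ∑ y : Fin n, (if x ∈ s then (1 : ℤ) else 0) * (if y ∈ s then 1 else 0) :=
        Finset.sum_le_sum fun x _ => Finset.sum_le_sum fun y _ => h3 x y
    _ = (s.card : ℤ) ^ 2 := by
        rw [← Finset.sum_mul_sum]
        simp [sq]

end Pool.Agent.Lib.MP_b3fcb1_lc
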